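import Mathlib

/-!
Definitions for patches and tilings of the plane `ℂ` by unit triangles and unit squares.
-/

namespace Pool.Agent.P.MP_331808_co

/-- A closed equilateral triangle of side 1. -/
def IsTriangle (T : Set ℂ) : Prop :=
  ∃ a b c : ℂ, dist a b = 1 ∧ dist b c = 1 ∧ dist c a = 1 ∧ T = convexHull ℝ {a, b, c}

/-- A closed square of side 1. -/
def IsSquare (T : Set ℂ) : Prop :=
  ∃ a u : ℂ, ‖u‖ = 1 ∧
    T = convexHull ℝ {a, a + u, a + u + Complex.I * u, a + Complex.I * u}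

/-- The vertices of a tile are its extreme points. -/
def IsVertex (T : Set ℂ) (v : ℂ) : Prop := v ∈ Set.extremePoints ℝ T

/-- An edge of a tile joins two vertices at distance 1. -/
def IsEdge (T e : Set ℂ) : Prop :=
  ∃ v w : ℂ, IsVertex T v ∧ IsVertex T w ∧ dist v w = 1 ∧ e = segment ℝ v w

/-- A family of tiles arranged edge-to-edge, distinct tiles meeting in zero area. -/
def EdgeToEdge (F : Set (Set ℂ)) : Prop :=
  (∀ T ∈ F, IsTriangle T ∨ IsSquare T) ∧
    ∀ T ∈ F, ∀ T' ∈ F, T ≠ T' → MeasureTheory.volume (T ∩ T') = 0 ∧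
      (T ∩ T' = ∅ ∨ (∃ v, IsVertex T v ∧ IsVertex T' v ∧ T ∩ T' = {v}) ∨
        (IsEdge T (T ∩ T') ∧ IsEdge T' (T ∩ T')))

/-- Number of triangles of `F` meeting at the vertex `v`. -/
noncomputable def triAt (F : Set (Set ℂ)) (v : ℂ) : ℕ∞ :=
  {T | T ∈ F ∧ IsTriangle T ∧ IsVertex T v}.encard

/-- Number of squares of `F` meeting at the vertex `v`. -/
noncomputable def sqAt (F : Set (Set ℂ)) (v : ℂ) : ℕ∞ :=
  {T | T ∈ F ∧ IsSquare T ∧ IsVertex T v}.encard

/-- A patch: finite, edge-to-edge, union a closed disk, interior vertices of species 3 and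
boundary vertices compatible with species 3. -/
def IsPatch (A : Set (Set ℂ)) : Prop :=
  A.Finite ∧ EdgeToEdge A ∧ Nonempty (↥(⋃₀ A) ≃ₜ ↥(Metric.closedBall (0 : ℂ) 1)) ∧
    ∀ v : ℂ, (∃ T ∈ A, IsVertex T v) →
      (v ∈ interior (⋃₀ A) → triAt A v = 3 ∧ sqAt A v = 2) ∧
      (v ∈ frontier (⋃₀ A) → triAt A v ≤ 3 ∧ sqAt A v ≤ 2)

/-- An edge-to-edge tiling of the plane with all vertices of species 3. -/
def IsTiling (F : Set (Set ℂ)) : Prop :=
  EdgeToEdge F ∧ ⋃₀ F = Set.univ ∧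
    ∀ v : ℂ, (∃ T ∈ F, IsVertex T v) → triAt F v = 3 ∧ sqAt F v = 2

end Pool.Agent.P.MP_331808_co
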