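import Mathlib

/-!
The finite propagation argument, in integer coordinates for the ring generated by a primitive
twelfth root of unity.
-/

namespace Pool.Agent.P.MP_331808_co

/-- Integer coordinates with respect to the powers 0, 1, 2, 3 of the twelfth root of unity. -/
abbrev P4 := ℤ × ℤ × ℤ × ℤ

/-- The twelve unit directions. -/
def dir : Fin 12 → P4 :=
  ![(1, 0, 0, 0), (0, 1, 0, 0), (0, 0, 1, 0), (0, 0, 0, 1), (-1, 0, 1, 0), (0, -1, 0, 1), (-1, 0, 0, 0), (0, -1, 0, 0), (0, 0, -1, 0), (0, 0, 0, -1), (1, 0, -1, 0), (0, 1, 0, -1)]

/-- The local rules satisfied by the tiles of a convex patch. -/
structure Rules (Tr Sq : P4 → Fin 12 → Prop) : Prop where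
  rotT : ∀ {p p' : P4} {k k' : Fin 12}, Tr p k → p' = p + dir k → k' = k + 4 → Tr p' k'
  rotS : ∀ {p p' : P4} {k k' : Fin 12}, Sq p k → p' = p + dir k → k' = k + 3 → Sq p' k'
  acr : ∀ {p p' q : P4} {k k' m l : Fin 12}, (Tr p' k' ∨ Sq p' k') → (Tr q l ∨ Sq q l) →
    p' = p + dir k → k' = k + 6 → (q = p + dir m ∨ q = p' + dir m) →
    (m = k + 1 ∨ m = k + 2 ∨ m = k + 3 ∨ m = k + 4 ∨ m = k + 5) → Tr p k ∨ Sq p k
  cntT : ∀ {v : P4} {a b c d : Fin 12}, Tr v a → Tr v b → Tr v c → Tr v d →
    (a ≠ b ∧ a ≠ c ∧ a ≠ d ∧ b ≠ c ∧ b ≠ d ∧ c ≠ d) → False
  cntS : ∀ {v : P4} {a b c : Fin 12}, Sq v a → Sq v b → Sq v c → (a ≠ b ∧ a ≠ c ∧ b ≠ c) → False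

theorem stepA {Tr Sq : P4 → Fin 12 → Prop} (G : Rules Tr Sq)
    (h : Sq (0, -2, -1, 0) 1 ∧ Sq (0, -1, -1, 0) 1 ∧ Tr (0, 0, -1, 0) 0 ∧ Tr (0, 0, -1, 0) 2 ∧ Sq (1, 0, -1, 0) 1 ∧ Tr (1, 1, -1, 0) 0 ∧ Tr (1, 1, -1, 0) 2 ∧ Tr (2, 1, -1, 0) 0 ∧ Tr (2, 1, -1, 0) 2) :
    Tr (-1, -2, 0, 0) 1 ∧ Tr (-1, -1, 0, 0) 3 ∧ Tr (-1, -1, 0, 0) 1 ∧ Tr (-1, 0, 0, 0) 3 ∧ Sq (-1, 0, 0, 0) 0 ∧ Tr (0, 0, 0, 0) 1 ∧ Tr (0, 1, 0, 0) 3 ∧ Sq (0, 1, 0, 0) 0 ∧ Sq (1, 1, 0, 0) 0 := by
  obtain ⟨k0, k1, k2, k3, k4, k5, k6, k7, k8⟩ := h
  have h1 : Sq (0, -1, -1, 0) 4 := G.rotS k0 (by decide) (by decide)
  have h2 : Sq (-1, -1, 0, 0) 7 := G.rotS h1 (by decide) (by decide)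
  have h3 : Sq (-1, -2, 0, 0) 10 := G.rotS h2 (by decide) (by decide)
  have h4 : Sq (0, 0, -1, 0) 4 := G.rotS k1 (by decide) (by decide)
  have h5 : Sq (-1, 0, 0, 0) 7 := G.rotS h4 (by decide) (by decide)
  have h6 : Sq (-1, -1, 0, 0) 10 := G.rotS h5 (by decide) (by decide)
  have h7 : Tr (1, 0, -1, 0) 4 := G.rotT k2 (by decide) (by decide)
  have h8 : Tr (0, 0, 0, 0) 8 := G.rotT h7 (by decide) (by decide)
  have h9 : Tr (0, 0, 0, 0) 6 := G.rotT k3 (by decide) (by decide)
  have h10 : Tr (-1, 0, 0, 0) 10 := G.rotT h9 (by decide) (by decide)
  have h11 : Sq (1, 1, -1, 0) 4 := G.rotS k4 (by decide) (by decide)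
  have h12 : Sq (0, 1, 0, 0) 7 := G.rotS h11 (by decide) (by decide)
  have h13 : Sq (0, 0, 0, 0) 10 := G.rotS h12 (by decide) (by decide)
  have h14 : Tr (2, 1, -1, 0) 4 := G.rotT k5 (by decide) (by decide)
  have h15 : Tr (1, 1, 0, 0) 8 := G.rotT h14 (by decide) (by decide)
  have h16 : Tr (1, 1, 0, 0) 6 := G.rotT k6 (by decide) (by decide)
  have h17 : Tr (0, 1, 0, 0) 10 := G.rotT h16 (by decide) (by decide)
  have h18 : Tr (3, 1, -1, 0) 4 := G.rotT k7 (by decide) (by decide)
  have h19 : Tr (2, 1, 0, 0) 8 := G.rotT h18 (by decide) (by decide)
  have h20 : Tr (2, 1, 0, 0) 6 := G.rotT k8 (by decide) (by decide)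
  have h21 : Tr (1, 1, 0, 0) 10 := G.rotT h20 (by decide) (by decide)
  rcases G.acr (p := (0, 0, -1, 0)) (k := 7) (m := 0) (Or.inr k1) (Or.inl h7) (by decide) (by decide) (by decide) (by decide) with h22 | h22
  · have h23 : Tr (0, -1, -1, 0) 11 := G.rotT h22 (by decide) (by decide)
    have h24 : Tr (0, 0, -1, -1) 3 := G.rotT h23 (by decide) (by decide)
    rcases G.acr (p := (0, -1, -1, 0)) (k := 7) (m := 11) (Or.inr k0) (Or.inl h24) (by decide) (by decide) (by decide) (by decide) with h25 | h25
    · have h26 : Tr (0, -2, -1, 0) 11 := G.rotT h25 (by decide) (by decide)
      have h27 : Tr (0, -1, -1, -1) 3 := G.rotT h26 (by decide) (by decide)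
      rcases G.acr (p := (1, 0, -1, 0)) (k := 6) (m := 7) (Or.inl k2) (Or.inr h1) (by decide) (by decide) (by decide) (by decide) with h28 | h28
      · have h29 : Tr (0, 0, -1, 0) 10 := G.rotT h28 (by decide) (by decide)
        have h30 : Tr (1, 0, -2, 0) 2 := G.rotT h29 (by decide) (by decide)
        exact (G.cntT k2 k3 h22 h29 (by decide)).elim
      · have h31 : Sq (0, 0, -1, 0) 9 := G.rotS h28 (by decide) (by decide)
        have h32 : Sq (0, 0, -1, -1) 0 := G.rotS h31 (by decide) (by decide)
        have h33 : Sq (1, 0, -1, -1) 3 := G.rotS h32 (by decide) (by decide)
        rcases G.acr (p := (1, 1, -1, 0)) (k := 7) (m := 9) (Or.inr k4) (Or.inr h33) (by decide) (by decide) (by decide) (by decide) with h34 | h34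
        · have h35 : Tr (1, 0, -1, 0) 11 := G.rotT h34 (by decide) (by decide)
          have h36 : Tr (1, 1, -1, -1) 3 := G.rotT h35 (by decide) (by decide)
          rcases G.acr (p := (2, 1, -1, 0)) (k := 6) (m := 7) (Or.inl k5) (Or.inl h7) (by decide) (by decide) (by decide) (by decide) with h37 | h37
          · have h38 : Tr (1, 1, -1, 0) 10 := G.rotT h37 (by decide) (by decide)
            have h39 : Tr (2, 1, -2, 0) 2 := G.rotT h38 (by decide) (by decide)
            exact (G.cntT k5 k6 h34 h38 (by decide)).elim
          · have h40 : Sq (1, 1, -1, 0) 9 := G.rotS h37 (by decide) (by decide)
            have h41 : Sq (1, 1, -1, -1) 0 := G.rotS h40 (by decide) (by decide)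
            have h42 : Sq (2, 1, -1, -1) 3 := G.rotS h41 (by decide) (by decide)
            rcases G.acr (p := (3, 1, -1, 0)) (k := 6) (m := 9) (Or.inl k7) (Or.inr h42) (by decide) (by decide) (by decide) (by decide) with h43 | h43
            · have h44 : Tr (2, 1, -1, 0) 10 := G.rotT h43 (by decide) (by decide)
              have h45 : Tr (3, 1, -2, 0) 2 := G.rotT h44 (by decide) (by decide)
              exact (G.cntT h14 k7 k8 h44 (by decide)).elim
            · have h46 : Sq (2, 1, -1, 0) 9 := G.rotS h43 (by decide) (by decide)
              have h47 : Sq (2, 1, -1, -1) 0 := G.rotS h46 (by decide) (by decide)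
              have h48 : Sq (3, 1, -1, -1) 3 := G.rotS h47 (by decide) (by decide)
              rcases G.acr (p := (0, 0, -1, -1)) (k := 5) (m := 7) (Or.inl h23) (Or.inl h27) (by decide) (by decide) (by decide) (by decide) with h49 | h49
              · have h50 : Tr (0, -1, -1, 0) 9 := G.rotT h49 (by decide) (by decide)
                have h51 : Tr (0, -1, -1, -1) 1 := G.rotT h50 (by decide) (by decide)
                rcases G.acr (p := (1, 0, -1, 0)) (k := 9) (m := 11) (Or.inr h33) (Or.inl h36) (by decide) (by decide) (by decide) (by decide) with h52 | h52
                · have h53 : Tr (1, 0, -1, -1) 1 := G.rotT h52 (by decide) (by decide)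
                  have h54 : Tr (1, 1, -1, -1) 5 := G.rotT h53 (by decide) (by decide)
                  rcases G.acr (p := (2, 1, -1, -1)) (k := 6) (m := 7) (Or.inr h41) (Or.inr h33) (by decide) (by decide) (by decide) (by decide) with h55 | h55
                  · have h56 : Tr (1, 1, -1, -1) 10 := G.rotT h55 (by decide) (by decide)
                    have h57 : Tr (2, 1, -2, -1) 2 := G.rotT h56 (by decide) (by decide)
                    rcases G.acr (p := (3, 1, -1, -1)) (k := 6) (m := 8) (Or.inr h47) (Or.inl h57) (by decide) (by decide) (by decide) (by decide) with h58 | h58
                    · have h59 : Tr (2, 1, -1, -1) 10 := G.rotT h58 (by decide) (by decide)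
                      have h60 : Tr (3, 1, -2, -1) 2 := G.rotT h59 (by decide) (by decide)
                      rcases G.acr (p := (1, 1, -1, -1)) (k := 7) (m := 10) (Or.inl h53) (Or.inl h57) (by decide) (by decide) (by decide) (by decide) with h61 | h61
                      · have h62 : Tr (1, 0, -1, -1) 11 := G.rotT h61 (by decide) (by decide)
                        have h63 : Tr (1, 1, -1, -2) 3 := G.rotT h62 (by decide) (by decide)
                        exact (G.cntT h36 h54 h56 h61 (by decide)).elim
                      · have h64 : Sq (1, 0, -1, -1) 10 := G.rotS h61 (by decide) (by decide)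
                        have h65 : Sq (2, 0, -2, -1) 1 := G.rotS h64 (by decide) (by decide)
                        have h66 : Sq (2, 1, -2, -1) 4 := G.rotS h65 (by decide) (by decide)
                        rcases G.acr (p := (1, 0, -1, -1)) (k := 6) (m := 7) (Or.inr h32) (Or.inl h27) (by decide) (by decide) (by decide) (by decide) with h67 | h67
                        · have h68 : Tr (0, 0, -1, -1) 10 := G.rotT h67 (by decide) (by decide)
                          have h69 : Tr (1, 0, -2, -1) 2 := G.rotT h68 (by decide) (by decide)
                          rcases G.acr (p := (0, 0, -1, -1)) (k := 7) (m := 10) (Or.inl h51) (Or.inl h69) (by decide) (by decide) (by decide) (by decide) with h70 | h70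
                          · have h71 : Tr (0, -1, -1, -1) 11 := G.rotT h70 (by decide) (by decide)
                            have h72 : Tr (0, 0, -1, -2) 3 := G.rotT h71 (by decide) (by decide)
                            exact (G.cntT h24 h49 h68 h70 (by decide)).elim
                          · have h73 : Sq (0, -1, -1, -1) 10 := G.rotS h70 (by decide) (by decide)
                            have h74 : Sq (1, -1, -2, -1) 1 := G.rotS h73 (by decide) (by decide)
                            have h75 : Sq (1, 0, -2, -1) 4 := G.rotS h74 (by decide) (by decide)
                            rcases G.acr (p := (2, 1, -1, -1)) (k := 8) (m := 10) (Or.inl h57) (Or.inl h60) (by decide) (by decide) (by decide) (by decide) with h76 | h76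
                            · have h77 : Tr (2, 1, -2, -1) 0 := G.rotT h76 (by decide) (by decide)
                              have h78 : Tr (3, 1, -2, -1) 4 := G.rotT h77 (by decide) (by decide)
                              rcases G.acr (p := (2, 0, -2, -1)) (k := 4) (m := 6) (Or.inr h64) (Or.inl h69) (by decide) (by decide) (by decide) (by decide) with h79 | h79
                              · have h80 : Tr (1, 0, -1, -1) 8 := G.rotT h79 (by decide) (by decide)
                                have h81 : Tr (1, 0, -2, -1) 0 := G.rotT h80 (by decide) (by decide)
                                rcases G.acr (p := (-1, 0, 0, 0)) (k := 0) (m := 1) (Or.inl h9) (Or.inr h12) (by decide) (by decide) (by decide) (by decide) with h82 | h82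
                                · have h83 : Tr (0, 0, 0, 0) 4 := G.rotT h82 (by decide) (by decide)
                                  have h84 : Tr (-1, 0, 1, 0) 8 := G.rotT h83 (by decide) (by decide)
                                  rcases G.acr (p := (-1, -1, 0, 0)) (k := 1) (m := 2) (Or.inr h5) (Or.inl h84) (by decide) (by decide) (by decide) (by decide) with h85 | h85
                                  · have h86 : Tr (-1, 0, 0, 0) 5 := G.rotT h85 (by decide) (by decide)
                                    have h87 : Tr (-1, -1, 0, 1) 9 := G.rotT h86 (by decide) (by decide)
                                    rcases G.acr (p := (-1, -2, 0, 0)) (k := 1) (m := 3) (Or.inr h2) (Or.inl h87) (by decide) (by decide) (by decide) (by decide) with h88 | h88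
                                    · have h89 : Tr (-1, -1, 0, 0) 5 := G.rotT h88 (by decide) (by decide)
                                      have h90 : Tr (-1, -2, 0, 1) 9 := G.rotT h89 (by decide) (by decide)
                                      rcases G.acr (p := (0, 0, 0, 0)) (k := 1) (m := 4) (Or.inr h12) (Or.inl h84) (by decide) (by decide) (by decide) (by decide) with h91 | h91
                                      · have h92 : Tr (0, 1, 0, 0) 5 := G.rotT h91 (by decide) (by decide)
                                        have h93 : Tr (0, 0, 0, 1) 9 := G.rotT h92 (by decide) (by decide)
                                        exact (G.cntT h8 h9 h83 h91 (by decide)).elim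
                                      · have h94 : Sq (0, 1, 0, 0) 4 := G.rotS h91 (by decide) (by decide)
                                        have h95 : Sq (-1, 1, 1, 0) 7 := G.rotS h94 (by decide) (by decide)
                                        have h96 : Sq (-1, 0, 1, 0) 10 := G.rotS h95 (by decide) (by decide)
                                        rcases G.acr (p := (0, 1, 0, 0)) (k := 0) (m := 4) (Or.inl h16) (Or.inr h95) (by decide) (by decide) (by decide) (by decide) with h97 | h97
                                        · have h98 : Tr (1, 1, 0, 0) 4 := G.rotT h97 (by decide) (by decide)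
                                          have h99 : Tr (0, 1, 1, 0) 8 := G.rotT h98 (by decide) (by decide)
                                          exact (G.cntT h15 h16 h21 h98 (by decide)).elim
                                        · have h100 : Sq (1, 1, 0, 0) 3 := G.rotS h97 (by decide) (by decide)
                                          have h101 : Sq (1, 1, 0, 1) 6 := G.rotS h100 (by decide) (by decide)
                                          have h102 : Sq (0, 1, 0, 1) 9 := G.rotS h101 (by decide) (by decide)
                                          exact (G.cntS h12 h94 h97 (by decide)).elim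
                                    · have h103 : Sq (-1, -1, 0, 0) 4 := G.rotS h88 (by decide) (by decide)
                                      have h104 : Sq (-2, -1, 1, 0) 7 := G.rotS h103 (by decide) (by decide)
                                      have h105 : Sq (-2, -2, 1, 0) 10 := G.rotS h104 (by decide) (by decide)
                                      exact (G.cntS h2 h6 h103 (by decide)).elim
                                  · have h106 : Sq (-1, 0, 0, 0) 4 := G.rotS h85 (by decide) (by decide)
                                    have h107 : Sq (-2, 0, 1, 0) 7 := G.rotS h106 (by decide) (by decide)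
                                    have h108 : Sq (-2, -1, 1, 0) 10 := G.rotS h107 (by decide) (by decide)
                                    exact (G.cntS h2 h6 h85 (by decide)).elim
                                · have h109 : Sq (0, 0, 0, 0) 3 := G.rotS h82 (by decide) (by decide)
                                  have h110 : Sq (0, 0, 0, 1) 6 := G.rotS h109 (by decide) (by decide)
                                  have h111 : Sq (-1, 0, 0, 1) 9 := G.rotS h110 (by decide) (by decide)
                                  rcases G.acr (p := (-1, -1, 0, 0)) (k := 1) (m := 3) (Or.inr h5) (Or.inr h111) (by decide) (by decide) (by decide) (by decide) with h112 | h112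
                                  · have h113 : Tr (-1, 0, 0, 0) 5 := G.rotT h112 (by decide) (by decide)
                                    have h114 : Tr (-1, -1, 0, 1) 9 := G.rotT h113 (by decide) (by decide)
                                    rcases G.acr (p := (-1, -2, 0, 0)) (k := 1) (m := 3) (Or.inr h2) (Or.inl h114) (by decide) (by decide) (by decide) (by decide) with h115 | h115
                                    · have h116 : Tr (-1, -1, 0, 0) 5 := G.rotT h115 (by decide) (by decide)
                                      have h117 : Tr (-1, -2, 0, 1) 9 := G.rotT h116 (by decide) (by decide)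
                                      rcases G.acr (p := (0, 0, 0, 0)) (k := 1) (m := 3) (Or.inr h12) (Or.inr h110) (by decide) (by decide) (by decide) (by decide) with h118 | h118
                                      · have h119 : Tr (0, 1, 0, 0) 5 := G.rotT h118 (by decide) (by decide)
                                        have h120 : Tr (0, 0, 0, 1) 9 := G.rotT h119 (by decide) (by decide)
                                        rcases G.acr (p := (0, 1, 0, 0)) (k := 0) (m := 5) (Or.inl h16) (Or.inr h110) (by decide) (by decide) (by decide) (by decide) with h121 | h121
                                        · have h122 : Tr (1, 1, 0, 0) 4 := G.rotT h121 (by decide) (by decide)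
                                          have h123 : Tr (0, 1, 1, 0) 8 := G.rotT h122 (by decide) (by decide)
                                          exact (G.cntT h15 h16 h21 h122 (by decide)).elim
                                        · have h124 : Sq (1, 1, 0, 0) 3 := G.rotS h121 (by decide) (by decide)
                                          have h125 : Sq (1, 1, 0, 1) 6 := G.rotS h124 (by decide) (by decide)
                                          have h126 : Sq (0, 1, 0, 1) 9 := G.rotS h125 (by decide) (by decide)
                                          rcases G.acr (p := (1, 1, 0, 0)) (k := 0) (m := 3) (Or.inl h20) (Or.inr h125) (by decide) (by decide) (by decide) (by decide) with h127 | h127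
                                          · have h128 : Tr (2, 1, 0, 0) 4 := G.rotT h127 (by decide) (by decide)
                                            have h129 : Tr (1, 1, 1, 0) 8 := G.rotT h128 (by decide) (by decide)
                                            exact (G.cntT h15 h16 h21 h127 (by decide)).elim
                                          · have h130 : Sq (2, 1, 0, 0) 3 := G.rotS h127 (by decide) (by decide)
                                            have h131 : Sq (2, 1, 0, 1) 6 := G.rotS h130 (by decide) (by decide)
                                            have h132 : Sq (1, 1, 0, 1) 9 := G.rotS h131 (by decide) (by decide)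
                                            rcases G.acr (p := (-1, 0, 0, 0)) (k := 3) (m := 5) (Or.inr h111) (Or.inl h114) (by decide) (by decide) (by decide) (by decide) with h133 | h133
                                            · have h134 : Tr (-1, 0, 0, 1) 7 := G.rotT h133 (by decide) (by decide)
                                              have h135 : Tr (-1, -1, 0, 1) 11 := G.rotT h134 (by decide) (by decide)
                                              rcases G.acr (p := (-1, -1, 0, 0)) (k := 3) (m := 5) (Or.inl h114) (Or.inl h117) (by decide) (by decide) (by decide) (by decide) with h136 | h136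
                                              · have h137 : Tr (-1, -1, 0, 1) 7 := G.rotT h136 (by decide) (by decide)
                                                have h138 : Tr (-1, -2, 0, 1) 11 := G.rotT h137 (by decide) (by decide)
                                                rcases G.acr (p := (0, 0, 0, 1)) (k := 11) (m := 0) (Or.inl h119) (Or.inl h15) (by decide) (by decide) (by decide) (by decide) with h139 | h139
                                                · have h140 : Tr (0, 1, 0, 0) 3 := G.rotT h139 (by decide) (by decide)
                                                  have h141 : Tr (0, 1, 0, 1) 7 := G.rotT h140 (by decide) (by decide)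
                                                  exact ⟨h115, h136, h112, h133, h82, h118, h140, h121, h127⟩
                                                · have h142 : Sq (0, 1, 0, 0) 2 := G.rotS h139 (by decide) (by decide)
                                                  have h143 : Sq (0, 1, 1, 0) 5 := G.rotS h142 (by decide) (by decide)
                                                  have h144 : Sq (0, 0, 1, 1) 8 := G.rotS h143 (by decide) (by decide)
                                                  exact (G.cntS h12 h121 h142 (by decide)).elim
                                              · have h145 : Sq (-1, -1, 0, 1) 6 := G.rotS h136 (by decide) (by decide)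
                                                have h146 : Sq (-2, -1, 0, 1) 9 := G.rotS h145 (by decide) (by decide)
                                                have h147 : Sq (-2, -1, 0, 0) 0 := G.rotS h146 (by decide) (by decide)
                                                exact (G.cntS h2 h6 h136 (by decide)).elim
                                            · have h148 : Sq (-1, 0, 0, 1) 6 := G.rotS h133 (by decide) (by decide)
                                              have h149 : Sq (-2, 0, 0, 1) 9 := G.rotS h148 (by decide) (by decide)
                                              have h150 : Sq (-2, 0, 0, 0) 0 := G.rotS h149 (by decide) (by decide)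
                                              exact (G.cntS h5 h82 h133 (by decide)).elim
                                      · have h151 : Sq (0, 1, 0, 0) 4 := G.rotS h118 (by decide) (by decide)
                                        have h152 : Sq (-1, 1, 1, 0) 7 := G.rotS h151 (by decide) (by decide)
                                        have h153 : Sq (-1, 0, 1, 0) 10 := G.rotS h152 (by decide) (by decide)
                                        exact (G.cntS h13 h109 h118 (by decide)).elim
                                    · have h154 : Sq (-1, -1, 0, 0) 4 := G.rotS h115 (by decide) (by decide)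
                                      have h155 : Sq (-2, -1, 1, 0) 7 := G.rotS h154 (by decide) (by decide)
                                      have h156 : Sq (-2, -2, 1, 0) 10 := G.rotS h155 (by decide) (by decide)
                                      exact (G.cntS h2 h6 h154 (by decide)).elim
                                  · have h157 : Sq (-1, 0, 0, 0) 4 := G.rotS h112 (by decide) (by decide)
                                    have h158 : Sq (-2, 0, 1, 0) 7 := G.rotS h157 (by decide) (by decide)
                                    have h159 : Sq (-2, -1, 1, 0) 10 := G.rotS h158 (by decide) (by decide)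
                                    exact (G.cntS h2 h6 h112 (by decide)).elim
                              · have h160 : Sq (1, 0, -1, -1) 7 := G.rotS h79 (by decide) (by decide)
                                have h161 : Sq (1, -1, -1, -1) 10 := G.rotS h160 (by decide) (by decide)
                                have h162 : Sq (2, -1, -2, -1) 1 := G.rotS h161 (by decide) (by decide)
                                exact (G.cntS h33 h64 h160 (by decide)).elim
                            · have h163 : Sq (2, 1, -2, -1) 11 := G.rotS h76 (by decide) (by decide)
                              have h164 : Sq (2, 2, -2, -2) 2 := G.rotS h163 (by decide) (by decide)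
                              have h165 : Sq (2, 2, -1, -2) 5 := G.rotS h164 (by decide) (by decide)
                              exact (G.cntS h42 h47 h76 (by decide)).elim
                        · have h166 : Sq (0, 0, -1, -1) 9 := G.rotS h67 (by decide) (by decide)
                          have h167 : Sq (0, 0, -1, -2) 0 := G.rotS h166 (by decide) (by decide)
                          have h168 : Sq (1, 0, -1, -2) 3 := G.rotS h167 (by decide) (by decide)
                          exact (G.cntS h33 h64 h67 (by decide)).elim
                    · have h169 : Sq (2, 1, -1, -1) 9 := G.rotS h58 (by decide) (by decide)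
                      have h170 : Sq (2, 1, -1, -2) 0 := G.rotS h169 (by decide) (by decide)
                      have h171 : Sq (3, 1, -1, -2) 3 := G.rotS h170 (by decide) (by decide)
                      exact (G.cntS h42 h47 h169 (by decide)).elim
                  · have h172 : Sq (1, 1, -1, -1) 9 := G.rotS h55 (by decide) (by decide)
                    have h173 : Sq (1, 1, -1, -2) 0 := G.rotS h172 (by decide) (by decide)
                    have h174 : Sq (2, 1, -1, -2) 3 := G.rotS h173 (by decide) (by decide)
                    exact (G.cntS h42 h47 h55 (by decide)).elim
                · have h175 : Sq (1, 0, -1, -1) 0 := G.rotS h52 (by decide) (by decide)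
                  have h176 : Sq (2, 0, -1, -1) 3 := G.rotS h175 (by decide) (by decide)
                  have h177 : Sq (2, 0, -1, 0) 6 := G.rotS h176 (by decide) (by decide)
                  exact (G.cntS k4 h28 h52 (by decide)).elim
              · have h178 : Sq (0, -1, -1, 0) 8 := G.rotS h49 (by decide) (by decide)
                have h179 : Sq (0, -1, -2, 0) 11 := G.rotS h178 (by decide) (by decide)
                have h180 : Sq (0, 0, -2, -1) 2 := G.rotS h179 (by decide) (by decide)
                exact (G.cntS h1 k1 h178 (by decide)).elim
        · have h181 : Sq (1, 0, -1, 0) 10 := G.rotS h34 (by decide) (by decide)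
          have h182 : Sq (2, 0, -2, 0) 1 := G.rotS h181 (by decide) (by decide)
          have h183 : Sq (2, 1, -2, 0) 4 := G.rotS h182 (by decide) (by decide)
          exact (G.cntS k4 h28 h181 (by decide)).elim
    · have h184 : Sq (0, -2, -1, 0) 10 := G.rotS h25 (by decide) (by decide)
      have h185 : Sq (1, -2, -2, 0) 1 := G.rotS h184 (by decide) (by decide)
      have h186 : Sq (1, -1, -2, 0) 4 := G.rotS h185 (by decide) (by decide)
      exact (G.cntS h1 k1 h25 (by decide)).elim
  · have h187 : Sq (0, -1, -1, 0) 10 := G.rotS h22 (by decide) (by decide)
    have h188 : Sq (1, -1, -2, 0) 1 := G.rotS h187 (by decide) (by decide)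
    have h189 : Sq (1, 0, -2, 0) 4 := G.rotS h188 (by decide) (by decide)
    exact (G.cntS h1 k1 h187 (by decide)).elim

theorem stepB {Tr Sq : P4 → Fin 12 → Prop} (G : Rules Tr Sq)
    (h : Tr (-1, -2, 0, -1) 1 ∧ Tr (-1, -1, 0, -1) 3 ∧ Tr (-1, -1, 0, -1) 1 ∧ Tr (-1, 0, 0, -1) 3 ∧ Sq (-1, 0, 0, -1) 0 ∧ Tr (0, 0, 0, -1) 1 ∧ Tr (0, 1, 0, -1) 3 ∧ Sq (0, 1, 0, -1) 0 ∧ Sq (1, 1, 0, -1) 0) :
    Sq (-1, -2, 0, 0) 1 ∧ Sq (-1, -1, 0, 0) 1 ∧ Tr (-1, 0, 0, 0) 0 ∧ Tr (-1, 0, 0, 0) 2 ∧ Sq (0, 0, 0, 0) 1 ∧ Tr (0, 1, 0, 0) 0 ∧ Tr (0, 1, 0, 0) 2 ∧ Tr (1, 1, 0, 0) 0 ∧ Tr (1, 1, 0, 0) 2 := by
  obtain ⟨k0, k1, k2, k3, k4, k5, k6, k7, k8⟩ := h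
  have h190 : Tr (-1, -1, 0, -1) 5 := G.rotT k0 (by decide) (by decide)
  have h191 : Tr (-1, -2, 0, 0) 9 := G.rotT h190 (by decide) (by decide)
  have h192 : Tr (-1, -1, 0, 0) 7 := G.rotT k1 (by decide) (by decide)
  have h193 : Tr (-1, -2, 0, 0) 11 := G.rotT h192 (by decide) (by decide)
  have h194 : Tr (-1, 0, 0, -1) 5 := G.rotT k2 (by decide) (by decide)
  have h195 : Tr (-1, -1, 0, 0) 9 := G.rotT h194 (by decide) (by decide)
  have h196 : Tr (-1, 0, 0, 0) 7 := G.rotT k3 (by decide) (by decide)
  have h197 : Tr (-1, -1, 0, 0) 11 := G.rotT h196 (by decide) (by decide)
  have h198 : Sq (0, 0, 0, -1) 3 := G.rotS k4 (by decide) (by decide)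
  have h199 : Sq (0, 0, 0, 0) 6 := G.rotS h198 (by decide) (by decide)
  have h200 : Sq (-1, 0, 0, 0) 9 := G.rotS h199 (by decide) (by decide)
  have h201 : Tr (0, 1, 0, -1) 5 := G.rotT k5 (by decide) (by decide)
  have h202 : Tr (0, 0, 0, 0) 9 := G.rotT h201 (by decide) (by decide)
  have h203 : Tr (0, 1, 0, 0) 7 := G.rotT k6 (by decide) (by decide)
  have h204 : Tr (0, 0, 0, 0) 11 := G.rotT h203 (by decide) (by decide)
  have h205 : Sq (1, 1, 0, -1) 3 := G.rotS k7 (by decide) (by decide)
  have h206 : Sq (1, 1, 0, 0) 6 := G.rotS h205 (by decide) (by decide)
  have h207 : Sq (0, 1, 0, 0) 9 := G.rotS h206 (by decide) (by decide)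
  have h208 : Sq (2, 1, 0, -1) 3 := G.rotS k8 (by decide) (by decide)
  have h209 : Sq (2, 1, 0, 0) 6 := G.rotS h208 (by decide) (by decide)
  have h210 : Sq (1, 1, 0, 0) 9 := G.rotS h209 (by decide) (by decide)
  rcases G.acr (p := (-1, 0, 0, -1)) (k := 7) (m := 0) (Or.inl k2) (Or.inr h198) (by decide) (by decide) (by decide) (by decide) with h211 | h211
  · have h212 : Tr (-1, -1, 0, -1) 11 := G.rotT h211 (by decide) (by decide)
    have h213 : Tr (-1, 0, 0, -2) 3 := G.rotT h212 (by decide) (by decide)
    exact (G.cntT h190 k1 k2 h212 (by decide)).elim
  · have h214 : Sq (-1, -1, 0, -1) 10 := G.rotS h211 (by decide) (by decide)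
    have h215 : Sq (0, -1, -1, -1) 1 := G.rotS h214 (by decide) (by decide)
    have h216 : Sq (0, 0, -1, -1) 4 := G.rotS h215 (by decide) (by decide)
    rcases G.acr (p := (-1, -1, 0, -1)) (k := 7) (m := 10) (Or.inl k0) (Or.inr h215) (by decide) (by decide) (by decide) (by decide) with h217 | h217
    · have h218 : Tr (-1, -2, 0, -1) 11 := G.rotT h217 (by decide) (by decide)
      have h219 : Tr (-1, -1, 0, -2) 3 := G.rotT h218 (by decide) (by decide)
      exact (G.cntT h190 k1 k2 h217 (by decide)).elim
    · have h220 : Sq (-1, -2, 0, -1) 10 := G.rotS h217 (by decide) (by decide)
      have h221 : Sq (0, -2, -1, -1) 1 := G.rotS h220 (by decide) (by decide)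
      have h222 : Sq (0, -1, -1, -1) 4 := G.rotS h221 (by decide) (by decide)
      rcases G.acr (p := (0, 0, 0, -1)) (k := 6) (m := 7) (Or.inr k4) (Or.inl h190) (by decide) (by decide) (by decide) (by decide) with h223 | h223
      · have h224 : Tr (-1, 0, 0, -1) 10 := G.rotT h223 (by decide) (by decide)
        have h225 : Tr (0, 0, -1, -1) 2 := G.rotT h224 (by decide) (by decide)
        rcases G.acr (p := (1, 1, 0, -1)) (k := 6) (m := 7) (Or.inr k7) (Or.inr h198) (by decide) (by decide) (by decide) (by decide) with h226 | h226
        · have h227 : Tr (0, 1, 0, -1) 10 := G.rotT h226 (by decide) (by decide)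
          have h228 : Tr (1, 1, -1, -1) 2 := G.rotT h227 (by decide) (by decide)
          rcases G.acr (p := (0, 1, 0, -1)) (k := 7) (m := 8) (Or.inl k5) (Or.inr h216) (by decide) (by decide) (by decide) (by decide) with h229 | h229
          · have h230 : Tr (0, 0, 0, -1) 11 := G.rotT h229 (by decide) (by decide)
            have h231 : Tr (0, 1, 0, -2) 3 := G.rotT h230 (by decide) (by decide)
            exact (G.cntT h201 k6 h227 h229 (by decide)).elim
          · have h232 : Sq (0, 0, 0, -1) 10 := G.rotS h229 (by decide) (by decide)
            have h233 : Sq (1, 0, -1, -1) 1 := G.rotS h232 (by decide) (by decide)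
            have h234 : Sq (1, 1, -1, -1) 4 := G.rotS h233 (by decide) (by decide)
            rcases G.acr (p := (2, 1, 0, -1)) (k := 6) (m := 8) (Or.inr k8) (Or.inl h228) (by decide) (by decide) (by decide) (by decide) with h235 | h235
            · have h236 : Tr (1, 1, 0, -1) 10 := G.rotT h235 (by decide) (by decide)
              have h237 : Tr (2, 1, -1, -1) 2 := G.rotT h236 (by decide) (by decide)
              rcases G.acr (p := (0, 0, -1, -1)) (k := 7) (m := 0) (Or.inr h215) (Or.inr h233) (by decide) (by decide) (by decide) (by decide) with h238 | h238
              · have h239 : Tr (0, -1, -1, -1) 11 := G.rotT h238 (by decide) (by decide)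
                have h240 : Tr (0, 0, -1, -2) 3 := G.rotT h239 (by decide) (by decide)
                rcases G.acr (p := (0, -1, -1, -1)) (k := 7) (m := 11) (Or.inr h221) (Or.inl h240) (by decide) (by decide) (by decide) (by decide) with h241 | h241
                · have h242 : Tr (0, -2, -1, -1) 11 := G.rotT h241 (by decide) (by decide)
                  have h243 : Tr (0, -1, -1, -2) 3 := G.rotT h242 (by decide) (by decide)
                  rcases G.acr (p := (0, 0, 0, -1)) (k := 8) (m := 9) (Or.inl h225) (Or.inl h240) (by decide) (by decide) (by decide) (by decide) with h244 | h244
                  · have h245 : Tr (0, 0, -1, -1) 0 := G.rotT h244 (by decide) (by decide)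
                    have h246 : Tr (1, 0, -1, -1) 4 := G.rotT h245 (by decide) (by decide)
                    rcases G.acr (p := (1, 1, 0, -1)) (k := 8) (m := 10) (Or.inl h228) (Or.inl h237) (by decide) (by decide) (by decide) (by decide) with h247 | h247
                    · have h248 : Tr (1, 1, -1, -1) 0 := G.rotT h247 (by decide) (by decide)
                      have h249 : Tr (2, 1, -1, -1) 4 := G.rotT h248 (by decide) (by decide)
                      rcases G.acr (p := (0, 0, -1, -2)) (k := 5) (m := 7) (Or.inl h239) (Or.inl h243) (by decide) (by decide) (by decide) (by decide) with h250 | h250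
                      · have h251 : Tr (0, -1, -1, -1) 9 := G.rotT h250 (by decide) (by decide)
                        have h252 : Tr (0, -1, -1, -2) 1 := G.rotT h251 (by decide) (by decide)
                        rcases G.acr (p := (0, 0, -1, -1)) (k := 9) (m := 0) (Or.inl h240) (Or.inr h233) (by decide) (by decide) (by decide) (by decide) with h253 | h253
                        · have h254 : Tr (0, 0, -1, -2) 1 := G.rotT h253 (by decide) (by decide)
                          have h255 : Tr (0, 1, -1, -2) 5 := G.rotT h254 (by decide) (by decide)
                          exact (G.cntT h225 h238 h245 h253 (by decide)).elim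
                        · have h256 : Sq (0, 0, -1, -2) 0 := G.rotS h253 (by decide) (by decide)
                          have h257 : Sq (1, 0, -1, -2) 3 := G.rotS h256 (by decide) (by decide)
                          have h258 : Sq (1, 0, -1, -1) 6 := G.rotS h257 (by decide) (by decide)
                          rcases G.acr (p := (1, 1, -1, -1)) (k := 7) (m := 9) (Or.inr h233) (Or.inr h257) (by decide) (by decide) (by decide) (by decide) with h259 | h259
                          · have h260 : Tr (1, 0, -1, -1) 11 := G.rotT h259 (by decide) (by decide)
                            have h261 : Tr (1, 1, -1, -2) 3 := G.rotT h260 (by decide) (by decide)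
                            rcases G.acr (p := (2, 1, -1, -1)) (k := 6) (m := 7) (Or.inl h248) (Or.inr h233) (by decide) (by decide) (by decide) (by decide) with h262 | h262
                            · have h263 : Tr (1, 1, -1, -1) 10 := G.rotT h262 (by decide) (by decide)
                              have h264 : Tr (2, 1, -2, -1) 2 := G.rotT h263 (by decide) (by decide)
                              exact (G.cntT h228 h248 h259 h263 (by decide)).elim
                            · have h265 : Sq (1, 1, -1, -1) 9 := G.rotS h262 (by decide) (by decide)
                              have h266 : Sq (1, 1, -1, -2) 0 := G.rotS h265 (by decide) (by decide)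
                              have h267 : Sq (2, 1, -1, -2) 3 := G.rotS h266 (by decide) (by decide)
                              rcases G.acr (p := (1, 0, -1, -1)) (k := 9) (m := 11) (Or.inr h257) (Or.inl h261) (by decide) (by decide) (by decide) (by decide) with h268 | h268
                              · have h269 : Tr (1, 0, -1, -2) 1 := G.rotT h268 (by decide) (by decide)
                                have h270 : Tr (1, 1, -1, -2) 5 := G.rotT h269 (by decide) (by decide)
                                rcases G.acr (p := (-1, 0, 0, 0)) (k := 0) (m := 1) (Or.inr h199) (Or.inl h203) (by decide) (by decide) (by decide) (by decide) with h271 | h271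
                                · have h272 : Tr (0, 0, 0, 0) 4 := G.rotT h271 (by decide) (by decide)
                                  have h273 : Tr (-1, 0, 1, 0) 8 := G.rotT h272 (by decide) (by decide)
                                  rcases G.acr (p := (-1, -1, 0, 0)) (k := 1) (m := 2) (Or.inl h196) (Or.inl h273) (by decide) (by decide) (by decide) (by decide) with h274 | h274
                                  · have h275 : Tr (-1, 0, 0, 0) 5 := G.rotT h274 (by decide) (by decide)
                                    have h276 : Tr (-1, -1, 0, 1) 9 := G.rotT h275 (by decide) (by decide)
                                    exact (G.cntT h192 h195 h197 h274 (by decide)).elim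
                                  · have h277 : Sq (-1, 0, 0, 0) 4 := G.rotS h274 (by decide) (by decide)
                                    have h278 : Sq (-2, 0, 1, 0) 7 := G.rotS h277 (by decide) (by decide)
                                    have h279 : Sq (-2, -1, 1, 0) 10 := G.rotS h278 (by decide) (by decide)
                                    rcases G.acr (p := (-1, -2, 0, 0)) (k := 1) (m := 4) (Or.inl h192) (Or.inr h279) (by decide) (by decide) (by decide) (by decide) with h280 | h280
                                    · have h281 : Tr (-1, -1, 0, 0) 5 := G.rotT h280 (by decide) (by decide)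
                                      have h282 : Tr (-1, -2, 0, 1) 9 := G.rotT h281 (by decide) (by decide)
                                      exact (G.cntT h192 h195 h197 h281 (by decide)).elim
                                    · have h283 : Sq (-1, -1, 0, 0) 4 := G.rotS h280 (by decide) (by decide)
                                      have h284 : Sq (-2, -1, 1, 0) 7 := G.rotS h283 (by decide) (by decide)
                                      have h285 : Sq (-2, -2, 1, 0) 10 := G.rotS h284 (by decide) (by decide)
                                      rcases G.acr (p := (0, 0, 0, 0)) (k := 1) (m := 4) (Or.inl h203) (Or.inl h273) (by decide) (by decide) (by decide) (by decide) with h286 | h286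
                                      · have h287 : Tr (0, 1, 0, 0) 5 := G.rotT h286 (by decide) (by decide)
                                        have h288 : Tr (0, 0, 0, 1) 9 := G.rotT h287 (by decide) (by decide)
                                        exact (G.cntT h202 h204 h272 h286 (by decide)).elim
                                      · have h289 : Sq (0, 1, 0, 0) 4 := G.rotS h286 (by decide) (by decide)
                                        have h290 : Sq (-1, 1, 1, 0) 7 := G.rotS h289 (by decide) (by decide)
                                        have h291 : Sq (-1, 0, 1, 0) 10 := G.rotS h290 (by decide) (by decide)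
                                        rcases G.acr (p := (0, 1, 0, 0)) (k := 0) (m := 4) (Or.inr h206) (Or.inr h290) (by decide) (by decide) (by decide) (by decide) with h292 | h292
                                        · have h293 : Tr (1, 1, 0, 0) 4 := G.rotT h292 (by decide) (by decide)
                                          have h294 : Tr (0, 1, 1, 0) 8 := G.rotT h293 (by decide) (by decide)
                                          rcases G.acr (p := (1, 1, 0, 0)) (k := 0) (m := 4) (Or.inr h209) (Or.inl h294) (by decide) (by decide) (by decide) (by decide) with h295 | h295
                                          · have h296 : Tr (2, 1, 0, 0) 4 := G.rotT h295 (by decide) (by decide)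
                                            have h297 : Tr (1, 1, 1, 0) 8 := G.rotT h296 (by decide) (by decide)
                                            rcases G.acr (p := (-1, 0, 0, 0)) (k := 2) (m := 4) (Or.inl h273) (Or.inr h278) (by decide) (by decide) (by decide) (by decide) with h298 | h298
                                            · have h299 : Tr (-1, 0, 1, 0) 6 := G.rotT h298 (by decide) (by decide)
                                              have h300 : Tr (-2, 0, 1, 0) 10 := G.rotT h299 (by decide) (by decide)
                                              rcases G.acr (p := (-1, 1, 1, 0)) (k := 10) (m := 0) (Or.inr h289) (Or.inl h294) (by decide) (by decide) (by decide) (by decide) with h301 | h301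
                                              · have h302 : Tr (0, 1, 0, 0) 2 := G.rotT h301 (by decide) (by decide)
                                                have h303 : Tr (0, 1, 1, 0) 6 := G.rotT h302 (by decide) (by decide)
                                                rcases G.acr (p := (0, 1, 1, 0)) (k := 10) (m := 0) (Or.inl h293) (Or.inl h297) (by decide) (by decide) (by decide) (by decide) with h304 | h304
                                                · have h305 : Tr (1, 1, 0, 0) 2 := G.rotT h304 (by decide) (by decide)
                                                  have h306 : Tr (1, 1, 1, 0) 6 := G.rotT h305 (by decide) (by decide)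
                                                  exact ⟨h280, h274, h271, h298, h286, h292, h302, h295, h305⟩
                                                · have h307 : Sq (1, 1, 0, 0) 1 := G.rotS h304 (by decide) (by decide)
                                                  have h308 : Sq (1, 2, 0, 0) 4 := G.rotS h307 (by decide) (by decide)
                                                  have h309 : Sq (0, 2, 1, 0) 7 := G.rotS h308 (by decide) (by decide)
                                                  exact (G.cntS h206 h210 h307 (by decide)).elim
                                              · have h310 : Sq (0, 1, 0, 0) 1 := G.rotS h301 (by decide) (by decide)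
                                                have h311 : Sq (0, 2, 0, 0) 4 := G.rotS h310 (by decide) (by decide)
                                                have h312 : Sq (-1, 2, 1, 0) 7 := G.rotS h311 (by decide) (by decide)
                                                exact (G.cntS h207 h289 h310 (by decide)).elim
                                            · have h313 : Sq (-1, 0, 1, 0) 5 := G.rotS h298 (by decide) (by decide)
                                              have h314 : Sq (-1, -1, 1, 1) 8 := G.rotS h313 (by decide) (by decide)
                                              have h315 : Sq (-1, -1, 0, 1) 11 := G.rotS h314 (by decide) (by decide)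
                                              exact (G.cntS h200 h277 h298 (by decide)).elim
                                          · have h316 : Sq (2, 1, 0, 0) 3 := G.rotS h295 (by decide) (by decide)
                                            have h317 : Sq (2, 1, 0, 1) 6 := G.rotS h316 (by decide) (by decide)
                                            have h318 : Sq (1, 1, 0, 1) 9 := G.rotS h317 (by decide) (by decide)
                                            exact (G.cntS h206 h210 h295 (by decide)).elim
                                        · have h319 : Sq (1, 1, 0, 0) 3 := G.rotS h292 (by decide) (by decide)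
                                          have h320 : Sq (1, 1, 0, 1) 6 := G.rotS h319 (by decide) (by decide)
                                          have h321 : Sq (0, 1, 0, 1) 9 := G.rotS h320 (by decide) (by decide)
                                          exact (G.cntS h206 h210 h319 (by decide)).elim
                                · have h322 : Sq (0, 0, 0, 0) 3 := G.rotS h271 (by decide) (by decide)
                                  have h323 : Sq (0, 0, 0, 1) 6 := G.rotS h322 (by decide) (by decide)
                                  have h324 : Sq (-1, 0, 0, 1) 9 := G.rotS h323 (by decide) (by decide)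
                                  rcases G.acr (p := (-1, -1, 0, 0)) (k := 1) (m := 3) (Or.inl h196) (Or.inr h324) (by decide) (by decide) (by decide) (by decide) with h325 | h325
                                  · have h326 : Tr (-1, 0, 0, 0) 5 := G.rotT h325 (by decide) (by decide)
                                    have h327 : Tr (-1, -1, 0, 1) 9 := G.rotT h326 (by decide) (by decide)
                                    exact (G.cntT h192 h195 h197 h325 (by decide)).elim
                                  · have h328 : Sq (-1, 0, 0, 0) 4 := G.rotS h325 (by decide) (by decide)
                                    have h329 : Sq (-2, 0, 1, 0) 7 := G.rotS h328 (by decide) (by decide)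
                                    have h330 : Sq (-2, -1, 1, 0) 10 := G.rotS h329 (by decide) (by decide)
                                    exact (G.cntS h200 h271 h328 (by decide)).elim
                              · have h331 : Sq (1, 0, -1, -2) 0 := G.rotS h268 (by decide) (by decide)
                                have h332 : Sq (2, 0, -1, -2) 3 := G.rotS h331 (by decide) (by decide)
                                have h333 : Sq (2, 0, -1, -1) 6 := G.rotS h332 (by decide) (by decide)
                                exact (G.cntS h233 h258 h268 (by decide)).elim
                          · have h334 : Sq (1, 0, -1, -1) 10 := G.rotS h259 (by decide) (by decide)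
                            have h335 : Sq (2, 0, -2, -1) 1 := G.rotS h334 (by decide) (by decide)
                            have h336 : Sq (2, 1, -2, -1) 4 := G.rotS h335 (by decide) (by decide)
                            exact (G.cntS h233 h258 h334 (by decide)).elim
                      · have h337 : Sq (0, -1, -1, -1) 8 := G.rotS h250 (by decide) (by decide)
                        have h338 : Sq (0, -1, -2, -1) 11 := G.rotS h337 (by decide) (by decide)
                        have h339 : Sq (0, 0, -2, -2) 2 := G.rotS h338 (by decide) (by decide)
                        exact (G.cntS h215 h222 h337 (by decide)).elim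
                    · have h340 : Sq (1, 1, -1, -1) 11 := G.rotS h247 (by decide) (by decide)
                      have h341 : Sq (1, 2, -1, -2) 2 := G.rotS h340 (by decide) (by decide)
                      have h342 : Sq (1, 2, 0, -2) 5 := G.rotS h341 (by decide) (by decide)
                      exact (G.cntS h205 k8 h247 (by decide)).elim
                  · have h343 : Sq (0, 0, -1, -1) 11 := G.rotS h244 (by decide) (by decide)
                    have h344 : Sq (0, 1, -1, -2) 2 := G.rotS h343 (by decide) (by decide)
                    have h345 : Sq (0, 1, 0, -2) 5 := G.rotS h344 (by decide) (by decide)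
                    exact (G.cntS h198 h232 h244 (by decide)).elim
                · have h346 : Sq (0, -2, -1, -1) 10 := G.rotS h241 (by decide) (by decide)
                  have h347 : Sq (1, -2, -2, -1) 1 := G.rotS h346 (by decide) (by decide)
                  have h348 : Sq (1, -1, -2, -1) 4 := G.rotS h347 (by decide) (by decide)
                  exact (G.cntS h215 h222 h241 (by decide)).elim
              · have h349 : Sq (0, -1, -1, -1) 10 := G.rotS h238 (by decide) (by decide)
                have h350 : Sq (1, -1, -2, -1) 1 := G.rotS h349 (by decide) (by decide)
                have h351 : Sq (1, 0, -2, -1) 4 := G.rotS h350 (by decide) (by decide)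
                exact (G.cntS h215 h222 h349 (by decide)).elim
            · have h352 : Sq (1, 1, 0, -1) 9 := G.rotS h235 (by decide) (by decide)
              have h353 : Sq (1, 1, 0, -2) 0 := G.rotS h352 (by decide) (by decide)
              have h354 : Sq (2, 1, 0, -2) 3 := G.rotS h353 (by decide) (by decide)
              exact (G.cntS h205 k8 h352 (by decide)).elim
        · have h355 : Sq (0, 1, 0, -1) 9 := G.rotS h226 (by decide) (by decide)
          have h356 : Sq (0, 1, 0, -2) 0 := G.rotS h355 (by decide) (by decide)
          have h357 : Sq (1, 1, 0, -2) 3 := G.rotS h356 (by decide) (by decide)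
          exact (G.cntS h205 k8 h226 (by decide)).elim
      · have h358 : Sq (-1, 0, 0, -1) 9 := G.rotS h223 (by decide) (by decide)
        have h359 : Sq (-1, 0, 0, -2) 0 := G.rotS h358 (by decide) (by decide)
        have h360 : Sq (0, 0, 0, -2) 3 := G.rotS h359 (by decide) (by decide)
        exact (G.cntS k4 h211 h358 (by decide)).elim

end Pool.Agent.P.MP_331808_co
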