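import Mathlib
import Pool.Agent.P.MP_331808_co.Defs

/-!
Normal forms of tiles and the local lemma: in a convex patch, an edge with a point of the
union strictly beyond it carries a tile on its other side.
-/

namespace Pool.Agent.P.MP_331808_co

open Complex

/-- The primitive sixth root of unity. -/
noncomputable def om : ℂ := ⟨1 / 2, √3 / 2⟩

theorem s3 : √3 * √3 = (3 : ℝ) := Real.mul_self_sqrt (by norm_num)

theorem om_sq : om * om = om - 1 := by
  apply Complex.ext <;> simp [om] <;> nlinarith [s3]

theorem normSq_om : normSq om = 1 := by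
  simp [om, normSq_apply]; nlinarith [s3]

theorem norm_om : ‖om‖ = 1 := by
  rw [Complex.norm_def, normSq_om, Real.sqrt_one]

theorem normSq_om_sub : normSq (om - 1) = 1 := by
  rw [← om_sq, map_mul, normSq_om, one_mul]

theorem norm_om_sub : ‖om - 1‖ = 1 := by
  rw [Complex.norm_def, normSq_om_sub, Real.sqrt_one]

/-- The triangle to the left of the directed edge from `p` to `p + u`. -/
noncomputable def tri (p u : ℂ) : Set ℂ := convexHull ℝ {p, p + u, p + om * u}

/-- The square to the left of the directed edge from `p` to `p + u`. -/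
noncomputable def sq (p u : ℂ) : Set ℂ := convexHull ℝ {p, p + u, p + u + I * u, p + I * u}

theorem normSq_of_norm {u : ℂ} (hu : ‖u‖ = 1) : normSq u = 1 := by
  rw [Complex.normSq_eq_norm_sq, hu]; norm_num

theorem ext_cosph (S : Set ℂ) (o : ℂ) (R : ℝ) (hR : 0 < R) (h : ∀ x ∈ S, normSq (x - o) = R) :
    Set.extremePoints ℝ (convexHull ℝ S) = S := by
  apply Set.Subset.antisymm extremePoints_convexHull_subset
  have hs : S ⊆ Metric.sphere o √R := by
    intro x hx
    rw [mem_sphere_iff_norm, Complex.norm_def, h x hx]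
  have hsub : convexHull ℝ S ⊆ Metric.closedBall o √R :=
    convexHull_min (hs.trans Metric.sphere_subset_closedBall) (convex_closedBall _ _)
  intro x hx
  exact inter_extremePoints_subset_extremePoints_of_subset hsub
    ⟨subset_convexHull ℝ S hx, StrictConvexSpace.sphere_subset_extremePoints_closedBall o
      (Real.sqrt_pos.mpr hR).ne' (hs hx)⟩

theorem vert_tri {p u : ℂ} (hu : ‖u‖ = 1) (v : ℂ) :
    IsVertex (tri p u) v ↔ v = p ∨ v = p + u ∨ v = p + om * u := by
  have h1 := normSq_of_norm hu
  unfold IsVertex tri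
  rw [ext_cosph _ (p + (1 + om) / 3 * u) (1 / 3) (by norm_num)]
  · simp
  intro x hx
  simp only [Set.mem_insert_iff, Set.mem_singleton_iff] at hx
  rcases hx with rfl | rfl | rfl
  · have : x - (x + (1 + om) / 3 * u) = (-(1 + om) / 3) * u := by ring
    rw [this, map_mul, h1]
    simp [om, normSq_apply]; nlinarith [s3]
  · have : p + u - (p + (1 + om) / 3 * u) = ((2 - om) / 3) * u := by ring
    rw [this, map_mul, h1]
    simp [om, normSq_apply]; nlinarith [s3]
  · have : p + om * u - (p + (1 + om) / 3 * u) = ((2 * om - 1) / 3) * u := by ring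
    rw [this, map_mul, h1]
    simp [om, normSq_apply]; nlinarith [s3]

theorem vert_sq {p u : ℂ} (hu : ‖u‖ = 1) (v : ℂ) :
    IsVertex (sq p u) v ↔ v = p ∨ v = p + u ∨ v = p + u + I * u ∨ v = p + I * u := by
  have h1 := normSq_of_norm hu
  unfold IsVertex sq
  rw [ext_cosph _ (p + (1 + I) / 2 * u) (1 / 2) (by norm_num)]
  · simp
  intro x hx
  simp only [Set.mem_insert_iff, Set.mem_singleton_iff] at hx
  rcases hx with rfl | rfl | rfl | rfl
  · have : x - (x + (1 + I) / 2 * u) = (-(1 + I) / 2) * u := by ring
    rw [this, map_mul, h1]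
    simp [normSq_apply]; norm_num
  · have : p + u - (p + (1 + I) / 2 * u) = ((1 - I) / 2) * u := by ring
    rw [this, map_mul, h1]
    simp [normSq_apply]; norm_num
  · have : p + u + I * u - (p + (1 + I) / 2 * u) = ((1 + I) / 2) * u := by ring
    rw [this, map_mul, h1]
    simp [normSq_apply]; norm_num
  · have : p + I * u - (p + (1 + I) / 2 * u) = ((I - 1) / 2) * u := by ring
    rw [this, map_mul, h1]
    simp [normSq_apply]; norm_num

theorem tri_rot (p u : ℂ) : tri p u = tri (p + u) ((om - 1) * u) := by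
  unfold tri
  have e1 : p + u + (om - 1) * u = p + om * u := by ring
  have e2 : p + u + om * ((om - 1) * u) = p := by
    have : om * ((om - 1) * u) = (om * om - om) * u := by ring
    rw [this, om_sq]; ring
  rw [e1, e2]
  congr 1
  ext z
  simp only [Set.mem_insert_iff, Set.mem_singleton_iff]
  tauto

theorem sq_rot (p u : ℂ) : sq p u = sq (p + u) (I * u) := by
  unfold sq
  have e1 : p + u + I * u + I * (I * u) = p + I * u := by
    have : I * (I * u) = (I * I) * u := by ring
    rw [this, I_mul_I]; ring
  have e2 : p + u + I * (I * u) = p := by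
    have : I * (I * u) = (I * I) * u := by ring
    rw [this, I_mul_I]; ring
  rw [e1, e2]
  congr 1
  ext z
  simp only [Set.mem_insert_iff, Set.mem_singleton_iff]
  tauto

theorem isTriangle_tri {p u : ℂ} (hu : ‖u‖ = 1) : IsTriangle (tri p u) := by
  refine ⟨p, p + u, p + om * u, by simp [hu], ?_, by simp [hu, norm_om], rfl⟩
  rw [dist_comm, dist_eq_norm]
  have : p + om * u - (p + u) = (om - 1) * u := by ring
  rw [this, norm_mul, norm_om_sub, hu, one_mul]

theorem isSquare_sq {p u : ℂ} (hu : ‖u‖ = 1) : IsSquare (sq p u) := ⟨p, u, hu, rfl⟩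

theorem third_vertex {w : ℂ} (h1 : normSq w = 1) (h2 : normSq (w - 1) = 1) :
    w = om ∨ w = 1 - om := by
  simp only [normSq_apply, sub_re, one_re, sub_im, one_im, sub_zero] at h1 h2
  have hre : w.re = 1 / 2 := by nlinarith
  have him : (w.im - √3 / 2) * (w.im + √3 / 2) = 0 := by
    rw [hre] at h1; nlinarith [s3]
  rcases mul_eq_zero.mp him with h | h
  · left; apply Complex.ext <;> simp [om] <;> linarith
  · right; apply Complex.ext <;> simp [om] <;> linarith

theorem IsTriangle.normal {T : Set ℂ} (h : IsTriangle T) : ∃ p u, ‖u‖ = 1 ∧ T = tri p u := by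
  obtain ⟨a, b, c, hab, hbc, hca, rfl⟩ := h
  have hu : ‖b - a‖ = 1 := by rwa [dist_comm, dist_eq_norm] at hab
  have hu0 : b - a ≠ 0 := by intro h0; rw [h0] at hu; simp at hu
  have h1 : normSq ((c - a) / (b - a)) = 1 := by
    apply normSq_of_norm
    rw [norm_div, hu, div_one, ← dist_eq_norm, hca]
  have h2 : normSq ((c - a) / (b - a) - 1) = 1 := by
    apply normSq_of_norm
    have : (c - a) / (b - a) - 1 = (c - b) / (b - a) := by field_simp; ring
    rw [this, norm_div, hu, div_one, ← dist_eq_norm, dist_comm, hbc]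
  rcases third_vertex h1 h2 with h | h
  · refine ⟨a, b - a, hu, ?_⟩
    unfold tri
    rw [← h, div_mul_cancel₀ _ hu0]
    simp
  · refine ⟨b, a - b, by rw [norm_sub_rev, hu], ?_⟩
    unfold tri
    have hc : b + om * (a - b) = c := by
      have : c - a = (1 - om) * (b - a) := by rw [← h, div_mul_cancel₀ _ hu0]
      linear_combination -this
    rw [hc]
    congr 1
    ext z
    simp only [Set.mem_insert_iff, Set.mem_singleton_iff, add_sub_cancel]
    tauto

theorem tri_of_vertices {p u v w : ℂ} (hu : ‖u‖ = 1) (hv : IsVertex (tri p u) v)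
    (hw : IsVertex (tri p u) w) (hvw : v ≠ w) :
    tri p u = tri v (w - v) ∨ tri p u = tri w (v - w) := by
  have r1 : tri p u = tri (p + u) (p + om * u - (p + u)) := by
    rw [tri_rot p u]; congr 1; ring
  have r2 : tri p u = tri (p + om * u) (p - (p + om * u)) := by
    rw [tri_rot p u, tri_rot (p + u)]
    congr 1
    · ring
    · linear_combination u * om_sq
  have r0 : tri p u = tri p (p + u - p) := by congr 1; ring
  rw [vert_tri hu] at hv hw
  rcases hv with rfl | rfl | rfl <;> rcases hw with rfl | rfl | rfl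
  all_goals first
    | exact absurd rfl hvw
    | exact Or.inl r0
    | exact Or.inr r0
    | exact Or.inl r1
    | exact Or.inr r1
    | exact Or.inl r2
    | exact Or.inr r2

theorem sq_of_vertices {p u v w : ℂ} (hu : ‖u‖ = 1) (hv : IsVertex (sq p u) v)
    (hw : IsVertex (sq p u) w) (hvw : dist v w = 1) :
    sq p u = sq v (w - v) ∨ sq p u = sq w (v - w) := by
  have hII : I * I = -1 := I_mul_I
  have r0 : sq p u = sq p (p + u - p) := by congr 1; ring
  have r1 : sq p u = sq (p + u) (p + u + I * u - (p + u)) := by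
    rw [sq_rot p u]; congr 1; ring
  have r2 : sq p u = sq (p + u + I * u) (p + I * u - (p + u + I * u)) := by
    rw [sq_rot p u, sq_rot (p + u)]
    congr 1
    linear_combination u * hII
  have r3 : sq p u = sq (p + I * u) (p - (p + I * u)) := by
    rw [sq_rot p u, sq_rot (p + u), sq_rot (p + u + I * u)]
    congr 1
    · linear_combination u * hII
    · linear_combination I * u * hII
  have h1 := normSq_of_norm hu
  have hd : normSq (v - w) = 1 := normSq_of_norm (by rwa [← dist_eq_norm])
  have d1 : normSq (p - (p + u + I * u)) ≠ 1 := by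
    have : p - (p + u + I * u) = (-1 - I) * u := by ring
    rw [this, map_mul, h1]; simp [normSq_apply]
  have d2 : normSq (p + u + I * u - p) ≠ 1 := by
    have : p + u + I * u - p = (1 + I) * u := by ring
    rw [this, map_mul, h1]; simp [normSq_apply]
  have d3 : normSq (p + u - (p + I * u)) ≠ 1 := by
    have : p + u - (p + I * u) = (1 - I) * u := by ring
    rw [this, map_mul, h1]; simp [normSq_apply]
  have d4 : normSq (p + I * u - (p + u)) ≠ 1 := by
    have : p + I * u - (p + u) = (I - 1) * u := by ring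
    rw [this, map_mul, h1]; simp [normSq_apply]
  have d0 : v ≠ w := by rintro rfl; simp at hvw
  rw [vert_sq hu] at hv hw
  rcases hv with rfl | rfl | rfl | rfl <;> rcases hw with rfl | rfl | rfl | rfl
  all_goals first
    | exact absurd rfl d0
    | exact absurd hd d1
    | exact absurd hd d2
    | exact absurd hd d3
    | exact absurd hd d4
    | exact Or.inl r0
    | exact Or.inr r0
    | exact Or.inl r1
    | exact Or.inr r1
    | exact Or.inl r2
    | exact Or.inr r2
    | exact Or.inl r3
    | exact Or.inr r3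

/-- Signed distance to the left of the directed line through `p` with direction `u`. -/
noncomputable def side (p u z : ℂ) : ℝ := ((z - p) * (starRingEnd ℂ) u).im

theorem side_add (p u c : ℂ) (hu : ‖u‖ = 1) : side p u (p + c * u) = c.im := by
  unfold side
  rw [add_sub_cancel_left, mul_assoc, mul_conj, normSq_of_norm hu]
  simp

theorem side_rev (p u z : ℂ) : side (p + u) (-u) z = - side p u z := by
  unfold side
  simp only [map_neg, mul_neg, neg_im, mul_im, sub_re, add_re, conj_im, sub_im, add_im, conj_re]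
  ring

theorem side_combo (p u x y : ℂ) (a b : ℝ) (hab : a + b = 1) :
    side p u (a • x + b • y) = a * side p u x + b * side p u y := by
  unfold side
  simp only [mul_im, sub_re, add_re, conj_im, sub_im, add_im, conj_re, real_smul, mul_re,
    ofReal_re, ofReal_im]
  have : b = 1 - a := by linarith
  subst this
  ring

theorem convex_side (p u : ℂ) : Convex ℝ {z | 0 ≤ side p u z} := by
  intro x hx y hy a b ha hb hab
  simp only [Set.mem_setOf_eq] at *
  rw [side_combo p u x y a b hab]
  positivity

theorem tri_side {p u : ℂ} (hu : ‖u‖ = 1) : ∀ z ∈ tri p u, 0 ≤ side p u z := by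
  apply convexHull_min _ (convex_side p u)
  intro z hz
  simp only [Set.mem_insert_iff, Set.mem_singleton_iff] at hz
  simp only [Set.mem_setOf_eq]
  rcases hz with rfl | rfl | rfl
  · simp [side]
  · have := side_add p u 1 hu
    rw [one_mul] at this; rw [this]; simp
  · rw [side_add p u om hu]; simp only [om]; positivity

theorem sq_side {p u : ℂ} (hu : ‖u‖ = 1) : ∀ z ∈ sq p u, 0 ≤ side p u z := by
  apply convexHull_min _ (convex_side p u)
  intro z hz
  simp only [Set.mem_insert_iff, Set.mem_singleton_iff] at hz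
  simp only [Set.mem_setOf_eq]
  rcases hz with rfl | rfl | rfl | rfl
  · simp [side]
  · have := side_add p u 1 hu
    rw [one_mul] at this; rw [this]; simp
  · have := side_add p u (1 + I) hu
    rw [add_mul, one_mul, ← add_assoc] at this; rw [this]; simp
  · rw [side_add p u I hu]; simp

theorem isCompact_tile {T : Set ℂ} (h : IsTriangle T ∨ IsSquare T) : IsCompact T := by
  rcases h with ⟨a, b, c, -, -, -, rfl⟩ | ⟨a, u, -, rfl⟩ <;>
    exact Set.Finite.isCompact_convexHull ℝ (Set.toFinite _)

theorem convex_tile {T : Set ℂ} (h : IsTriangle T ∨ IsSquare T) : Convex ℝ T := by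
  rcases h with ⟨a, b, c, -, -, -, rfl⟩ | ⟨a, u, -, rfl⟩ <;> exact convex_convexHull _ _

/-- An extreme point on the line through two points of the set is not strictly between them. -/
theorem not_between {T : Set ℂ} {p u : ℂ} (hu : ‖u‖ = 1) (hp : p ∈ T) (hq : p + u ∈ T) {α : ℝ}
    (hv : IsVertex T (p + α * u)) : α ≤ 0 ∨ 1 ≤ α := by
  by_contra hcon
  push Not at hcon
  have hmem : p + α * u ∈ openSegment ℝ p (p + u) := by
    refine ⟨1 - α, α, by linarith, hcon.1, by ring, ?_⟩
    simp only [real_smul]
    push_cast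
    ring
  have := (mem_extremePoints_iff_left.mp hv).2 p hp (p + u) hq hmem
  have h0 : (α : ℂ) * u = 0 := by linear_combination -this
  have hu0 : u ≠ 0 := by intro h; rw [h] at hu; simp at hu
  have : α = 0 := by simpa [hu0] using h0
  linarith [hcon.1]

theorem on_line {p u z : ℂ} (hu : ‖u‖ = 1) (h : side p u z = 0) : ∃ α : ℝ, z = p + α * u := by
  refine ⟨((z - p) * (starRingEnd ℂ) u).re, ?_⟩
  have h1 : ((((z - p) * (starRingEnd ℂ) u).re : ℝ) : ℂ) = (z - p) * (starRingEnd ℂ) u := by
    apply Complex.ext
    · simp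
    · rw [ofReal_im]; exact h.symm
  rw [h1, mul_assoc, mul_comm ((starRingEnd ℂ) u) u, mul_conj, normSq_of_norm hu]
  simp

/-- An edge of `T` through the midpoint of `p`, `p + u` is the segment from `p` to `p + u`,
when `T` contains both points and lies on one side of the line. -/
theorem edge_ends {T : Set ℂ} {p u v w : ℂ} (hu : ‖u‖ = 1) (hp : p ∈ T) (hq : p + u ∈ T)
    (hT : ∀ z ∈ T, side p u z ≤ 0) (hv : IsVertex T v) (hw : IsVertex T w) (hvw : dist v w = 1)
    (hm : p + ((1 / 2 : ℝ) : ℂ) * u ∈ segment ℝ v w) :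
    (v = p ∧ w = p + u) ∨ (v = p + u ∧ w = p) := by
  obtain ⟨a, b, ha, hb, hab, hm⟩ := hm
  have hnot : ¬ IsVertex T (p + ((1 / 2 : ℝ) : ℂ) * u) := by
    intro h
    rcases not_between hu hp hq h with h | h <;> norm_num at h
  have ha0 : 0 < a := by
    rcases ha.eq_or_lt with h | h
    · subst h
      have : b = 1 := by linarith
      subst this
      simp only [zero_smul, one_smul, zero_add] at hm
      exact absurd (hm ▸ hw) hnot
    · exact h
  have hb0 : 0 < b := by
    rcases hb.eq_or_lt with h | h
    · subst h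
      have : a = 1 := by linarith
      subst this
      simp only [zero_smul, one_smul, add_zero] at hm
      exact absurd (hm ▸ hv) hnot
    · exact h
  have h0 : a * side p u v + b * side p u w = 0 := by
    rw [← side_combo p u v w a b hab, hm, side_add p u _ hu]; simp
  have sv := hT v hv.1
  have sw := hT w hw.1
  have sv0 : side p u v = 0 := by nlinarith
  have sw0 : side p u w = 0 := by nlinarith
  obtain ⟨α, rfl⟩ := on_line hu sv0
  obtain ⟨β, rfl⟩ := on_line hu sw0
  have hu0 : u ≠ 0 := by intro h; rw [h] at hu; simp at hu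
  have hd : |α - β| = 1 := by
    rw [dist_eq_norm] at hvw
    have : p + α * u - (p + β * u) = ((α - β : ℝ) : ℂ) * u := by push_cast; ring
    rwa [this, norm_mul, hu, mul_one, Complex.norm_real, Real.norm_eq_abs] at hvw
  have hmid : a * α + b * β = 1 / 2 := by
    have hb' : b = 1 - a := by linarith
    subst hb'
    simp only [real_smul] at hm
    have : ((a * α + (1 - a) * β - 1 / 2 : ℝ) : ℂ) * u = 0 := by
      push_cast at hm ⊢
      linear_combination hm
    have h2 : (a * α + (1 - a) * β - 1 / 2 : ℝ) = 0 := by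
      rcases mul_eq_zero.mp this with h | h
      · exact_mod_cast h
      · exact absurd h hu0
    linarith
  have h1 := not_between hu hp hq hv
  have h2 := not_between hu hp hq hw
  have key : (α = 0 ∧ β = 1) ∨ (α = 1 ∧ β = 0) := by
    rcases h1 with h1 | h1 <;> rcases h2 with h2 | h2
    · nlinarith
    · left
      rw [abs_of_nonpos (by linarith)] at hd
      constructor <;> linarith
    · right
      rw [abs_of_nonneg (by linarith)] at hd
      constructor <;> linarith
    · nlinarith
  rcases key with ⟨rfl, rfl⟩ | ⟨rfl, rfl⟩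
  · left; simp
  · right; simp

theorem across {B : Set (Set ℂ)} (hfin : B.Finite) (hE : EdgeToEdge B) (hc : Convex ℝ (⋃₀ B))
    {p u q : ℂ} (hu : ‖u‖ = 1) (hbelow : tri (p + u) (-u) ∈ B ∨ sq (p + u) (-u) ∈ B)
    (hq : q ∈ ⋃₀ B) (hside : 0 < side p u q) : tri p u ∈ B ∨ sq p u ∈ B := by
  have hu' : ‖-u‖ = 1 := by rw [norm_neg, hu]
  obtain ⟨T, hTB, hp, hpu, hT⟩ : ∃ T ∈ B, p ∈ T ∧ p + u ∈ T ∧ ∀ z ∈ T, side p u z ≤ 0 := by
    rcases hbelow with h | h
    · refine ⟨_, h, subset_convexHull ℝ _ (by simp), subset_convexHull ℝ _ (by simp), ?_⟩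
      intro z hz
      have := tri_side hu' z hz
      rw [side_rev] at this; linarith
    · refine ⟨_, h, subset_convexHull ℝ _ (by simp), subset_convexHull ℝ _ (by simp), ?_⟩
      intro z hz
      have := sq_side hu' z hz
      rw [side_rev] at this; linarith
  set m : ℂ := p + ((1 / 2 : ℝ) : ℂ) * u with hm
  have hm0 : side p u m = 0 := by rw [hm, side_add p u _ hu]; simp
  have hmT : m ∈ T := by
    have := convex_tile (hE.1 T hTB) hp hpu (a := 1 / 2) (b := 1 / 2) (by norm_num) (by norm_num)
      (by norm_num)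
    convert this using 1
    simp only [hm, real_smul]
    push_cast
    ring
  let B' : Set (Set ℂ) := {T' ∈ B | ∃ z ∈ T', 0 < side p u z}
  have hcl : IsClosed (⋃₀ B') := by
    rw [Set.sUnion_eq_biUnion]
    exact (hfin.subset (Set.sep_subset _ _)).isClosed_biUnion
      fun T' hT' => (isCompact_tile (hE.1 T' hT'.1)).isClosed
  have hopen : openSegment ℝ m q ⊆ ⋃₀ B' := by
    rintro z ⟨a, b, ha, hb, hab, rfl⟩
    obtain ⟨T', hT', hz⟩ := hc ⟨T, hTB, hmT⟩ hq ha.le hb.le hab
    refine ⟨T', ⟨hT', _, hz, ?_⟩, hz⟩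
    rw [side_combo p u m q a b hab, hm0]
    nlinarith
  have hmB' : m ∈ ⋃₀ B' := by
    have := segment_subset_closure_openSegment (left_mem_segment ℝ m q)
    exact hcl.closure_subset_iff.mpr hopen this
  obtain ⟨T', ⟨hT'B, z, hzT', hz⟩, hmT'⟩ := hmB'
  have hne : T ≠ T' := by
    rintro rfl
    linarith [hT z hzT']
  have hmI : m ∈ T ∩ T' := ⟨hmT, hmT'⟩
  rcases (hE.2 T hTB T' hT'B hne).2 with h | ⟨v, hv, -, h⟩ | ⟨⟨v, w, hv, hw, hvw, h⟩, h'⟩
  · rw [h] at hmI; exact absurd hmI (Set.notMem_empty _)
  · rw [h] at hmI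
    have : m = v := hmI
    rw [← this] at hv
    rcases not_between hu hp hpu hv with h | h <;> norm_num at h
  obtain ⟨v', w', hv', hw', hvw', h'⟩ := h'
  have hseg : T ∩ T' = segment ℝ p (p + u) := by
    rcases edge_ends hu hp hpu hT hv hw hvw (h ▸ hmI) with ⟨rfl, rfl⟩ | ⟨rfl, rfl⟩
    · exact h
    · rw [h, segment_symm]
  have hsub : T ∩ T' ⊆ T' := Set.inter_subset_right
  have hvI : ∀ x, IsVertex T' x → x ∈ T ∩ T' → IsVertex (T ∩ T') x := fun x hx hxI =>
    inter_extremePoints_subset_extremePoints_of_subset hsub ⟨hxI, hx⟩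
  have hends := edge_ends (T := T ∩ T') hu (hseg ▸ left_mem_segment ℝ _ _)
    (hseg ▸ right_mem_segment ℝ _ _) (fun z hz => hT z hz.1)
    (hvI v' hv' (h' ▸ left_mem_segment ℝ _ _)) (hvI w' hw' (h' ▸ right_mem_segment ℝ _ _)) hvw'
    (h' ▸ hmI)
  have hvp : IsVertex T' p ∧ IsVertex T' (p + u) := by
    rcases hends with ⟨rfl, rfl⟩ | ⟨rfl, rfl⟩
    · exact ⟨hv', hw'⟩
    · exact ⟨hw', hv'⟩
  have hd : dist p (p + u) = 1 := by simp [hu]
  have e1 : p + u - p = u := by ring
  have e2 : p - (p + u) = -u := by ring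
  rcases hE.1 T' hT'B with ht | ht
  · obtain ⟨p', u', hu1, rfl⟩ := ht.normal
    rcases tri_of_vertices hu1 hvp.1 hvp.2 (by intro h0; rw [← h0] at hd; simp at hd) with h1 | h1
    · left; rwa [h1, e1] at hT'B
    · rw [h1, e2] at hzT'
      have := tri_side hu' z hzT'
      rw [side_rev] at this; linarith
  · obtain ⟨p', u', hu1, rfl⟩ := ht
    rcases sq_of_vertices hu1 hvp.1 hvp.2 hd with h1 | h1
    · right
      have h2 : sq p' u' ∈ B := hT'B
      rwa [h1, e1] at h2
    · have h2 : z ∈ sq p' u' := hzT'
      rw [h1, e2] at h2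
      have := sq_side hu' z h2
      rw [side_rev] at this; linarith

theorem tri_inj {p u u' : ℂ} (hu : ‖u‖ = 1) (hu' : ‖u'‖ = 1) (h : tri p u = tri p u') : u = u' := by
  have hu0 : u ≠ 0 := by intro h; rw [h] at hu; simp at hu
  have hu0' : u' ≠ 0 := by intro h; rw [h] at hu'; simp at hu'
  have h1 : IsVertex (tri p u') (p + u) := h ▸ (vert_tri hu _).mpr (by simp)
  have h2 : IsVertex (tri p u') (p + om * u) := h ▸ (vert_tri hu _).mpr (by simp)
  rw [vert_tri hu'] at h1 h2
  have hom0 : om ≠ 0 := by intro h; have := norm_om; rw [h] at this; simp at this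
  have hom1 : om - 1 ≠ 0 := by intro h; have := norm_om_sub; rw [h] at this; simp at this
  have hom2 : om - 2 ≠ 0 := by
    intro h
    have := congrArg Complex.re h
    simp [om] at this
    norm_num at this
  rcases h1 with h1 | h1 | h1
  · exact absurd (by linear_combination h1) hu0
  · linear_combination h1
  · have e : u = om * u' := by linear_combination h1
    subst e
    rcases h2 with h2 | h2 | h2
    · have : om * (om * u') = 0 := by linear_combination h2
      simp [hom0, hu0'] at this
    · have : (om - 2) * u' = 0 := by linear_combination h2 - u' * om_sq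
      simp [hom2, hu0'] at this
    · have : u' = 0 := by linear_combination -h2 + u' * om_sq
      exact absurd this hu0'

theorem sq_inj {p u u' : ℂ} (hu : ‖u‖ = 1) (hu' : ‖u'‖ = 1) (h : sq p u = sq p u') : u = u' := by
  have hu0 : u ≠ 0 := by intro h; rw [h] at hu; simp at hu
  have hu0' : u' ≠ 0 := by intro h; rw [h] at hu'; simp at hu'
  have h1 : IsVertex (sq p u') (p + u) := h ▸ (vert_sq hu _).mpr (by simp)
  have h2 : IsVertex (sq p u') (p + I * u) := h ▸ (vert_sq hu _).mpr (by simp)
  rw [vert_sq hu'] at h1 h2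
  have hII : I * I = -1 := I_mul_I
  have n1 := normSq_of_norm hu
  have n2 := normSq_of_norm hu'
  rcases h1 with h1 | h1 | h1 | h1
  · exact absurd (by linear_combination h1) hu0
  · linear_combination h1
  · have e : u = (1 + I) * u' := by linear_combination h1
    rw [e, map_mul, n2] at n1
    simp [normSq_apply] at n1
  · have e : u = I * u' := by linear_combination h1
    subst e
    rcases h2 with h2 | h2 | h2 | h2
    · have : u' = 0 := by linear_combination -h2 + u' * hII
      exact absurd this hu0'
    · have : u' = 0 := by linear_combination (-1 / 2 : ℂ) * h2 + (1 / 2 : ℂ) * u' * hII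
      exact absurd this hu0'
    · have : (2 + I) * u' = 0 := by linear_combination -h2 + u' * hII
      rcases mul_eq_zero.mp this with h | h
      · have := congrArg Complex.re h
        simp at this
      · exact absurd h hu0'
    · have : (1 + I) * u' = 0 := by linear_combination -h2 + u' * hII
      rcases mul_eq_zero.mp this with h | h
      · have := congrArg Complex.re h
        simp at this
      · exact absurd h hu0'

theorem counts_le {B : Set (Set ℂ)} (hB : IsPatch B) {v : ℂ} (hv : ∃ T ∈ B, IsVertex T v) :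
    triAt B v ≤ 3 ∧ sqAt B v ≤ 2 := by
  have h := hB.2.2.2 v hv
  by_cases hi : v ∈ interior (⋃₀ B)
  · exact ⟨(h.1 hi).1.le, (h.1 hi).2.le⟩
  · obtain ⟨T, hT, hvT⟩ := hv
    exact h.2 ⟨subset_closure ⟨T, hT, hvT.1⟩, hi⟩

end Pool.Agent.P.MP_331808_co
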