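import Mathlib

/-!
The square grid with some cells cut along a diagonal: how two pieces meet.
-/

namespace Pool.Agent.P.MP_331808_co

/-- Kinds of pieces of a unit cell: whole cell, or one of four half cells. -/
inductive Kind | S | LL | UR | LR | UL
  deriving DecidableEq

instance : Fintype Kind := ⟨{.S, .LL, .UR, .LR, .UL}, by intro x; cases x <;> decide⟩

/-- The diagonal constraint of a piece. -/
def cut : Kind → ℝ → ℝ → Prop
  | .S, _, _ => (0 : ℝ) ≤ 0
  | .LL, x, y => x + y ≤ 1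
  | .UR, x, y => 1 ≤ x + y
  | .LR, x, y => y ≤ x
  | .UL, x, y => x ≤ y

/-- The piece, in coordinates relative to its cell. -/
def rel (k : Kind) (x y : ℝ) : Prop := 0 ≤ x ∧ x ≤ 1 ∧ 0 ≤ y ∧ y ≤ 1 ∧ cut k x y

/-- Corners of a piece. -/
def verts : Kind → List (ℤ × ℤ)
  | .S => [(0, 0), (1, 0), (1, 1), (0, 1)]
  | .LL => [(0, 0), (1, 0), (0, 1)]
  | .UR => [(1, 0), (1, 1), (0, 1)]
  | .LR => [(0, 0), (1, 0), (1, 1)]
  | .UL => [(0, 0), (1, 1), (0, 1)]

/-- Sides of a piece. -/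
def edges : Kind → List ((ℤ × ℤ) × (ℤ × ℤ))
  | .S => [((0, 0), (1, 0)), ((1, 0), (1, 1)), ((1, 1), (0, 1)), ((0, 1), (0, 0))]
  | .LL => [((0, 0), (1, 0)), ((1, 0), (0, 1)), ((0, 1), (0, 0))]
  | .UR => [((1, 0), (1, 1)), ((1, 1), (0, 1)), ((0, 1), (1, 0))]
  | .LR => [((0, 0), (1, 0)), ((1, 0), (1, 1)), ((1, 1), (0, 0))]
  | .UL => [((0, 0), (1, 1)), ((1, 1), (0, 1)), ((0, 1), (0, 0))]

/-- Which pieces occur in a cell with given horizontal and vertical letters. -/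
def valid : Kind → Bool → Bool → Bool
  | .S, s, t => s != t
  | .LL, s, t => s && t
  | .UR, s, t => s && t
  | .LR, s, t => !s && !t
  | .UL, s, t => !s && !t

/-- The three ways in which two pieces can meet. -/
def Meets (k k' : Kind) (di dj : ℤ) : Prop :=
  (∀ x y : ℝ, ¬ (rel k x y ∧ rel k' (x - di) (y - dj))) ∨
  (∃ a ∈ verts k, (a.1 - di, a.2 - dj) ∈ verts k' ∧
    ∀ x y : ℝ, (rel k x y ∧ rel k' (x - di) (y - dj)) ↔ (x = a.1 ∧ y = a.2)) ∨
  (∃ e ∈ edges k, (e.1.1 - di, e.1.2 - dj) ∈ verts k' ∧ (e.2.1 - di, e.2.2 - dj) ∈ verts k' ∧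
    ∀ x y : ℝ, (rel k x y ∧ rel k' (x - di) (y - dj)) ↔
      ∃ t : ℝ, 0 ≤ t ∧ t ≤ 1 ∧ x = e.1.1 + t * (e.2.1 - e.1.1) ∧ y = e.1.2 + t * (e.2.2 - e.1.2))

theorem meets_S_S_mm : Meets .S .S (-1) (-1) := by
  right; left
  refine ⟨(0, 0), by decide, by decide, fun x y => ?_⟩
  simp only [rel, cut]
  push_cast
  constructor
  · rintro ⟨⟨a1, a2, a3, a4, a5⟩, b1, b2, b3, b4, b5⟩
    constructor <;> linarith
  · rintro ⟨rfl, rfl⟩
    norm_num

theorem meets_S_LL_mm : Meets .S .LL (-1) (-1) := by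
  left
  intro x y h
  simp only [rel, cut] at h
  push_cast at h
  obtain ⟨⟨a1, a2, a3, a4, a5⟩, b1, b2, b3, b4, b5⟩ := h
  linarith

theorem meets_S_UR_mm : Meets .S .UR (-1) (-1) := by
  right; left
  refine ⟨(0, 0), by decide, by decide, fun x y => ?_⟩
  simp only [rel, cut]
  push_cast
  constructor
  · rintro ⟨⟨a1, a2, a3, a4, a5⟩, b1, b2, b3, b4, b5⟩
    constructor <;> linarith
  · rintro ⟨rfl, rfl⟩
    norm_num

theorem meets_S_LR_mm : Meets .S .LR (-1) (-1) := by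
  right; left
  refine ⟨(0, 0), by decide, by decide, fun x y => ?_⟩
  simp only [rel, cut]
  push_cast
  constructor
  · rintro ⟨⟨a1, a2, a3, a4, a5⟩, b1, b2, b3, b4, b5⟩
    constructor <;> linarith
  · rintro ⟨rfl, rfl⟩
    norm_num

theorem meets_S_UL_mm : Meets .S .UL (-1) (-1) := by
  right; left
  refine ⟨(0, 0), by decide, by decide, fun x y => ?_⟩
  simp only [rel, cut]
  push_cast
  constructor
  · rintro ⟨⟨a1, a2, a3, a4, a5⟩, b1, b2, b3, b4, b5⟩
    constructor <;> linarith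
  · rintro ⟨rfl, rfl⟩
    norm_num

theorem meets_LL_S_mm : Meets .LL .S (-1) (-1) := by
  right; left
  refine ⟨(0, 0), by decide, by decide, fun x y => ?_⟩
  simp only [rel, cut]
  push_cast
  constructor
  · rintro ⟨⟨a1, a2, a3, a4, a5⟩, b1, b2, b3, b4, b5⟩
    constructor <;> linarith
  · rintro ⟨rfl, rfl⟩
    norm_num

theorem meets_LL_LL_mm : Meets .LL .LL (-1) (-1) := by
  left
  intro x y h
  simp only [rel, cut] at h
  push_cast at h
  obtain ⟨⟨a1, a2, a3, a4, a5⟩, b1, b2, b3, b4, b5⟩ := h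
  linarith

theorem meets_LL_UR_mm : Meets .LL .UR (-1) (-1) := by
  right; left
  refine ⟨(0, 0), by decide, by decide, fun x y => ?_⟩
  simp only [rel, cut]
  push_cast
  constructor
  · rintro ⟨⟨a1, a2, a3, a4, a5⟩, b1, b2, b3, b4, b5⟩
    constructor <;> linarith
  · rintro ⟨rfl, rfl⟩
    norm_num

theorem meets_LL_LR_mm : Meets .LL .LR (-1) (-1) := by
  right; left
  refine ⟨(0, 0), by decide, by decide, fun x y => ?_⟩
  simp only [rel, cut]
  push_cast
  constructor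
  · rintro ⟨⟨a1, a2, a3, a4, a5⟩, b1, b2, b3, b4, b5⟩
    constructor <;> linarith
  · rintro ⟨rfl, rfl⟩
    norm_num

theorem meets_LL_UL_mm : Meets .LL .UL (-1) (-1) := by
  right; left
  refine ⟨(0, 0), by decide, by decide, fun x y => ?_⟩
  simp only [rel, cut]
  push_cast
  constructor
  · rintro ⟨⟨a1, a2, a3, a4, a5⟩, b1, b2, b3, b4, b5⟩
    constructor <;> linarith
  · rintro ⟨rfl, rfl⟩
    norm_num

theorem meets_UR_S_mm : Meets .UR .S (-1) (-1) := by
  left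
  intro x y h
  simp only [rel, cut] at h
  push_cast at h
  obtain ⟨⟨a1, a2, a3, a4, a5⟩, b1, b2, b3, b4, b5⟩ := h
  linarith

theorem meets_UR_LL_mm : Meets .UR .LL (-1) (-1) := by
  left
  intro x y h
  simp only [rel, cut] at h
  push_cast at h
  obtain ⟨⟨a1, a2, a3, a4, a5⟩, b1, b2, b3, b4, b5⟩ := h
  linarith

theorem meets_UR_UR_mm : Meets .UR .UR (-1) (-1) := by
  left
  intro x y h
  simp only [rel, cut] at h
  push_cast at h
  obtain ⟨⟨a1, a2, a3, a4, a5⟩, b1, b2, b3, b4, b5⟩ := h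
  linarith

theorem meets_UR_LR_mm : Meets .UR .LR (-1) (-1) := by
  left
  intro x y h
  simp only [rel, cut] at h
  push_cast at h
  obtain ⟨⟨a1, a2, a3, a4, a5⟩, b1, b2, b3, b4, b5⟩ := h
  linarith

theorem meets_UR_UL_mm : Meets .UR .UL (-1) (-1) := by
  left
  intro x y h
  simp only [rel, cut] at h
  push_cast at h
  obtain ⟨⟨a1, a2, a3, a4, a5⟩, b1, b2, b3, b4, b5⟩ := h
  linarith

theorem meets_LR_S_mm : Meets .LR .S (-1) (-1) := by
  right; left
  refine ⟨(0, 0), by decide, by decide, fun x y => ?_⟩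
  simp only [rel, cut]
  push_cast
  constructor
  · rintro ⟨⟨a1, a2, a3, a4, a5⟩, b1, b2, b3, b4, b5⟩
    constructor <;> linarith
  · rintro ⟨rfl, rfl⟩
    norm_num

theorem meets_LR_LL_mm : Meets .LR .LL (-1) (-1) := by
  left
  intro x y h
  simp only [rel, cut] at h
  push_cast at h
  obtain ⟨⟨a1, a2, a3, a4, a5⟩, b1, b2, b3, b4, b5⟩ := h
  linarith

theorem meets_LR_UR_mm : Meets .LR .UR (-1) (-1) := by
  right; left
  refine ⟨(0, 0), by decide, by decide, fun x y => ?_⟩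
  simp only [rel, cut]
  push_cast
  constructor
  · rintro ⟨⟨a1, a2, a3, a4, a5⟩, b1, b2, b3, b4, b5⟩
    constructor <;> linarith
  · rintro ⟨rfl, rfl⟩
    norm_num

theorem meets_LR_LR_mm : Meets .LR .LR (-1) (-1) := by
  right; left
  refine ⟨(0, 0), by decide, by decide, fun x y => ?_⟩
  simp only [rel, cut]
  push_cast
  constructor
  · rintro ⟨⟨a1, a2, a3, a4, a5⟩, b1, b2, b3, b4, b5⟩
    constructor <;> linarith
  · rintro ⟨rfl, rfl⟩
    norm_num

theorem meets_LR_UL_mm : Meets .LR .UL (-1) (-1) := by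
  right; left
  refine ⟨(0, 0), by decide, by decide, fun x y => ?_⟩
  simp only [rel, cut]
  push_cast
  constructor
  · rintro ⟨⟨a1, a2, a3, a4, a5⟩, b1, b2, b3, b4, b5⟩
    constructor <;> linarith
  · rintro ⟨rfl, rfl⟩
    norm_num

theorem meets_UL_S_mm : Meets .UL .S (-1) (-1) := by
  right; left
  refine ⟨(0, 0), by decide, by decide, fun x y => ?_⟩
  simp only [rel, cut]
  push_cast
  constructor
  · rintro ⟨⟨a1, a2, a3, a4, a5⟩, b1, b2, b3, b4, b5⟩
    constructor <;> linarith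
  · rintro ⟨rfl, rfl⟩
    norm_num

theorem meets_UL_LL_mm : Meets .UL .LL (-1) (-1) := by
  left
  intro x y h
  simp only [rel, cut] at h
  push_cast at h
  obtain ⟨⟨a1, a2, a3, a4, a5⟩, b1, b2, b3, b4, b5⟩ := h
  linarith

theorem meets_UL_UR_mm : Meets .UL .UR (-1) (-1) := by
  right; left
  refine ⟨(0, 0), by decide, by decide, fun x y => ?_⟩
  simp only [rel, cut]
  push_cast
  constructor
  · rintro ⟨⟨a1, a2, a3, a4, a5⟩, b1, b2, b3, b4, b5⟩
    constructor <;> linarith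
  · rintro ⟨rfl, rfl⟩
    norm_num

theorem meets_UL_LR_mm : Meets .UL .LR (-1) (-1) := by
  right; left
  refine ⟨(0, 0), by decide, by decide, fun x y => ?_⟩
  simp only [rel, cut]
  push_cast
  constructor
  · rintro ⟨⟨a1, a2, a3, a4, a5⟩, b1, b2, b3, b4, b5⟩
    constructor <;> linarith
  · rintro ⟨rfl, rfl⟩
    norm_num

theorem meets_UL_UL_mm : Meets .UL .UL (-1) (-1) := by
  right; left
  refine ⟨(0, 0), by decide, by decide, fun x y => ?_⟩
  simp only [rel, cut]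
  push_cast
  constructor
  · rintro ⟨⟨a1, a2, a3, a4, a5⟩, b1, b2, b3, b4, b5⟩
    constructor <;> linarith
  · rintro ⟨rfl, rfl⟩
    norm_num

theorem meets_S_S_mz : Meets .S .S (-1) (0) := by
  right; right
  refine ⟨((0, 1), (0, 0)), by decide, by decide, by decide, fun x y => ?_⟩
  simp only [rel, cut]
  push_cast
  constructor
  · rintro ⟨⟨a1, a2, a3, a4, a5⟩, b1, b2, b3, b4, b5⟩
    exact ⟨1 - y, by linarith, by linarith, by linarith, by linarith⟩
  · rintro ⟨t, t0, t1, rfl, rfl⟩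
    refine ⟨⟨?_, ?_, ?_, ?_, ?_⟩, ?_, ?_, ?_, ?_, ?_⟩ <;> linarith

theorem meets_S_LL_mz : Meets .S .LL (-1) (0) := by
  right; left
  refine ⟨(0, 0), by decide, by decide, fun x y => ?_⟩
  simp only [rel, cut]
  push_cast
  constructor
  · rintro ⟨⟨a1, a2, a3, a4, a5⟩, b1, b2, b3, b4, b5⟩
    constructor <;> linarith
  · rintro ⟨rfl, rfl⟩
    norm_num

theorem meets_S_UR_mz : Meets .S .UR (-1) (0) := by
  right; right
  refine ⟨((0, 1), (0, 0)), by decide, by decide, by decide, fun x y => ?_⟩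
  simp only [rel, cut]
  push_cast
  constructor
  · rintro ⟨⟨a1, a2, a3, a4, a5⟩, b1, b2, b3, b4, b5⟩
    exact ⟨1 - y, by linarith, by linarith, by linarith, by linarith⟩
  · rintro ⟨t, t0, t1, rfl, rfl⟩
    refine ⟨⟨?_, ?_, ?_, ?_, ?_⟩, ?_, ?_, ?_, ?_, ?_⟩ <;> linarith

theorem meets_S_LR_mz : Meets .S .LR (-1) (0) := by
  right; right
  refine ⟨((0, 1), (0, 0)), by decide, by decide, by decide, fun x y => ?_⟩
  simp only [rel, cut]
  push_cast
  constructor
  · rintro ⟨⟨a1, a2, a3, a4, a5⟩, b1, b2, b3, b4, b5⟩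
    exact ⟨1 - y, by linarith, by linarith, by linarith, by linarith⟩
  · rintro ⟨t, t0, t1, rfl, rfl⟩
    refine ⟨⟨?_, ?_, ?_, ?_, ?_⟩, ?_, ?_, ?_, ?_, ?_⟩ <;> linarith

theorem meets_S_UL_mz : Meets .S .UL (-1) (0) := by
  right; left
  refine ⟨(0, 1), by decide, by decide, fun x y => ?_⟩
  simp only [rel, cut]
  push_cast
  constructor
  · rintro ⟨⟨a1, a2, a3, a4, a5⟩, b1, b2, b3, b4, b5⟩
    constructor <;> linarith
  · rintro ⟨rfl, rfl⟩
    norm_num

theorem meets_LL_S_mz : Meets .LL .S (-1) (0) := by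
  right; right
  refine ⟨((0, 1), (0, 0)), by decide, by decide, by decide, fun x y => ?_⟩
  simp only [rel, cut]
  push_cast
  constructor
  · rintro ⟨⟨a1, a2, a3, a4, a5⟩, b1, b2, b3, b4, b5⟩
    exact ⟨1 - y, by linarith, by linarith, by linarith, by linarith⟩
  · rintro ⟨t, t0, t1, rfl, rfl⟩
    refine ⟨⟨?_, ?_, ?_, ?_, ?_⟩, ?_, ?_, ?_, ?_, ?_⟩ <;> linarith

theorem meets_LL_LL_mz : Meets .LL .LL (-1) (0) := by
  right; left
  refine ⟨(0, 0), by decide, by decide, fun x y => ?_⟩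
  simp only [rel, cut]
  push_cast
  constructor
  · rintro ⟨⟨a1, a2, a3, a4, a5⟩, b1, b2, b3, b4, b5⟩
    constructor <;> linarith
  · rintro ⟨rfl, rfl⟩
    norm_num

theorem meets_LL_UR_mz : Meets .LL .UR (-1) (0) := by
  right; right
  refine ⟨((0, 1), (0, 0)), by decide, by decide, by decide, fun x y => ?_⟩
  simp only [rel, cut]
  push_cast
  constructor
  · rintro ⟨⟨a1, a2, a3, a4, a5⟩, b1, b2, b3, b4, b5⟩
    exact ⟨1 - y, by linarith, by linarith, by linarith, by linarith⟩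
  · rintro ⟨t, t0, t1, rfl, rfl⟩
    refine ⟨⟨?_, ?_, ?_, ?_, ?_⟩, ?_, ?_, ?_, ?_, ?_⟩ <;> linarith

theorem meets_LL_LR_mz : Meets .LL .LR (-1) (0) := by
  right; right
  refine ⟨((0, 1), (0, 0)), by decide, by decide, by decide, fun x y => ?_⟩
  simp only [rel, cut]
  push_cast
  constructor
  · rintro ⟨⟨a1, a2, a3, a4, a5⟩, b1, b2, b3, b4, b5⟩
    exact ⟨1 - y, by linarith, by linarith, by linarith, by linarith⟩
  · rintro ⟨t, t0, t1, rfl, rfl⟩
    refine ⟨⟨?_, ?_, ?_, ?_, ?_⟩, ?_, ?_, ?_, ?_, ?_⟩ <;> linarith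

theorem meets_LL_UL_mz : Meets .LL .UL (-1) (0) := by
  right; left
  refine ⟨(0, 1), by decide, by decide, fun x y => ?_⟩
  simp only [rel, cut]
  push_cast
  constructor
  · rintro ⟨⟨a1, a2, a3, a4, a5⟩, b1, b2, b3, b4, b5⟩
    constructor <;> linarith
  · rintro ⟨rfl, rfl⟩
    norm_num

theorem meets_UR_S_mz : Meets .UR .S (-1) (0) := by
  right; left
  refine ⟨(0, 1), by decide, by decide, fun x y => ?_⟩
  simp only [rel, cut]
  push_cast
  constructor
  · rintro ⟨⟨a1, a2, a3, a4, a5⟩, b1, b2, b3, b4, b5⟩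
    constructor <;> linarith
  · rintro ⟨rfl, rfl⟩
    norm_num

theorem meets_UR_LL_mz : Meets .UR .LL (-1) (0) := by
  left
  intro x y h
  simp only [rel, cut] at h
  push_cast at h
  obtain ⟨⟨a1, a2, a3, a4, a5⟩, b1, b2, b3, b4, b5⟩ := h
  linarith

theorem meets_UR_UR_mz : Meets .UR .UR (-1) (0) := by
  right; left
  refine ⟨(0, 1), by decide, by decide, fun x y => ?_⟩
  simp only [rel, cut]
  push_cast
  constructor
  · rintro ⟨⟨a1, a2, a3, a4, a5⟩, b1, b2, b3, b4, b5⟩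
    constructor <;> linarith
  · rintro ⟨rfl, rfl⟩
    norm_num

theorem meets_UR_LR_mz : Meets .UR .LR (-1) (0) := by
  right; left
  refine ⟨(0, 1), by decide, by decide, fun x y => ?_⟩
  simp only [rel, cut]
  push_cast
  constructor
  · rintro ⟨⟨a1, a2, a3, a4, a5⟩, b1, b2, b3, b4, b5⟩
    constructor <;> linarith
  · rintro ⟨rfl, rfl⟩
    norm_num

theorem meets_UR_UL_mz : Meets .UR .UL (-1) (0) := by
  right; left
  refine ⟨(0, 1), by decide, by decide, fun x y => ?_⟩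
  simp only [rel, cut]
  push_cast
  constructor
  · rintro ⟨⟨a1, a2, a3, a4, a5⟩, b1, b2, b3, b4, b5⟩
    constructor <;> linarith
  · rintro ⟨rfl, rfl⟩
    norm_num

theorem meets_LR_S_mz : Meets .LR .S (-1) (0) := by
  right; left
  refine ⟨(0, 0), by decide, by decide, fun x y => ?_⟩
  simp only [rel, cut]
  push_cast
  constructor
  · rintro ⟨⟨a1, a2, a3, a4, a5⟩, b1, b2, b3, b4, b5⟩
    constructor <;> linarith
  · rintro ⟨rfl, rfl⟩
    norm_num

theorem meets_LR_LL_mz : Meets .LR .LL (-1) (0) := by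
  right; left
  refine ⟨(0, 0), by decide, by decide, fun x y => ?_⟩
  simp only [rel, cut]
  push_cast
  constructor
  · rintro ⟨⟨a1, a2, a3, a4, a5⟩, b1, b2, b3, b4, b5⟩
    constructor <;> linarith
  · rintro ⟨rfl, rfl⟩
    norm_num

theorem meets_LR_UR_mz : Meets .LR .UR (-1) (0) := by
  right; left
  refine ⟨(0, 0), by decide, by decide, fun x y => ?_⟩
  simp only [rel, cut]
  push_cast
  constructor
  · rintro ⟨⟨a1, a2, a3, a4, a5⟩, b1, b2, b3, b4, b5⟩
    constructor <;> linarith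
  · rintro ⟨rfl, rfl⟩
    norm_num

theorem meets_LR_LR_mz : Meets .LR .LR (-1) (0) := by
  right; left
  refine ⟨(0, 0), by decide, by decide, fun x y => ?_⟩
  simp only [rel, cut]
  push_cast
  constructor
  · rintro ⟨⟨a1, a2, a3, a4, a5⟩, b1, b2, b3, b4, b5⟩
    constructor <;> linarith
  · rintro ⟨rfl, rfl⟩
    norm_num

theorem meets_LR_UL_mz : Meets .LR .UL (-1) (0) := by
  left
  intro x y h
  simp only [rel, cut] at h
  push_cast at h
  obtain ⟨⟨a1, a2, a3, a4, a5⟩, b1, b2, b3, b4, b5⟩ := h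
  linarith

theorem meets_UL_S_mz : Meets .UL .S (-1) (0) := by
  right; right
  refine ⟨((0, 1), (0, 0)), by decide, by decide, by decide, fun x y => ?_⟩
  simp only [rel, cut]
  push_cast
  constructor
  · rintro ⟨⟨a1, a2, a3, a4, a5⟩, b1, b2, b3, b4, b5⟩
    exact ⟨1 - y, by linarith, by linarith, by linarith, by linarith⟩
  · rintro ⟨t, t0, t1, rfl, rfl⟩
    refine ⟨⟨?_, ?_, ?_, ?_, ?_⟩, ?_, ?_, ?_, ?_, ?_⟩ <;> linarith

theorem meets_UL_LL_mz : Meets .UL .LL (-1) (0) := by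
  right; left
  refine ⟨(0, 0), by decide, by decide, fun x y => ?_⟩
  simp only [rel, cut]
  push_cast
  constructor
  · rintro ⟨⟨a1, a2, a3, a4, a5⟩, b1, b2, b3, b4, b5⟩
    constructor <;> linarith
  · rintro ⟨rfl, rfl⟩
    norm_num

theorem meets_UL_UR_mz : Meets .UL .UR (-1) (0) := by
  right; right
  refine ⟨((0, 1), (0, 0)), by decide, by decide, by decide, fun x y => ?_⟩
  simp only [rel, cut]
  push_cast
  constructor
  · rintro ⟨⟨a1, a2, a3, a4, a5⟩, b1, b2, b3, b4, b5⟩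
    exact ⟨1 - y, by linarith, by linarith, by linarith, by linarith⟩
  · rintro ⟨t, t0, t1, rfl, rfl⟩
    refine ⟨⟨?_, ?_, ?_, ?_, ?_⟩, ?_, ?_, ?_, ?_, ?_⟩ <;> linarith

theorem meets_UL_LR_mz : Meets .UL .LR (-1) (0) := by
  right; right
  refine ⟨((0, 1), (0, 0)), by decide, by decide, by decide, fun x y => ?_⟩
  simp only [rel, cut]
  push_cast
  constructor
  · rintro ⟨⟨a1, a2, a3, a4, a5⟩, b1, b2, b3, b4, b5⟩
    exact ⟨1 - y, by linarith, by linarith, by linarith, by linarith⟩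
  · rintro ⟨t, t0, t1, rfl, rfl⟩
    refine ⟨⟨?_, ?_, ?_, ?_, ?_⟩, ?_, ?_, ?_, ?_, ?_⟩ <;> linarith

theorem meets_UL_UL_mz : Meets .UL .UL (-1) (0) := by
  right; left
  refine ⟨(0, 1), by decide, by decide, fun x y => ?_⟩
  simp only [rel, cut]
  push_cast
  constructor
  · rintro ⟨⟨a1, a2, a3, a4, a5⟩, b1, b2, b3, b4, b5⟩
    constructor <;> linarith
  · rintro ⟨rfl, rfl⟩
    norm_num

theorem meets_S_S_mp : Meets .S .S (-1) (1) := by
  right; left
  refine ⟨(0, 1), by decide, by decide, fun x y => ?_⟩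
  simp only [rel, cut]
  push_cast
  constructor
  · rintro ⟨⟨a1, a2, a3, a4, a5⟩, b1, b2, b3, b4, b5⟩
    constructor <;> linarith
  · rintro ⟨rfl, rfl⟩
    norm_num

theorem meets_S_LL_mp : Meets .S .LL (-1) (1) := by
  right; left
  refine ⟨(0, 1), by decide, by decide, fun x y => ?_⟩
  simp only [rel, cut]
  push_cast
  constructor
  · rintro ⟨⟨a1, a2, a3, a4, a5⟩, b1, b2, b3, b4, b5⟩
    constructor <;> linarith
  · rintro ⟨rfl, rfl⟩
    norm_num

theorem meets_S_UR_mp : Meets .S .UR (-1) (1) := by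
  right; left
  refine ⟨(0, 1), by decide, by decide, fun x y => ?_⟩
  simp only [rel, cut]
  push_cast
  constructor
  · rintro ⟨⟨a1, a2, a3, a4, a5⟩, b1, b2, b3, b4, b5⟩
    constructor <;> linarith
  · rintro ⟨rfl, rfl⟩
    norm_num

theorem meets_S_LR_mp : Meets .S .LR (-1) (1) := by
  right; left
  refine ⟨(0, 1), by decide, by decide, fun x y => ?_⟩
  simp only [rel, cut]
  push_cast
  constructor
  · rintro ⟨⟨a1, a2, a3, a4, a5⟩, b1, b2, b3, b4, b5⟩
    constructor <;> linarith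
  · rintro ⟨rfl, rfl⟩
    norm_num

theorem meets_S_UL_mp : Meets .S .UL (-1) (1) := by
  left
  intro x y h
  simp only [rel, cut] at h
  push_cast at h
  obtain ⟨⟨a1, a2, a3, a4, a5⟩, b1, b2, b3, b4, b5⟩ := h
  linarith

theorem meets_LL_S_mp : Meets .LL .S (-1) (1) := by
  right; left
  refine ⟨(0, 1), by decide, by decide, fun x y => ?_⟩
  simp only [rel, cut]
  push_cast
  constructor
  · rintro ⟨⟨a1, a2, a3, a4, a5⟩, b1, b2, b3, b4, b5⟩
    constructor <;> linarith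
  · rintro ⟨rfl, rfl⟩
    norm_num

theorem meets_LL_LL_mp : Meets .LL .LL (-1) (1) := by
  right; left
  refine ⟨(0, 1), by decide, by decide, fun x y => ?_⟩
  simp only [rel, cut]
  push_cast
  constructor
  · rintro ⟨⟨a1, a2, a3, a4, a5⟩, b1, b2, b3, b4, b5⟩
    constructor <;> linarith
  · rintro ⟨rfl, rfl⟩
    norm_num

theorem meets_LL_UR_mp : Meets .LL .UR (-1) (1) := by
  right; left
  refine ⟨(0, 1), by decide, by decide, fun x y => ?_⟩
  simp only [rel, cut]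
  push_cast
  constructor
  · rintro ⟨⟨a1, a2, a3, a4, a5⟩, b1, b2, b3, b4, b5⟩
    constructor <;> linarith
  · rintro ⟨rfl, rfl⟩
    norm_num

theorem meets_LL_LR_mp : Meets .LL .LR (-1) (1) := by
  right; left
  refine ⟨(0, 1), by decide, by decide, fun x y => ?_⟩
  simp only [rel, cut]
  push_cast
  constructor
  · rintro ⟨⟨a1, a2, a3, a4, a5⟩, b1, b2, b3, b4, b5⟩
    constructor <;> linarith
  · rintro ⟨rfl, rfl⟩
    norm_num

theorem meets_LL_UL_mp : Meets .LL .UL (-1) (1) := by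
  left
  intro x y h
  simp only [rel, cut] at h
  push_cast at h
  obtain ⟨⟨a1, a2, a3, a4, a5⟩, b1, b2, b3, b4, b5⟩ := h
  linarith

theorem meets_UR_S_mp : Meets .UR .S (-1) (1) := by
  right; left
  refine ⟨(0, 1), by decide, by decide, fun x y => ?_⟩
  simp only [rel, cut]
  push_cast
  constructor
  · rintro ⟨⟨a1, a2, a3, a4, a5⟩, b1, b2, b3, b4, b5⟩
    constructor <;> linarith
  · rintro ⟨rfl, rfl⟩
    norm_num

theorem meets_UR_LL_mp : Meets .UR .LL (-1) (1) := by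
  right; left
  refine ⟨(0, 1), by decide, by decide, fun x y => ?_⟩
  simp only [rel, cut]
  push_cast
  constructor
  · rintro ⟨⟨a1, a2, a3, a4, a5⟩, b1, b2, b3, b4, b5⟩
    constructor <;> linarith
  · rintro ⟨rfl, rfl⟩
    norm_num

theorem meets_UR_UR_mp : Meets .UR .UR (-1) (1) := by
  right; left
  refine ⟨(0, 1), by decide, by decide, fun x y => ?_⟩
  simp only [rel, cut]
  push_cast
  constructor
  · rintro ⟨⟨a1, a2, a3, a4, a5⟩, b1, b2, b3, b4, b5⟩
    constructor <;> linarith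
  · rintro ⟨rfl, rfl⟩
    norm_num

theorem meets_UR_LR_mp : Meets .UR .LR (-1) (1) := by
  right; left
  refine ⟨(0, 1), by decide, by decide, fun x y => ?_⟩
  simp only [rel, cut]
  push_cast
  constructor
  · rintro ⟨⟨a1, a2, a3, a4, a5⟩, b1, b2, b3, b4, b5⟩
    constructor <;> linarith
  · rintro ⟨rfl, rfl⟩
    norm_num

theorem meets_UR_UL_mp : Meets .UR .UL (-1) (1) := by
  left
  intro x y h
  simp only [rel, cut] at h
  push_cast at h
  obtain ⟨⟨a1, a2, a3, a4, a5⟩, b1, b2, b3, b4, b5⟩ := h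
  linarith

theorem meets_LR_S_mp : Meets .LR .S (-1) (1) := by
  left
  intro x y h
  simp only [rel, cut] at h
  push_cast at h
  obtain ⟨⟨a1, a2, a3, a4, a5⟩, b1, b2, b3, b4, b5⟩ := h
  linarith

theorem meets_LR_LL_mp : Meets .LR .LL (-1) (1) := by
  left
  intro x y h
  simp only [rel, cut] at h
  push_cast at h
  obtain ⟨⟨a1, a2, a3, a4, a5⟩, b1, b2, b3, b4, b5⟩ := h
  linarith

theorem meets_LR_UR_mp : Meets .LR .UR (-1) (1) := by
  left
  intro x y h
  simp only [rel, cut] at h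
  push_cast at h
  obtain ⟨⟨a1, a2, a3, a4, a5⟩, b1, b2, b3, b4, b5⟩ := h
  linarith

theorem meets_LR_LR_mp : Meets .LR .LR (-1) (1) := by
  left
  intro x y h
  simp only [rel, cut] at h
  push_cast at h
  obtain ⟨⟨a1, a2, a3, a4, a5⟩, b1, b2, b3, b4, b5⟩ := h
  linarith

theorem meets_LR_UL_mp : Meets .LR .UL (-1) (1) := by
  left
  intro x y h
  simp only [rel, cut] at h
  push_cast at h
  obtain ⟨⟨a1, a2, a3, a4, a5⟩, b1, b2, b3, b4, b5⟩ := h
  linarith

theorem meets_UL_S_mp : Meets .UL .S (-1) (1) := by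
  right; left
  refine ⟨(0, 1), by decide, by decide, fun x y => ?_⟩
  simp only [rel, cut]
  push_cast
  constructor
  · rintro ⟨⟨a1, a2, a3, a4, a5⟩, b1, b2, b3, b4, b5⟩
    constructor <;> linarith
  · rintro ⟨rfl, rfl⟩
    norm_num

theorem meets_UL_LL_mp : Meets .UL .LL (-1) (1) := by
  right; left
  refine ⟨(0, 1), by decide, by decide, fun x y => ?_⟩
  simp only [rel, cut]
  push_cast
  constructor
  · rintro ⟨⟨a1, a2, a3, a4, a5⟩, b1, b2, b3, b4, b5⟩
    constructor <;> linarith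
  · rintro ⟨rfl, rfl⟩
    norm_num

theorem meets_UL_UR_mp : Meets .UL .UR (-1) (1) := by
  right; left
  refine ⟨(0, 1), by decide, by decide, fun x y => ?_⟩
  simp only [rel, cut]
  push_cast
  constructor
  · rintro ⟨⟨a1, a2, a3, a4, a5⟩, b1, b2, b3, b4, b5⟩
    constructor <;> linarith
  · rintro ⟨rfl, rfl⟩
    norm_num

theorem meets_UL_LR_mp : Meets .UL .LR (-1) (1) := by
  right; left
  refine ⟨(0, 1), by decide, by decide, fun x y => ?_⟩
  simp only [rel, cut]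
  push_cast
  constructor
  · rintro ⟨⟨a1, a2, a3, a4, a5⟩, b1, b2, b3, b4, b5⟩
    constructor <;> linarith
  · rintro ⟨rfl, rfl⟩
    norm_num

theorem meets_UL_UL_mp : Meets .UL .UL (-1) (1) := by
  left
  intro x y h
  simp only [rel, cut] at h
  push_cast at h
  obtain ⟨⟨a1, a2, a3, a4, a5⟩, b1, b2, b3, b4, b5⟩ := h
  linarith

theorem meets_S_S_zm : Meets .S .S (0) (-1) := by
  right; right
  refine ⟨((0, 0), (1, 0)), by decide, by decide, by decide, fun x y => ?_⟩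
  simp only [rel, cut]
  push_cast
  constructor
  · rintro ⟨⟨a1, a2, a3, a4, a5⟩, b1, b2, b3, b4, b5⟩
    exact ⟨x, by linarith, by linarith, by linarith, by linarith⟩
  · rintro ⟨t, t0, t1, rfl, rfl⟩
    refine ⟨⟨?_, ?_, ?_, ?_, ?_⟩, ?_, ?_, ?_, ?_, ?_⟩ <;> linarith

theorem meets_S_LL_zm : Meets .S .LL (0) (-1) := by
  right; left
  refine ⟨(0, 0), by decide, by decide, fun x y => ?_⟩
  simp only [rel, cut]
  push_cast
  constructor
  · rintro ⟨⟨a1, a2, a3, a4, a5⟩, b1, b2, b3, b4, b5⟩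
    constructor <;> linarith
  · rintro ⟨rfl, rfl⟩
    norm_num

theorem meets_S_UR_zm : Meets .S .UR (0) (-1) := by
  right; right
  refine ⟨((0, 0), (1, 0)), by decide, by decide, by decide, fun x y => ?_⟩
  simp only [rel, cut]
  push_cast
  constructor
  · rintro ⟨⟨a1, a2, a3, a4, a5⟩, b1, b2, b3, b4, b5⟩
    exact ⟨x, by linarith, by linarith, by linarith, by linarith⟩
  · rintro ⟨t, t0, t1, rfl, rfl⟩
    refine ⟨⟨?_, ?_, ?_, ?_, ?_⟩, ?_, ?_, ?_, ?_, ?_⟩ <;> linarith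

theorem meets_S_LR_zm : Meets .S .LR (0) (-1) := by
  right; left
  refine ⟨(1, 0), by decide, by decide, fun x y => ?_⟩
  simp only [rel, cut]
  push_cast
  constructor
  · rintro ⟨⟨a1, a2, a3, a4, a5⟩, b1, b2, b3, b4, b5⟩
    constructor <;> linarith
  · rintro ⟨rfl, rfl⟩
    norm_num

theorem meets_S_UL_zm : Meets .S .UL (0) (-1) := by
  right; right
  refine ⟨((0, 0), (1, 0)), by decide, by decide, by decide, fun x y => ?_⟩
  simp only [rel, cut]
  push_cast
  constructor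
  · rintro ⟨⟨a1, a2, a3, a4, a5⟩, b1, b2, b3, b4, b5⟩
    exact ⟨x, by linarith, by linarith, by linarith, by linarith⟩
  · rintro ⟨t, t0, t1, rfl, rfl⟩
    refine ⟨⟨?_, ?_, ?_, ?_, ?_⟩, ?_, ?_, ?_, ?_, ?_⟩ <;> linarith

theorem meets_LL_S_zm : Meets .LL .S (0) (-1) := by
  right; right
  refine ⟨((0, 0), (1, 0)), by decide, by decide, by decide, fun x y => ?_⟩
  simp only [rel, cut]
  push_cast
  constructor
  · rintro ⟨⟨a1, a2, a3, a4, a5⟩, b1, b2, b3, b4, b5⟩
    exact ⟨x, by linarith, by linarith, by linarith, by linarith⟩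
  · rintro ⟨t, t0, t1, rfl, rfl⟩
    refine ⟨⟨?_, ?_, ?_, ?_, ?_⟩, ?_, ?_, ?_, ?_, ?_⟩ <;> linarith

theorem meets_LL_LL_zm : Meets .LL .LL (0) (-1) := by
  right; left
  refine ⟨(0, 0), by decide, by decide, fun x y => ?_⟩
  simp only [rel, cut]
  push_cast
  constructor
  · rintro ⟨⟨a1, a2, a3, a4, a5⟩, b1, b2, b3, b4, b5⟩
    constructor <;> linarith
  · rintro ⟨rfl, rfl⟩
    norm_num

theorem meets_LL_UR_zm : Meets .LL .UR (0) (-1) := by
  right; right
  refine ⟨((0, 0), (1, 0)), by decide, by decide, by decide, fun x y => ?_⟩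
  simp only [rel, cut]
  push_cast
  constructor
  · rintro ⟨⟨a1, a2, a3, a4, a5⟩, b1, b2, b3, b4, b5⟩
    exact ⟨x, by linarith, by linarith, by linarith, by linarith⟩
  · rintro ⟨t, t0, t1, rfl, rfl⟩
    refine ⟨⟨?_, ?_, ?_, ?_, ?_⟩, ?_, ?_, ?_, ?_, ?_⟩ <;> linarith

theorem meets_LL_LR_zm : Meets .LL .LR (0) (-1) := by
  right; left
  refine ⟨(1, 0), by decide, by decide, fun x y => ?_⟩
  simp only [rel, cut]
  push_cast
  constructor
  · rintro ⟨⟨a1, a2, a3, a4, a5⟩, b1, b2, b3, b4, b5⟩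
    constructor <;> linarith
  · rintro ⟨rfl, rfl⟩
    norm_num

theorem meets_LL_UL_zm : Meets .LL .UL (0) (-1) := by
  right; right
  refine ⟨((0, 0), (1, 0)), by decide, by decide, by decide, fun x y => ?_⟩
  simp only [rel, cut]
  push_cast
  constructor
  · rintro ⟨⟨a1, a2, a3, a4, a5⟩, b1, b2, b3, b4, b5⟩
    exact ⟨x, by linarith, by linarith, by linarith, by linarith⟩
  · rintro ⟨t, t0, t1, rfl, rfl⟩
    refine ⟨⟨?_, ?_, ?_, ?_, ?_⟩, ?_, ?_, ?_, ?_, ?_⟩ <;> linarith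

theorem meets_UR_S_zm : Meets .UR .S (0) (-1) := by
  right; left
  refine ⟨(1, 0), by decide, by decide, fun x y => ?_⟩
  simp only [rel, cut]
  push_cast
  constructor
  · rintro ⟨⟨a1, a2, a3, a4, a5⟩, b1, b2, b3, b4, b5⟩
    constructor <;> linarith
  · rintro ⟨rfl, rfl⟩
    norm_num

theorem meets_UR_LL_zm : Meets .UR .LL (0) (-1) := by
  left
  intro x y h
  simp only [rel, cut] at h
  push_cast at h
  obtain ⟨⟨a1, a2, a3, a4, a5⟩, b1, b2, b3, b4, b5⟩ := h
  linarith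

theorem meets_UR_UR_zm : Meets .UR .UR (0) (-1) := by
  right; left
  refine ⟨(1, 0), by decide, by decide, fun x y => ?_⟩
  simp only [rel, cut]
  push_cast
  constructor
  · rintro ⟨⟨a1, a2, a3, a4, a5⟩, b1, b2, b3, b4, b5⟩
    constructor <;> linarith
  · rintro ⟨rfl, rfl⟩
    norm_num

theorem meets_UR_LR_zm : Meets .UR .LR (0) (-1) := by
  right; left
  refine ⟨(1, 0), by decide, by decide, fun x y => ?_⟩
  simp only [rel, cut]
  push_cast
  constructor
  · rintro ⟨⟨a1, a2, a3, a4, a5⟩, b1, b2, b3, b4, b5⟩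
    constructor <;> linarith
  · rintro ⟨rfl, rfl⟩
    norm_num

theorem meets_UR_UL_zm : Meets .UR .UL (0) (-1) := by
  right; left
  refine ⟨(1, 0), by decide, by decide, fun x y => ?_⟩
  simp only [rel, cut]
  push_cast
  constructor
  · rintro ⟨⟨a1, a2, a3, a4, a5⟩, b1, b2, b3, b4, b5⟩
    constructor <;> linarith
  · rintro ⟨rfl, rfl⟩
    norm_num

theorem meets_LR_S_zm : Meets .LR .S (0) (-1) := by
  right; right
  refine ⟨((0, 0), (1, 0)), by decide, by decide, by decide, fun x y => ?_⟩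
  simp only [rel, cut]
  push_cast
  constructor
  · rintro ⟨⟨a1, a2, a3, a4, a5⟩, b1, b2, b3, b4, b5⟩
    exact ⟨x, by linarith, by linarith, by linarith, by linarith⟩
  · rintro ⟨t, t0, t1, rfl, rfl⟩
    refine ⟨⟨?_, ?_, ?_, ?_, ?_⟩, ?_, ?_, ?_, ?_, ?_⟩ <;> linarith

theorem meets_LR_LL_zm : Meets .LR .LL (0) (-1) := by
  right; left
  refine ⟨(0, 0), by decide, by decide, fun x y => ?_⟩
  simp only [rel, cut]
  push_cast
  constructor
  · rintro ⟨⟨a1, a2, a3, a4, a5⟩, b1, b2, b3, b4, b5⟩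
    constructor <;> linarith
  · rintro ⟨rfl, rfl⟩
    norm_num

theorem meets_LR_UR_zm : Meets .LR .UR (0) (-1) := by
  right; right
  refine ⟨((0, 0), (1, 0)), by decide, by decide, by decide, fun x y => ?_⟩
  simp only [rel, cut]
  push_cast
  constructor
  · rintro ⟨⟨a1, a2, a3, a4, a5⟩, b1, b2, b3, b4, b5⟩
    exact ⟨x, by linarith, by linarith, by linarith, by linarith⟩
  · rintro ⟨t, t0, t1, rfl, rfl⟩
    refine ⟨⟨?_, ?_, ?_, ?_, ?_⟩, ?_, ?_, ?_, ?_, ?_⟩ <;> linarith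

theorem meets_LR_LR_zm : Meets .LR .LR (0) (-1) := by
  right; left
  refine ⟨(1, 0), by decide, by decide, fun x y => ?_⟩
  simp only [rel, cut]
  push_cast
  constructor
  · rintro ⟨⟨a1, a2, a3, a4, a5⟩, b1, b2, b3, b4, b5⟩
    constructor <;> linarith
  · rintro ⟨rfl, rfl⟩
    norm_num

theorem meets_LR_UL_zm : Meets .LR .UL (0) (-1) := by
  right; right
  refine ⟨((0, 0), (1, 0)), by decide, by decide, by decide, fun x y => ?_⟩
  simp only [rel, cut]
  push_cast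
  constructor
  · rintro ⟨⟨a1, a2, a3, a4, a5⟩, b1, b2, b3, b4, b5⟩
    exact ⟨x, by linarith, by linarith, by linarith, by linarith⟩
  · rintro ⟨t, t0, t1, rfl, rfl⟩
    refine ⟨⟨?_, ?_, ?_, ?_, ?_⟩, ?_, ?_, ?_, ?_, ?_⟩ <;> linarith

theorem meets_UL_S_zm : Meets .UL .S (0) (-1) := by
  right; left
  refine ⟨(0, 0), by decide, by decide, fun x y => ?_⟩
  simp only [rel, cut]
  push_cast
  constructor
  · rintro ⟨⟨a1, a2, a3, a4, a5⟩, b1, b2, b3, b4, b5⟩
    constructor <;> linarith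
  · rintro ⟨rfl, rfl⟩
    norm_num

theorem meets_UL_LL_zm : Meets .UL .LL (0) (-1) := by
  right; left
  refine ⟨(0, 0), by decide, by decide, fun x y => ?_⟩
  simp only [rel, cut]
  push_cast
  constructor
  · rintro ⟨⟨a1, a2, a3, a4, a5⟩, b1, b2, b3, b4, b5⟩
    constructor <;> linarith
  · rintro ⟨rfl, rfl⟩
    norm_num

theorem meets_UL_UR_zm : Meets .UL .UR (0) (-1) := by
  right; left
  refine ⟨(0, 0), by decide, by decide, fun x y => ?_⟩
  simp only [rel, cut]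
  push_cast
  constructor
  · rintro ⟨⟨a1, a2, a3, a4, a5⟩, b1, b2, b3, b4, b5⟩
    constructor <;> linarith
  · rintro ⟨rfl, rfl⟩
    norm_num

theorem meets_UL_LR_zm : Meets .UL .LR (0) (-1) := by
  left
  intro x y h
  simp only [rel, cut] at h
  push_cast at h
  obtain ⟨⟨a1, a2, a3, a4, a5⟩, b1, b2, b3, b4, b5⟩ := h
  linarith

theorem meets_UL_UL_zm : Meets .UL .UL (0) (-1) := by
  right; left
  refine ⟨(0, 0), by decide, by decide, fun x y => ?_⟩
  simp only [rel, cut]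
  push_cast
  constructor
  · rintro ⟨⟨a1, a2, a3, a4, a5⟩, b1, b2, b3, b4, b5⟩
    constructor <;> linarith
  · rintro ⟨rfl, rfl⟩
    norm_num

theorem meets_LL_UR_zz : Meets .LL .UR (0) (0) := by
  right; right
  refine ⟨((1, 0), (0, 1)), by decide, by decide, by decide, fun x y => ?_⟩
  simp only [rel, cut]
  push_cast
  constructor
  · rintro ⟨⟨a1, a2, a3, a4, a5⟩, b1, b2, b3, b4, b5⟩
    exact ⟨1 - x, by linarith, by linarith, by linarith, by linarith⟩
  · rintro ⟨t, t0, t1, rfl, rfl⟩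
    refine ⟨⟨?_, ?_, ?_, ?_, ?_⟩, ?_, ?_, ?_, ?_, ?_⟩ <;> linarith

theorem meets_UR_LL_zz : Meets .UR .LL (0) (0) := by
  right; right
  refine ⟨((0, 1), (1, 0)), by decide, by decide, by decide, fun x y => ?_⟩
  simp only [rel, cut]
  push_cast
  constructor
  · rintro ⟨⟨a1, a2, a3, a4, a5⟩, b1, b2, b3, b4, b5⟩
    exact ⟨x, by linarith, by linarith, by linarith, by linarith⟩
  · rintro ⟨t, t0, t1, rfl, rfl⟩
    refine ⟨⟨?_, ?_, ?_, ?_, ?_⟩, ?_, ?_, ?_, ?_, ?_⟩ <;> linarith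

theorem meets_LR_UL_zz : Meets .LR .UL (0) (0) := by
  right; right
  refine ⟨((1, 1), (0, 0)), by decide, by decide, by decide, fun x y => ?_⟩
  simp only [rel, cut]
  push_cast
  constructor
  · rintro ⟨⟨a1, a2, a3, a4, a5⟩, b1, b2, b3, b4, b5⟩
    exact ⟨1 - x, by linarith, by linarith, by linarith, by linarith⟩
  · rintro ⟨t, t0, t1, rfl, rfl⟩
    refine ⟨⟨?_, ?_, ?_, ?_, ?_⟩, ?_, ?_, ?_, ?_, ?_⟩ <;> linarith

theorem meets_UL_LR_zz : Meets .UL .LR (0) (0) := by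
  right; right
  refine ⟨((0, 0), (1, 1)), by decide, by decide, by decide, fun x y => ?_⟩
  simp only [rel, cut]
  push_cast
  constructor
  · rintro ⟨⟨a1, a2, a3, a4, a5⟩, b1, b2, b3, b4, b5⟩
    exact ⟨x, by linarith, by linarith, by linarith, by linarith⟩
  · rintro ⟨t, t0, t1, rfl, rfl⟩
    refine ⟨⟨?_, ?_, ?_, ?_, ?_⟩, ?_, ?_, ?_, ?_, ?_⟩ <;> linarith

theorem meets_S_S_zp : Meets .S .S (0) (1) := by
  right; right
  refine ⟨((1, 1), (0, 1)), by decide, by decide, by decide, fun x y => ?_⟩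
  simp only [rel, cut]
  push_cast
  constructor
  · rintro ⟨⟨a1, a2, a3, a4, a5⟩, b1, b2, b3, b4, b5⟩
    exact ⟨1 - x, by linarith, by linarith, by linarith, by linarith⟩
  · rintro ⟨t, t0, t1, rfl, rfl⟩
    refine ⟨⟨?_, ?_, ?_, ?_, ?_⟩, ?_, ?_, ?_, ?_, ?_⟩ <;> linarith

theorem meets_S_LL_zp : Meets .S .LL (0) (1) := by
  right; right
  refine ⟨((1, 1), (0, 1)), by decide, by decide, by decide, fun x y => ?_⟩
  simp only [rel, cut]
  push_cast
  constructor
  · rintro ⟨⟨a1, a2, a3, a4, a5⟩, b1, b2, b3, b4, b5⟩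
    exact ⟨1 - x, by linarith, by linarith, by linarith, by linarith⟩
  · rintro ⟨t, t0, t1, rfl, rfl⟩
    refine ⟨⟨?_, ?_, ?_, ?_, ?_⟩, ?_, ?_, ?_, ?_, ?_⟩ <;> linarith

theorem meets_S_UR_zp : Meets .S .UR (0) (1) := by
  right; left
  refine ⟨(1, 1), by decide, by decide, fun x y => ?_⟩
  simp only [rel, cut]
  push_cast
  constructor
  · rintro ⟨⟨a1, a2, a3, a4, a5⟩, b1, b2, b3, b4, b5⟩
    constructor <;> linarith
  · rintro ⟨rfl, rfl⟩
    norm_num

theorem meets_S_LR_zp : Meets .S .LR (0) (1) := by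
  right; right
  refine ⟨((1, 1), (0, 1)), by decide, by decide, by decide, fun x y => ?_⟩
  simp only [rel, cut]
  push_cast
  constructor
  · rintro ⟨⟨a1, a2, a3, a4, a5⟩, b1, b2, b3, b4, b5⟩
    exact ⟨1 - x, by linarith, by linarith, by linarith, by linarith⟩
  · rintro ⟨t, t0, t1, rfl, rfl⟩
    refine ⟨⟨?_, ?_, ?_, ?_, ?_⟩, ?_, ?_, ?_, ?_, ?_⟩ <;> linarith

theorem meets_S_UL_zp : Meets .S .UL (0) (1) := by
  right; left
  refine ⟨(0, 1), by decide, by decide, fun x y => ?_⟩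
  simp only [rel, cut]
  push_cast
  constructor
  · rintro ⟨⟨a1, a2, a3, a4, a5⟩, b1, b2, b3, b4, b5⟩
    constructor <;> linarith
  · rintro ⟨rfl, rfl⟩
    norm_num

theorem meets_LL_S_zp : Meets .LL .S (0) (1) := by
  right; left
  refine ⟨(0, 1), by decide, by decide, fun x y => ?_⟩
  simp only [rel, cut]
  push_cast
  constructor
  · rintro ⟨⟨a1, a2, a3, a4, a5⟩, b1, b2, b3, b4, b5⟩
    constructor <;> linarith
  · rintro ⟨rfl, rfl⟩
    norm_num

theorem meets_LL_LL_zp : Meets .LL .LL (0) (1) := by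
  right; left
  refine ⟨(0, 1), by decide, by decide, fun x y => ?_⟩
  simp only [rel, cut]
  push_cast
  constructor
  · rintro ⟨⟨a1, a2, a3, a4, a5⟩, b1, b2, b3, b4, b5⟩
    constructor <;> linarith
  · rintro ⟨rfl, rfl⟩
    norm_num

theorem meets_LL_UR_zp : Meets .LL .UR (0) (1) := by
  left
  intro x y h
  simp only [rel, cut] at h
  push_cast at h
  obtain ⟨⟨a1, a2, a3, a4, a5⟩, b1, b2, b3, b4, b5⟩ := h
  linarith

theorem meets_LL_LR_zp : Meets .LL .LR (0) (1) := by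
  right; left
  refine ⟨(0, 1), by decide, by decide, fun x y => ?_⟩
  simp only [rel, cut]
  push_cast
  constructor
  · rintro ⟨⟨a1, a2, a3, a4, a5⟩, b1, b2, b3, b4, b5⟩
    constructor <;> linarith
  · rintro ⟨rfl, rfl⟩
    norm_num

theorem meets_LL_UL_zp : Meets .LL .UL (0) (1) := by
  right; left
  refine ⟨(0, 1), by decide, by decide, fun x y => ?_⟩
  simp only [rel, cut]
  push_cast
  constructor
  · rintro ⟨⟨a1, a2, a3, a4, a5⟩, b1, b2, b3, b4, b5⟩
    constructor <;> linarith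
  · rintro ⟨rfl, rfl⟩
    norm_num

theorem meets_UR_S_zp : Meets .UR .S (0) (1) := by
  right; right
  refine ⟨((1, 1), (0, 1)), by decide, by decide, by decide, fun x y => ?_⟩
  simp only [rel, cut]
  push_cast
  constructor
  · rintro ⟨⟨a1, a2, a3, a4, a5⟩, b1, b2, b3, b4, b5⟩
    exact ⟨1 - x, by linarith, by linarith, by linarith, by linarith⟩
  · rintro ⟨t, t0, t1, rfl, rfl⟩
    refine ⟨⟨?_, ?_, ?_, ?_, ?_⟩, ?_, ?_, ?_, ?_, ?_⟩ <;> linarith

theorem meets_UR_LL_zp : Meets .UR .LL (0) (1) := by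
  right; right
  refine ⟨((1, 1), (0, 1)), by decide, by decide, by decide, fun x y => ?_⟩
  simp only [rel, cut]
  push_cast
  constructor
  · rintro ⟨⟨a1, a2, a3, a4, a5⟩, b1, b2, b3, b4, b5⟩
    exact ⟨1 - x, by linarith, by linarith, by linarith, by linarith⟩
  · rintro ⟨t, t0, t1, rfl, rfl⟩
    refine ⟨⟨?_, ?_, ?_, ?_, ?_⟩, ?_, ?_, ?_, ?_, ?_⟩ <;> linarith

theorem meets_UR_UR_zp : Meets .UR .UR (0) (1) := by
  right; left
  refine ⟨(1, 1), by decide, by decide, fun x y => ?_⟩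
  simp only [rel, cut]
  push_cast
  constructor
  · rintro ⟨⟨a1, a2, a3, a4, a5⟩, b1, b2, b3, b4, b5⟩
    constructor <;> linarith
  · rintro ⟨rfl, rfl⟩
    norm_num

theorem meets_UR_LR_zp : Meets .UR .LR (0) (1) := by
  right; right
  refine ⟨((1, 1), (0, 1)), by decide, by decide, by decide, fun x y => ?_⟩
  simp only [rel, cut]
  push_cast
  constructor
  · rintro ⟨⟨a1, a2, a3, a4, a5⟩, b1, b2, b3, b4, b5⟩
    exact ⟨1 - x, by linarith, by linarith, by linarith, by linarith⟩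
  · rintro ⟨t, t0, t1, rfl, rfl⟩
    refine ⟨⟨?_, ?_, ?_, ?_, ?_⟩, ?_, ?_, ?_, ?_, ?_⟩ <;> linarith

theorem meets_UR_UL_zp : Meets .UR .UL (0) (1) := by
  right; left
  refine ⟨(0, 1), by decide, by decide, fun x y => ?_⟩
  simp only [rel, cut]
  push_cast
  constructor
  · rintro ⟨⟨a1, a2, a3, a4, a5⟩, b1, b2, b3, b4, b5⟩
    constructor <;> linarith
  · rintro ⟨rfl, rfl⟩
    norm_num

theorem meets_LR_S_zp : Meets .LR .S (0) (1) := by
  right; left
  refine ⟨(1, 1), by decide, by decide, fun x y => ?_⟩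
  simp only [rel, cut]
  push_cast
  constructor
  · rintro ⟨⟨a1, a2, a3, a4, a5⟩, b1, b2, b3, b4, b5⟩
    constructor <;> linarith
  · rintro ⟨rfl, rfl⟩
    norm_num

theorem meets_LR_LL_zp : Meets .LR .LL (0) (1) := by
  right; left
  refine ⟨(1, 1), by decide, by decide, fun x y => ?_⟩
  simp only [rel, cut]
  push_cast
  constructor
  · rintro ⟨⟨a1, a2, a3, a4, a5⟩, b1, b2, b3, b4, b5⟩
    constructor <;> linarith
  · rintro ⟨rfl, rfl⟩
    norm_num

theorem meets_LR_UR_zp : Meets .LR .UR (0) (1) := by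
  right; left
  refine ⟨(1, 1), by decide, by decide, fun x y => ?_⟩
  simp only [rel, cut]
  push_cast
  constructor
  · rintro ⟨⟨a1, a2, a3, a4, a5⟩, b1, b2, b3, b4, b5⟩
    constructor <;> linarith
  · rintro ⟨rfl, rfl⟩
    norm_num

theorem meets_LR_LR_zp : Meets .LR .LR (0) (1) := by
  right; left
  refine ⟨(1, 1), by decide, by decide, fun x y => ?_⟩
  simp only [rel, cut]
  push_cast
  constructor
  · rintro ⟨⟨a1, a2, a3, a4, a5⟩, b1, b2, b3, b4, b5⟩
    constructor <;> linarith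
  · rintro ⟨rfl, rfl⟩
    norm_num

theorem meets_LR_UL_zp : Meets .LR .UL (0) (1) := by
  left
  intro x y h
  simp only [rel, cut] at h
  push_cast at h
  obtain ⟨⟨a1, a2, a3, a4, a5⟩, b1, b2, b3, b4, b5⟩ := h
  linarith

theorem meets_UL_S_zp : Meets .UL .S (0) (1) := by
  right; right
  refine ⟨((1, 1), (0, 1)), by decide, by decide, by decide, fun x y => ?_⟩
  simp only [rel, cut]
  push_cast
  constructor
  · rintro ⟨⟨a1, a2, a3, a4, a5⟩, b1, b2, b3, b4, b5⟩
    exact ⟨1 - x, by linarith, by linarith, by linarith, by linarith⟩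
  · rintro ⟨t, t0, t1, rfl, rfl⟩
    refine ⟨⟨?_, ?_, ?_, ?_, ?_⟩, ?_, ?_, ?_, ?_, ?_⟩ <;> linarith

theorem meets_UL_LL_zp : Meets .UL .LL (0) (1) := by
  right; right
  refine ⟨((1, 1), (0, 1)), by decide, by decide, by decide, fun x y => ?_⟩
  simp only [rel, cut]
  push_cast
  constructor
  · rintro ⟨⟨a1, a2, a3, a4, a5⟩, b1, b2, b3, b4, b5⟩
    exact ⟨1 - x, by linarith, by linarith, by linarith, by linarith⟩
  · rintro ⟨t, t0, t1, rfl, rfl⟩
    refine ⟨⟨?_, ?_, ?_, ?_, ?_⟩, ?_, ?_, ?_, ?_, ?_⟩ <;> linarith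

theorem meets_UL_UR_zp : Meets .UL .UR (0) (1) := by
  right; left
  refine ⟨(1, 1), by decide, by decide, fun x y => ?_⟩
  simp only [rel, cut]
  push_cast
  constructor
  · rintro ⟨⟨a1, a2, a3, a4, a5⟩, b1, b2, b3, b4, b5⟩
    constructor <;> linarith
  · rintro ⟨rfl, rfl⟩
    norm_num

theorem meets_UL_LR_zp : Meets .UL .LR (0) (1) := by
  right; right
  refine ⟨((1, 1), (0, 1)), by decide, by decide, by decide, fun x y => ?_⟩
  simp only [rel, cut]
  push_cast
  constructor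
  · rintro ⟨⟨a1, a2, a3, a4, a5⟩, b1, b2, b3, b4, b5⟩
    exact ⟨1 - x, by linarith, by linarith, by linarith, by linarith⟩
  · rintro ⟨t, t0, t1, rfl, rfl⟩
    refine ⟨⟨?_, ?_, ?_, ?_, ?_⟩, ?_, ?_, ?_, ?_, ?_⟩ <;> linarith

theorem meets_UL_UL_zp : Meets .UL .UL (0) (1) := by
  right; left
  refine ⟨(0, 1), by decide, by decide, fun x y => ?_⟩
  simp only [rel, cut]
  push_cast
  constructor
  · rintro ⟨⟨a1, a2, a3, a4, a5⟩, b1, b2, b3, b4, b5⟩
    constructor <;> linarith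
  · rintro ⟨rfl, rfl⟩
    norm_num

theorem meets_S_S_pm : Meets .S .S (1) (-1) := by
  right; left
  refine ⟨(1, 0), by decide, by decide, fun x y => ?_⟩
  simp only [rel, cut]
  push_cast
  constructor
  · rintro ⟨⟨a1, a2, a3, a4, a5⟩, b1, b2, b3, b4, b5⟩
    constructor <;> linarith
  · rintro ⟨rfl, rfl⟩
    norm_num

theorem meets_S_LL_pm : Meets .S .LL (1) (-1) := by
  right; left
  refine ⟨(1, 0), by decide, by decide, fun x y => ?_⟩
  simp only [rel, cut]
  push_cast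
  constructor
  · rintro ⟨⟨a1, a2, a3, a4, a5⟩, b1, b2, b3, b4, b5⟩
    constructor <;> linarith
  · rintro ⟨rfl, rfl⟩
    norm_num

theorem meets_S_UR_pm : Meets .S .UR (1) (-1) := by
  right; left
  refine ⟨(1, 0), by decide, by decide, fun x y => ?_⟩
  simp only [rel, cut]
  push_cast
  constructor
  · rintro ⟨⟨a1, a2, a3, a4, a5⟩, b1, b2, b3, b4, b5⟩
    constructor <;> linarith
  · rintro ⟨rfl, rfl⟩
    norm_num

theorem meets_S_LR_pm : Meets .S .LR (1) (-1) := by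
  left
  intro x y h
  simp only [rel, cut] at h
  push_cast at h
  obtain ⟨⟨a1, a2, a3, a4, a5⟩, b1, b2, b3, b4, b5⟩ := h
  linarith

theorem meets_S_UL_pm : Meets .S .UL (1) (-1) := by
  right; left
  refine ⟨(1, 0), by decide, by decide, fun x y => ?_⟩
  simp only [rel, cut]
  push_cast
  constructor
  · rintro ⟨⟨a1, a2, a3, a4, a5⟩, b1, b2, b3, b4, b5⟩
    constructor <;> linarith
  · rintro ⟨rfl, rfl⟩
    norm_num

theorem meets_LL_S_pm : Meets .LL .S (1) (-1) := by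
  right; left
  refine ⟨(1, 0), by decide, by decide, fun x y => ?_⟩
  simp only [rel, cut]
  push_cast
  constructor
  · rintro ⟨⟨a1, a2, a3, a4, a5⟩, b1, b2, b3, b4, b5⟩
    constructor <;> linarith
  · rintro ⟨rfl, rfl⟩
    norm_num

theorem meets_LL_LL_pm : Meets .LL .LL (1) (-1) := by
  right; left
  refine ⟨(1, 0), by decide, by decide, fun x y => ?_⟩
  simp only [rel, cut]
  push_cast
  constructor
  · rintro ⟨⟨a1, a2, a3, a4, a5⟩, b1, b2, b3, b4, b5⟩
    constructor <;> linarith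
  · rintro ⟨rfl, rfl⟩
    norm_num

theorem meets_LL_UR_pm : Meets .LL .UR (1) (-1) := by
  right; left
  refine ⟨(1, 0), by decide, by decide, fun x y => ?_⟩
  simp only [rel, cut]
  push_cast
  constructor
  · rintro ⟨⟨a1, a2, a3, a4, a5⟩, b1, b2, b3, b4, b5⟩
    constructor <;> linarith
  · rintro ⟨rfl, rfl⟩
    norm_num

theorem meets_LL_LR_pm : Meets .LL .LR (1) (-1) := by
  left
  intro x y h
  simp only [rel, cut] at h
  push_cast at h
  obtain ⟨⟨a1, a2, a3, a4, a5⟩, b1, b2, b3, b4, b5⟩ := h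
  linarith

theorem meets_LL_UL_pm : Meets .LL .UL (1) (-1) := by
  right; left
  refine ⟨(1, 0), by decide, by decide, fun x y => ?_⟩
  simp only [rel, cut]
  push_cast
  constructor
  · rintro ⟨⟨a1, a2, a3, a4, a5⟩, b1, b2, b3, b4, b5⟩
    constructor <;> linarith
  · rintro ⟨rfl, rfl⟩
    norm_num

theorem meets_UR_S_pm : Meets .UR .S (1) (-1) := by
  right; left
  refine ⟨(1, 0), by decide, by decide, fun x y => ?_⟩
  simp only [rel, cut]
  push_cast
  constructor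
  · rintro ⟨⟨a1, a2, a3, a4, a5⟩, b1, b2, b3, b4, b5⟩
    constructor <;> linarith
  · rintro ⟨rfl, rfl⟩
    norm_num

theorem meets_UR_LL_pm : Meets .UR .LL (1) (-1) := by
  right; left
  refine ⟨(1, 0), by decide, by decide, fun x y => ?_⟩
  simp only [rel, cut]
  push_cast
  constructor
  · rintro ⟨⟨a1, a2, a3, a4, a5⟩, b1, b2, b3, b4, b5⟩
    constructor <;> linarith
  · rintro ⟨rfl, rfl⟩
    norm_num

theorem meets_UR_UR_pm : Meets .UR .UR (1) (-1) := by
  right; left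
  refine ⟨(1, 0), by decide, by decide, fun x y => ?_⟩
  simp only [rel, cut]
  push_cast
  constructor
  · rintro ⟨⟨a1, a2, a3, a4, a5⟩, b1, b2, b3, b4, b5⟩
    constructor <;> linarith
  · rintro ⟨rfl, rfl⟩
    norm_num

theorem meets_UR_LR_pm : Meets .UR .LR (1) (-1) := by
  left
  intro x y h
  simp only [rel, cut] at h
  push_cast at h
  obtain ⟨⟨a1, a2, a3, a4, a5⟩, b1, b2, b3, b4, b5⟩ := h
  linarith

theorem meets_UR_UL_pm : Meets .UR .UL (1) (-1) := by
  right; left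
  refine ⟨(1, 0), by decide, by decide, fun x y => ?_⟩
  simp only [rel, cut]
  push_cast
  constructor
  · rintro ⟨⟨a1, a2, a3, a4, a5⟩, b1, b2, b3, b4, b5⟩
    constructor <;> linarith
  · rintro ⟨rfl, rfl⟩
    norm_num

theorem meets_LR_S_pm : Meets .LR .S (1) (-1) := by
  right; left
  refine ⟨(1, 0), by decide, by decide, fun x y => ?_⟩
  simp only [rel, cut]
  push_cast
  constructor
  · rintro ⟨⟨a1, a2, a3, a4, a5⟩, b1, b2, b3, b4, b5⟩
    constructor <;> linarith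
  · rintro ⟨rfl, rfl⟩
    norm_num

theorem meets_LR_LL_pm : Meets .LR .LL (1) (-1) := by
  right; left
  refine ⟨(1, 0), by decide, by decide, fun x y => ?_⟩
  simp only [rel, cut]
  push_cast
  constructor
  · rintro ⟨⟨a1, a2, a3, a4, a5⟩, b1, b2, b3, b4, b5⟩
    constructor <;> linarith
  · rintro ⟨rfl, rfl⟩
    norm_num

theorem meets_LR_UR_pm : Meets .LR .UR (1) (-1) := by
  right; left
  refine ⟨(1, 0), by decide, by decide, fun x y => ?_⟩
  simp only [rel, cut]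
  push_cast
  constructor
  · rintro ⟨⟨a1, a2, a3, a4, a5⟩, b1, b2, b3, b4, b5⟩
    constructor <;> linarith
  · rintro ⟨rfl, rfl⟩
    norm_num

theorem meets_LR_LR_pm : Meets .LR .LR (1) (-1) := by
  left
  intro x y h
  simp only [rel, cut] at h
  push_cast at h
  obtain ⟨⟨a1, a2, a3, a4, a5⟩, b1, b2, b3, b4, b5⟩ := h
  linarith

theorem meets_LR_UL_pm : Meets .LR .UL (1) (-1) := by
  right; left
  refine ⟨(1, 0), by decide, by decide, fun x y => ?_⟩
  simp only [rel, cut]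
  push_cast
  constructor
  · rintro ⟨⟨a1, a2, a3, a4, a5⟩, b1, b2, b3, b4, b5⟩
    constructor <;> linarith
  · rintro ⟨rfl, rfl⟩
    norm_num

theorem meets_UL_S_pm : Meets .UL .S (1) (-1) := by
  left
  intro x y h
  simp only [rel, cut] at h
  push_cast at h
  obtain ⟨⟨a1, a2, a3, a4, a5⟩, b1, b2, b3, b4, b5⟩ := h
  linarith

theorem meets_UL_LL_pm : Meets .UL .LL (1) (-1) := by
  left
  intro x y h
  simp only [rel, cut] at h
  push_cast at h
  obtain ⟨⟨a1, a2, a3, a4, a5⟩, b1, b2, b3, b4, b5⟩ := h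
  linarith

theorem meets_UL_UR_pm : Meets .UL .UR (1) (-1) := by
  left
  intro x y h
  simp only [rel, cut] at h
  push_cast at h
  obtain ⟨⟨a1, a2, a3, a4, a5⟩, b1, b2, b3, b4, b5⟩ := h
  linarith

theorem meets_UL_LR_pm : Meets .UL .LR (1) (-1) := by
  left
  intro x y h
  simp only [rel, cut] at h
  push_cast at h
  obtain ⟨⟨a1, a2, a3, a4, a5⟩, b1, b2, b3, b4, b5⟩ := h
  linarith

theorem meets_UL_UL_pm : Meets .UL .UL (1) (-1) := by
  left
  intro x y h
  simp only [rel, cut] at h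
  push_cast at h
  obtain ⟨⟨a1, a2, a3, a4, a5⟩, b1, b2, b3, b4, b5⟩ := h
  linarith

theorem meets_S_S_pz : Meets .S .S (1) (0) := by
  right; right
  refine ⟨((1, 0), (1, 1)), by decide, by decide, by decide, fun x y => ?_⟩
  simp only [rel, cut]
  push_cast
  constructor
  · rintro ⟨⟨a1, a2, a3, a4, a5⟩, b1, b2, b3, b4, b5⟩
    exact ⟨y, by linarith, by linarith, by linarith, by linarith⟩
  · rintro ⟨t, t0, t1, rfl, rfl⟩
    refine ⟨⟨?_, ?_, ?_, ?_, ?_⟩, ?_, ?_, ?_, ?_, ?_⟩ <;> linarith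

theorem meets_S_LL_pz : Meets .S .LL (1) (0) := by
  right; right
  refine ⟨((1, 0), (1, 1)), by decide, by decide, by decide, fun x y => ?_⟩
  simp only [rel, cut]
  push_cast
  constructor
  · rintro ⟨⟨a1, a2, a3, a4, a5⟩, b1, b2, b3, b4, b5⟩
    exact ⟨y, by linarith, by linarith, by linarith, by linarith⟩
  · rintro ⟨t, t0, t1, rfl, rfl⟩
    refine ⟨⟨?_, ?_, ?_, ?_, ?_⟩, ?_, ?_, ?_, ?_, ?_⟩ <;> linarith

theorem meets_S_UR_pz : Meets .S .UR (1) (0) := by
  right; left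
  refine ⟨(1, 1), by decide, by decide, fun x y => ?_⟩
  simp only [rel, cut]
  push_cast
  constructor
  · rintro ⟨⟨a1, a2, a3, a4, a5⟩, b1, b2, b3, b4, b5⟩
    constructor <;> linarith
  · rintro ⟨rfl, rfl⟩
    norm_num

theorem meets_S_LR_pz : Meets .S .LR (1) (0) := by
  right; left
  refine ⟨(1, 0), by decide, by decide, fun x y => ?_⟩
  simp only [rel, cut]
  push_cast
  constructor
  · rintro ⟨⟨a1, a2, a3, a4, a5⟩, b1, b2, b3, b4, b5⟩
    constructor <;> linarith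
  · rintro ⟨rfl, rfl⟩
    norm_num

theorem meets_S_UL_pz : Meets .S .UL (1) (0) := by
  right; right
  refine ⟨((1, 0), (1, 1)), by decide, by decide, by decide, fun x y => ?_⟩
  simp only [rel, cut]
  push_cast
  constructor
  · rintro ⟨⟨a1, a2, a3, a4, a5⟩, b1, b2, b3, b4, b5⟩
    exact ⟨y, by linarith, by linarith, by linarith, by linarith⟩
  · rintro ⟨t, t0, t1, rfl, rfl⟩
    refine ⟨⟨?_, ?_, ?_, ?_, ?_⟩, ?_, ?_, ?_, ?_, ?_⟩ <;> linarith

theorem meets_LL_S_pz : Meets .LL .S (1) (0) := by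
  right; left
  refine ⟨(1, 0), by decide, by decide, fun x y => ?_⟩
  simp only [rel, cut]
  push_cast
  constructor
  · rintro ⟨⟨a1, a2, a3, a4, a5⟩, b1, b2, b3, b4, b5⟩
    constructor <;> linarith
  · rintro ⟨rfl, rfl⟩
    norm_num

theorem meets_LL_LL_pz : Meets .LL .LL (1) (0) := by
  right; left
  refine ⟨(1, 0), by decide, by decide, fun x y => ?_⟩
  simp only [rel, cut]
  push_cast
  constructor
  · rintro ⟨⟨a1, a2, a3, a4, a5⟩, b1, b2, b3, b4, b5⟩
    constructor <;> linarith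
  · rintro ⟨rfl, rfl⟩
    norm_num

theorem meets_LL_UR_pz : Meets .LL .UR (1) (0) := by
  left
  intro x y h
  simp only [rel, cut] at h
  push_cast at h
  obtain ⟨⟨a1, a2, a3, a4, a5⟩, b1, b2, b3, b4, b5⟩ := h
  linarith

theorem meets_LL_LR_pz : Meets .LL .LR (1) (0) := by
  right; left
  refine ⟨(1, 0), by decide, by decide, fun x y => ?_⟩
  simp only [rel, cut]
  push_cast
  constructor
  · rintro ⟨⟨a1, a2, a3, a4, a5⟩, b1, b2, b3, b4, b5⟩
    constructor <;> linarith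
  · rintro ⟨rfl, rfl⟩
    norm_num

theorem meets_LL_UL_pz : Meets .LL .UL (1) (0) := by
  right; left
  refine ⟨(1, 0), by decide, by decide, fun x y => ?_⟩
  simp only [rel, cut]
  push_cast
  constructor
  · rintro ⟨⟨a1, a2, a3, a4, a5⟩, b1, b2, b3, b4, b5⟩
    constructor <;> linarith
  · rintro ⟨rfl, rfl⟩
    norm_num

theorem meets_UR_S_pz : Meets .UR .S (1) (0) := by
  right; right
  refine ⟨((1, 0), (1, 1)), by decide, by decide, by decide, fun x y => ?_⟩
  simp only [rel, cut]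
  push_cast
  constructor
  · rintro ⟨⟨a1, a2, a3, a4, a5⟩, b1, b2, b3, b4, b5⟩
    exact ⟨y, by linarith, by linarith, by linarith, by linarith⟩
  · rintro ⟨t, t0, t1, rfl, rfl⟩
    refine ⟨⟨?_, ?_, ?_, ?_, ?_⟩, ?_, ?_, ?_, ?_, ?_⟩ <;> linarith

theorem meets_UR_LL_pz : Meets .UR .LL (1) (0) := by
  right; right
  refine ⟨((1, 0), (1, 1)), by decide, by decide, by decide, fun x y => ?_⟩
  simp only [rel, cut]
  push_cast
  constructor
  · rintro ⟨⟨a1, a2, a3, a4, a5⟩, b1, b2, b3, b4, b5⟩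
    exact ⟨y, by linarith, by linarith, by linarith, by linarith⟩
  · rintro ⟨t, t0, t1, rfl, rfl⟩
    refine ⟨⟨?_, ?_, ?_, ?_, ?_⟩, ?_, ?_, ?_, ?_, ?_⟩ <;> linarith

theorem meets_UR_UR_pz : Meets .UR .UR (1) (0) := by
  right; left
  refine ⟨(1, 1), by decide, by decide, fun x y => ?_⟩
  simp only [rel, cut]
  push_cast
  constructor
  · rintro ⟨⟨a1, a2, a3, a4, a5⟩, b1, b2, b3, b4, b5⟩
    constructor <;> linarith
  · rintro ⟨rfl, rfl⟩
    norm_num

theorem meets_UR_LR_pz : Meets .UR .LR (1) (0) := by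
  right; left
  refine ⟨(1, 0), by decide, by decide, fun x y => ?_⟩
  simp only [rel, cut]
  push_cast
  constructor
  · rintro ⟨⟨a1, a2, a3, a4, a5⟩, b1, b2, b3, b4, b5⟩
    constructor <;> linarith
  · rintro ⟨rfl, rfl⟩
    norm_num

theorem meets_UR_UL_pz : Meets .UR .UL (1) (0) := by
  right; right
  refine ⟨((1, 0), (1, 1)), by decide, by decide, by decide, fun x y => ?_⟩
  simp only [rel, cut]
  push_cast
  constructor
  · rintro ⟨⟨a1, a2, a3, a4, a5⟩, b1, b2, b3, b4, b5⟩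
    exact ⟨y, by linarith, by linarith, by linarith, by linarith⟩
  · rintro ⟨t, t0, t1, rfl, rfl⟩
    refine ⟨⟨?_, ?_, ?_, ?_, ?_⟩, ?_, ?_, ?_, ?_, ?_⟩ <;> linarith

theorem meets_LR_S_pz : Meets .LR .S (1) (0) := by
  right; right
  refine ⟨((1, 0), (1, 1)), by decide, by decide, by decide, fun x y => ?_⟩
  simp only [rel, cut]
  push_cast
  constructor
  · rintro ⟨⟨a1, a2, a3, a4, a5⟩, b1, b2, b3, b4, b5⟩
    exact ⟨y, by linarith, by linarith, by linarith, by linarith⟩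
  · rintro ⟨t, t0, t1, rfl, rfl⟩
    refine ⟨⟨?_, ?_, ?_, ?_, ?_⟩, ?_, ?_, ?_, ?_, ?_⟩ <;> linarith

theorem meets_LR_LL_pz : Meets .LR .LL (1) (0) := by
  right; right
  refine ⟨((1, 0), (1, 1)), by decide, by decide, by decide, fun x y => ?_⟩
  simp only [rel, cut]
  push_cast
  constructor
  · rintro ⟨⟨a1, a2, a3, a4, a5⟩, b1, b2, b3, b4, b5⟩
    exact ⟨y, by linarith, by linarith, by linarith, by linarith⟩
  · rintro ⟨t, t0, t1, rfl, rfl⟩
    refine ⟨⟨?_, ?_, ?_, ?_, ?_⟩, ?_, ?_, ?_, ?_, ?_⟩ <;> linarith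

theorem meets_LR_UR_pz : Meets .LR .UR (1) (0) := by
  right; left
  refine ⟨(1, 1), by decide, by decide, fun x y => ?_⟩
  simp only [rel, cut]
  push_cast
  constructor
  · rintro ⟨⟨a1, a2, a3, a4, a5⟩, b1, b2, b3, b4, b5⟩
    constructor <;> linarith
  · rintro ⟨rfl, rfl⟩
    norm_num

theorem meets_LR_LR_pz : Meets .LR .LR (1) (0) := by
  right; left
  refine ⟨(1, 0), by decide, by decide, fun x y => ?_⟩
  simp only [rel, cut]
  push_cast
  constructor
  · rintro ⟨⟨a1, a2, a3, a4, a5⟩, b1, b2, b3, b4, b5⟩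
    constructor <;> linarith
  · rintro ⟨rfl, rfl⟩
    norm_num

theorem meets_LR_UL_pz : Meets .LR .UL (1) (0) := by
  right; right
  refine ⟨((1, 0), (1, 1)), by decide, by decide, by decide, fun x y => ?_⟩
  simp only [rel, cut]
  push_cast
  constructor
  · rintro ⟨⟨a1, a2, a3, a4, a5⟩, b1, b2, b3, b4, b5⟩
    exact ⟨y, by linarith, by linarith, by linarith, by linarith⟩
  · rintro ⟨t, t0, t1, rfl, rfl⟩
    refine ⟨⟨?_, ?_, ?_, ?_, ?_⟩, ?_, ?_, ?_, ?_, ?_⟩ <;> linarith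

theorem meets_UL_S_pz : Meets .UL .S (1) (0) := by
  right; left
  refine ⟨(1, 1), by decide, by decide, fun x y => ?_⟩
  simp only [rel, cut]
  push_cast
  constructor
  · rintro ⟨⟨a1, a2, a3, a4, a5⟩, b1, b2, b3, b4, b5⟩
    constructor <;> linarith
  · rintro ⟨rfl, rfl⟩
    norm_num

theorem meets_UL_LL_pz : Meets .UL .LL (1) (0) := by
  right; left
  refine ⟨(1, 1), by decide, by decide, fun x y => ?_⟩
  simp only [rel, cut]
  push_cast
  constructor
  · rintro ⟨⟨a1, a2, a3, a4, a5⟩, b1, b2, b3, b4, b5⟩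
    constructor <;> linarith
  · rintro ⟨rfl, rfl⟩
    norm_num

theorem meets_UL_UR_pz : Meets .UL .UR (1) (0) := by
  right; left
  refine ⟨(1, 1), by decide, by decide, fun x y => ?_⟩
  simp only [rel, cut]
  push_cast
  constructor
  · rintro ⟨⟨a1, a2, a3, a4, a5⟩, b1, b2, b3, b4, b5⟩
    constructor <;> linarith
  · rintro ⟨rfl, rfl⟩
    norm_num

theorem meets_UL_LR_pz : Meets .UL .LR (1) (0) := by
  left
  intro x y h
  simp only [rel, cut] at h
  push_cast at h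
  obtain ⟨⟨a1, a2, a3, a4, a5⟩, b1, b2, b3, b4, b5⟩ := h
  linarith

theorem meets_UL_UL_pz : Meets .UL .UL (1) (0) := by
  right; left
  refine ⟨(1, 1), by decide, by decide, fun x y => ?_⟩
  simp only [rel, cut]
  push_cast
  constructor
  · rintro ⟨⟨a1, a2, a3, a4, a5⟩, b1, b2, b3, b4, b5⟩
    constructor <;> linarith
  · rintro ⟨rfl, rfl⟩
    norm_num

theorem meets_S_S_pp : Meets .S .S (1) (1) := by
  right; left
  refine ⟨(1, 1), by decide, by decide, fun x y => ?_⟩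
  simp only [rel, cut]
  push_cast
  constructor
  · rintro ⟨⟨a1, a2, a3, a4, a5⟩, b1, b2, b3, b4, b5⟩
    constructor <;> linarith
  · rintro ⟨rfl, rfl⟩
    norm_num

theorem meets_S_LL_pp : Meets .S .LL (1) (1) := by
  right; left
  refine ⟨(1, 1), by decide, by decide, fun x y => ?_⟩
  simp only [rel, cut]
  push_cast
  constructor
  · rintro ⟨⟨a1, a2, a3, a4, a5⟩, b1, b2, b3, b4, b5⟩
    constructor <;> linarith
  · rintro ⟨rfl, rfl⟩
    norm_num

theorem meets_S_UR_pp : Meets .S .UR (1) (1) := by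
  left
  intro x y h
  simp only [rel, cut] at h
  push_cast at h
  obtain ⟨⟨a1, a2, a3, a4, a5⟩, b1, b2, b3, b4, b5⟩ := h
  linarith

theorem meets_S_LR_pp : Meets .S .LR (1) (1) := by
  right; left
  refine ⟨(1, 1), by decide, by decide, fun x y => ?_⟩
  simp only [rel, cut]
  push_cast
  constructor
  · rintro ⟨⟨a1, a2, a3, a4, a5⟩, b1, b2, b3, b4, b5⟩
    constructor <;> linarith
  · rintro ⟨rfl, rfl⟩
    norm_num

theorem meets_S_UL_pp : Meets .S .UL (1) (1) := by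
  right; left
  refine ⟨(1, 1), by decide, by decide, fun x y => ?_⟩
  simp only [rel, cut]
  push_cast
  constructor
  · rintro ⟨⟨a1, a2, a3, a4, a5⟩, b1, b2, b3, b4, b5⟩
    constructor <;> linarith
  · rintro ⟨rfl, rfl⟩
    norm_num

theorem meets_LL_S_pp : Meets .LL .S (1) (1) := by
  left
  intro x y h
  simp only [rel, cut] at h
  push_cast at h
  obtain ⟨⟨a1, a2, a3, a4, a5⟩, b1, b2, b3, b4, b5⟩ := h
  linarith

theorem meets_LL_LL_pp : Meets .LL .LL (1) (1) := by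
  left
  intro x y h
  simp only [rel, cut] at h
  push_cast at h
  obtain ⟨⟨a1, a2, a3, a4, a5⟩, b1, b2, b3, b4, b5⟩ := h
  linarith

theorem meets_LL_UR_pp : Meets .LL .UR (1) (1) := by
  left
  intro x y h
  simp only [rel, cut] at h
  push_cast at h
  obtain ⟨⟨a1, a2, a3, a4, a5⟩, b1, b2, b3, b4, b5⟩ := h
  linarith

theorem meets_LL_LR_pp : Meets .LL .LR (1) (1) := by
  left
  intro x y h
  simp only [rel, cut] at h
  push_cast at h
  obtain ⟨⟨a1, a2, a3, a4, a5⟩, b1, b2, b3, b4, b5⟩ := h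
  linarith

theorem meets_LL_UL_pp : Meets .LL .UL (1) (1) := by
  left
  intro x y h
  simp only [rel, cut] at h
  push_cast at h
  obtain ⟨⟨a1, a2, a3, a4, a5⟩, b1, b2, b3, b4, b5⟩ := h
  linarith

theorem meets_UR_S_pp : Meets .UR .S (1) (1) := by
  right; left
  refine ⟨(1, 1), by decide, by decide, fun x y => ?_⟩
  simp only [rel, cut]
  push_cast
  constructor
  · rintro ⟨⟨a1, a2, a3, a4, a5⟩, b1, b2, b3, b4, b5⟩
    constructor <;> linarith
  · rintro ⟨rfl, rfl⟩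
    norm_num

theorem meets_UR_LL_pp : Meets .UR .LL (1) (1) := by
  right; left
  refine ⟨(1, 1), by decide, by decide, fun x y => ?_⟩
  simp only [rel, cut]
  push_cast
  constructor
  · rintro ⟨⟨a1, a2, a3, a4, a5⟩, b1, b2, b3, b4, b5⟩
    constructor <;> linarith
  · rintro ⟨rfl, rfl⟩
    norm_num

theorem meets_UR_UR_pp : Meets .UR .UR (1) (1) := by
  left
  intro x y h
  simp only [rel, cut] at h
  push_cast at h
  obtain ⟨⟨a1, a2, a3, a4, a5⟩, b1, b2, b3, b4, b5⟩ := h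
  linarith

theorem meets_UR_LR_pp : Meets .UR .LR (1) (1) := by
  right; left
  refine ⟨(1, 1), by decide, by decide, fun x y => ?_⟩
  simp only [rel, cut]
  push_cast
  constructor
  · rintro ⟨⟨a1, a2, a3, a4, a5⟩, b1, b2, b3, b4, b5⟩
    constructor <;> linarith
  · rintro ⟨rfl, rfl⟩
    norm_num

theorem meets_UR_UL_pp : Meets .UR .UL (1) (1) := by
  right; left
  refine ⟨(1, 1), by decide, by decide, fun x y => ?_⟩
  simp only [rel, cut]
  push_cast
  constructor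
  · rintro ⟨⟨a1, a2, a3, a4, a5⟩, b1, b2, b3, b4, b5⟩
    constructor <;> linarith
  · rintro ⟨rfl, rfl⟩
    norm_num

theorem meets_LR_S_pp : Meets .LR .S (1) (1) := by
  right; left
  refine ⟨(1, 1), by decide, by decide, fun x y => ?_⟩
  simp only [rel, cut]
  push_cast
  constructor
  · rintro ⟨⟨a1, a2, a3, a4, a5⟩, b1, b2, b3, b4, b5⟩
    constructor <;> linarith
  · rintro ⟨rfl, rfl⟩
    norm_num

theorem meets_LR_LL_pp : Meets .LR .LL (1) (1) := by
  right; left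
  refine ⟨(1, 1), by decide, by decide, fun x y => ?_⟩
  simp only [rel, cut]
  push_cast
  constructor
  · rintro ⟨⟨a1, a2, a3, a4, a5⟩, b1, b2, b3, b4, b5⟩
    constructor <;> linarith
  · rintro ⟨rfl, rfl⟩
    norm_num

theorem meets_LR_UR_pp : Meets .LR .UR (1) (1) := by
  left
  intro x y h
  simp only [rel, cut] at h
  push_cast at h
  obtain ⟨⟨a1, a2, a3, a4, a5⟩, b1, b2, b3, b4, b5⟩ := h
  linarith

theorem meets_LR_LR_pp : Meets .LR .LR (1) (1) := by
  right; left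
  refine ⟨(1, 1), by decide, by decide, fun x y => ?_⟩
  simp only [rel, cut]
  push_cast
  constructor
  · rintro ⟨⟨a1, a2, a3, a4, a5⟩, b1, b2, b3, b4, b5⟩
    constructor <;> linarith
  · rintro ⟨rfl, rfl⟩
    norm_num

theorem meets_LR_UL_pp : Meets .LR .UL (1) (1) := by
  right; left
  refine ⟨(1, 1), by decide, by decide, fun x y => ?_⟩
  simp only [rel, cut]
  push_cast
  constructor
  · rintro ⟨⟨a1, a2, a3, a4, a5⟩, b1, b2, b3, b4, b5⟩
    constructor <;> linarith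
  · rintro ⟨rfl, rfl⟩
    norm_num

theorem meets_UL_S_pp : Meets .UL .S (1) (1) := by
  right; left
  refine ⟨(1, 1), by decide, by decide, fun x y => ?_⟩
  simp only [rel, cut]
  push_cast
  constructor
  · rintro ⟨⟨a1, a2, a3, a4, a5⟩, b1, b2, b3, b4, b5⟩
    constructor <;> linarith
  · rintro ⟨rfl, rfl⟩
    norm_num

theorem meets_UL_LL_pp : Meets .UL .LL (1) (1) := by
  right; left
  refine ⟨(1, 1), by decide, by decide, fun x y => ?_⟩
  simp only [rel, cut]
  push_cast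
  constructor
  · rintro ⟨⟨a1, a2, a3, a4, a5⟩, b1, b2, b3, b4, b5⟩
    constructor <;> linarith
  · rintro ⟨rfl, rfl⟩
    norm_num

theorem meets_UL_UR_pp : Meets .UL .UR (1) (1) := by
  left
  intro x y h
  simp only [rel, cut] at h
  push_cast at h
  obtain ⟨⟨a1, a2, a3, a4, a5⟩, b1, b2, b3, b4, b5⟩ := h
  linarith

theorem meets_UL_LR_pp : Meets .UL .LR (1) (1) := by
  right; left
  refine ⟨(1, 1), by decide, by decide, fun x y => ?_⟩
  simp only [rel, cut]
  push_cast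
  constructor
  · rintro ⟨⟨a1, a2, a3, a4, a5⟩, b1, b2, b3, b4, b5⟩
    constructor <;> linarith
  · rintro ⟨rfl, rfl⟩
    norm_num

theorem meets_UL_UL_pp : Meets .UL .UL (1) (1) := by
  right; left
  refine ⟨(1, 1), by decide, by decide, fun x y => ?_⟩
  simp only [rel, cut]
  push_cast
  constructor
  · rintro ⟨⟨a1, a2, a3, a4, a5⟩, b1, b2, b3, b4, b5⟩
    constructor <;> linarith
  · rintro ⟨rfl, rfl⟩
    norm_num

theorem meets (k k' : Kind) (di dj : ℤ) (hne : ¬ (k = k' ∧ di = 0 ∧ dj = 0))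
    (hcomp : di = 0 → dj = 0 → ∃ s t, valid k s t = true ∧ valid k' s t = true) :
    Meets k k' di dj := by
  by_cases hfar : di ≤ -2 ∨ 2 ≤ di ∨ dj ≤ -2 ∨ 2 ≤ dj
  · left
    rintro x y ⟨⟨a1, a2, a3, a4, -⟩, b1, b2, b3, b4, -⟩
    rcases hfar with h | h | h | h
    · have : (di : ℝ) ≤ -2 := by exact_mod_cast h
      linarith
    · have : (2 : ℝ) ≤ di := by exact_mod_cast h
      linarith
    · have : (dj : ℝ) ≤ -2 := by exact_mod_cast h
      linarith
    · have : (2 : ℝ) ≤ dj := by exact_mod_cast h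
      linarith
  have h1 : di = -1 ∨ di = 0 ∨ di = 1 := by omega
  have h2 : dj = -1 ∨ dj = 0 ∨ dj = 1 := by omega
  rcases h1 with rfl | rfl | rfl <;> rcases h2 with rfl | rfl | rfl
  · cases k <;> cases k'
    exacts [meets_S_S_mm, meets_S_LL_mm, meets_S_UR_mm, meets_S_LR_mm, meets_S_UL_mm, meets_LL_S_mm, meets_LL_LL_mm, meets_LL_UR_mm, meets_LL_LR_mm, meets_LL_UL_mm, meets_UR_S_mm, meets_UR_LL_mm, meets_UR_UR_mm, meets_UR_LR_mm, meets_UR_UL_mm, meets_LR_S_mm, meets_LR_LL_mm, meets_LR_UR_mm, meets_LR_LR_mm, meets_LR_UL_mm, meets_UL_S_mm, meets_UL_LL_mm, meets_UL_UR_mm, meets_UL_LR_mm, meets_UL_UL_mm]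
  · cases k <;> cases k'
    exacts [meets_S_S_mz, meets_S_LL_mz, meets_S_UR_mz, meets_S_LR_mz, meets_S_UL_mz, meets_LL_S_mz, meets_LL_LL_mz, meets_LL_UR_mz, meets_LL_LR_mz, meets_LL_UL_mz, meets_UR_S_mz, meets_UR_LL_mz, meets_UR_UR_mz, meets_UR_LR_mz, meets_UR_UL_mz, meets_LR_S_mz, meets_LR_LL_mz, meets_LR_UR_mz, meets_LR_LR_mz, meets_LR_UL_mz, meets_UL_S_mz, meets_UL_LL_mz, meets_UL_UR_mz, meets_UL_LR_mz, meets_UL_UL_mz]
  · cases k <;> cases k'
    exacts [meets_S_S_mp, meets_S_LL_mp, meets_S_UR_mp, meets_S_LR_mp, meets_S_UL_mp, meets_LL_S_mp, meets_LL_LL_mp, meets_LL_UR_mp, meets_LL_LR_mp, meets_LL_UL_mp, meets_UR_S_mp, meets_UR_LL_mp, meets_UR_UR_mp, meets_UR_LR_mp, meets_UR_UL_mp, meets_LR_S_mp, meets_LR_LL_mp, meets_LR_UR_mp, meets_LR_LR_mp, meets_LR_UL_mp, meets_UL_S_mp, meets_UL_LL_mp, meets_UL_UR_mp, meets_UL_LR_mp, meets_UL_UL_mp]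
  · cases k <;> cases k'
    exacts [meets_S_S_zm, meets_S_LL_zm, meets_S_UR_zm, meets_S_LR_zm, meets_S_UL_zm, meets_LL_S_zm, meets_LL_LL_zm, meets_LL_UR_zm, meets_LL_LR_zm, meets_LL_UL_zm, meets_UR_S_zm, meets_UR_LL_zm, meets_UR_UR_zm, meets_UR_LR_zm, meets_UR_UL_zm, meets_LR_S_zm, meets_LR_LL_zm, meets_LR_UR_zm, meets_LR_LR_zm, meets_LR_UL_zm, meets_UL_S_zm, meets_UL_LL_zm, meets_UL_UR_zm, meets_UL_LR_zm, meets_UL_UL_zm]
  · have h3 := hcomp rfl rfl
    cases k <;> cases k'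
    · exact absurd ⟨rfl, rfl, rfl⟩ hne
    · exact absurd h3 (by decide)
    · exact absurd h3 (by decide)
    · exact absurd h3 (by decide)
    · exact absurd h3 (by decide)
    · exact absurd h3 (by decide)
    · exact absurd ⟨rfl, rfl, rfl⟩ hne
    · exact meets_LL_UR_zz
    · exact absurd h3 (by decide)
    · exact absurd h3 (by decide)
    · exact absurd h3 (by decide)
    · exact meets_UR_LL_zz
    · exact absurd ⟨rfl, rfl, rfl⟩ hne
    · exact absurd h3 (by decide)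
    · exact absurd h3 (by decide)
    · exact absurd h3 (by decide)
    · exact absurd h3 (by decide)
    · exact absurd h3 (by decide)
    · exact absurd ⟨rfl, rfl, rfl⟩ hne
    · exact meets_LR_UL_zz
    · exact absurd h3 (by decide)
    · exact absurd h3 (by decide)
    · exact absurd h3 (by decide)
    · exact meets_UL_LR_zz
    · exact absurd ⟨rfl, rfl, rfl⟩ hne
  · cases k <;> cases k'
    exacts [meets_S_S_zp, meets_S_LL_zp, meets_S_UR_zp, meets_S_LR_zp, meets_S_UL_zp, meets_LL_S_zp, meets_LL_LL_zp, meets_LL_UR_zp, meets_LL_LR_zp, meets_LL_UL_zp, meets_UR_S_zp, meets_UR_LL_zp, meets_UR_UR_zp, meets_UR_LR_zp, meets_UR_UL_zp, meets_LR_S_zp, meets_LR_LL_zp, meets_LR_UR_zp, meets_LR_LR_zp, meets_LR_UL_zp, meets_UL_S_zp, meets_UL_LL_zp, meets_UL_UR_zp, meets_UL_LR_zp, meets_UL_UL_zp]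
  · cases k <;> cases k'
    exacts [meets_S_S_pm, meets_S_LL_pm, meets_S_UR_pm, meets_S_LR_pm, meets_S_UL_pm, meets_LL_S_pm, meets_LL_LL_pm, meets_LL_UR_pm, meets_LL_LR_pm, meets_LL_UL_pm, meets_UR_S_pm, meets_UR_LL_pm, meets_UR_UR_pm, meets_UR_LR_pm, meets_UR_UL_pm, meets_LR_S_pm, meets_LR_LL_pm, meets_LR_UR_pm, meets_LR_LR_pm, meets_LR_UL_pm, meets_UL_S_pm, meets_UL_LL_pm, meets_UL_UR_pm, meets_UL_LR_pm, meets_UL_UL_pm]
  · cases k <;> cases k'
    exacts [meets_S_S_pz, meets_S_LL_pz, meets_S_UR_pz, meets_S_LR_pz, meets_S_UL_pz, meets_LL_S_pz, meets_LL_LL_pz, meets_LL_UR_pz, meets_LL_LR_pz, meets_LL_UL_pz, meets_UR_S_pz, meets_UR_LL_pz, meets_UR_UR_pz, meets_UR_LR_pz, meets_UR_UL_pz, meets_LR_S_pz, meets_LR_LL_pz, meets_LR_UR_pz, meets_LR_LR_pz, meets_LR_UL_pz, meets_UL_S_pz, meets_UL_LL_pz, meets_UL_UR_pz, meets_UL_LR_pz, meets_UL_UL_pz]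
  · cases k <;> cases k'
    exacts [meets_S_S_pp, meets_S_LL_pp, meets_S_UR_pp, meets_S_LR_pp, meets_S_UL_pp, meets_LL_S_pp, meets_LL_LL_pp, meets_LL_UR_pp, meets_LL_LR_pp, meets_LL_UL_pp, meets_UR_S_pp, meets_UR_LL_pp, meets_UR_UR_pp, meets_UR_LR_pp, meets_UR_UL_pp, meets_LR_S_pp, meets_LR_LL_pp, meets_LR_UR_pp, meets_LR_LR_pp, meets_LR_UL_pp, meets_UL_S_pp, meets_UL_LL_pp, meets_UL_UR_pp, meets_UL_LR_pp, meets_UL_UL_pp]

end Pool.Agent.P.MP_331808_co
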