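import Mathlib
import Pool.Agent.P.MP_331808_co.Geo
import Pool.Agent.P.MP_331808_co.Game

/-!
No convex patch contains the zigzag layer.
-/

namespace Pool.Agent.P.MP_331808_co

open Complex

/-- The primitive twelfth root of unity. -/
noncomputable def zeta : ℂ := ⟨√3 / 2, 1 / 2⟩

theorem zz : zeta * zeta = om := by
  apply Complex.ext <;> simp [zeta, om] <;> nlinarith [s3]

theorem zo : zeta * om = I := by
  apply Complex.ext <;> simp [zeta, om] <;> nlinarith [s3]

theorem zI : zeta * I = om - 1 := by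
  apply Complex.ext <;> simp [zeta, om]; norm_num

theorem norm_zeta : ‖zeta‖ = 1 := by
  have : normSq zeta = 1 := by simp [zeta, normSq_apply]; nlinarith [s3]
  rw [Complex.norm_def, this, Real.sqrt_one]

/-- The point with given integer coordinates. -/
noncomputable def emb (p : P4) : ℂ := p.1 + p.2.1 * zeta + p.2.2.1 * om + p.2.2.2 * I

theorem emb_add (p q : P4) : emb (p + q) = emb p + emb q := by
  simp only [emb, Prod.fst_add, Prod.snd_add]
  push_cast
  ring

theorem irr3 {a b : ℤ} (h : (a : ℝ) + b * √3 = 0) : a = 0 ∧ b = 0 := by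
  have hi : Irrational (√((3 : ℕ) : ℝ)) := Nat.prime_three.irrational_sqrt
  by_cases hb : b = 0
  · subst hb
    refine ⟨?_, rfl⟩
    have : (a : ℝ) = 0 := by simpa using h
    exact_mod_cast this
  · exfalso
    apply (irrational_iff_ne_rational _).mp hi (-a) b hb
    have hb' : (b : ℝ) ≠ 0 := by exact_mod_cast hb
    push_cast
    field_simp
    linarith

theorem emb_inj {p q : P4} (h : emb p = emb q) : p = q := by
  obtain ⟨a, b, c, d⟩ := p
  obtain ⟨a', b', c', d'⟩ := q
  have h1 := congrArg Complex.re h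
  have h2 := congrArg Complex.im h
  simp [emb, zeta, om] at h1 h2
  have e1 := @irr3 (2 * (a - a') + (c - c')) (b - b') (by push_cast; linarith)
  have e2 := @irr3 ((b - b') + 2 * (d - d')) (c - c') (by push_cast; linarith)
  simp only [Prod.mk.injEq]
  omega

theorem dir_inj : ∀ a b : Fin 12, dir a = dir b → a = b := by decide

theorem dir_succ (k : Fin 12) : emb (dir (k + 1)) = zeta * emb (dir k) := by
  have key : ∀ k : Fin 12, dir (k + 1) =
      (-(dir k).2.2.2, (dir k).1, (dir k).2.1 + (dir k).2.2.2, (dir k).2.2.1) := by decide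
  rw [key]
  simp only [emb]
  push_cast
  linear_combination (-((dir k).2.1 : ℂ)) * zz - ((dir k).2.2.1 : ℂ) * zo
    - ((dir k).2.2.2 : ℂ) * zI

theorem dir2 (k : Fin 12) : emb (dir (k + 2)) = om * emb (dir k) := by
  have : k + 2 = k + 1 + 1 := by rw [add_assoc]; rfl
  rw [this, dir_succ, dir_succ, ← mul_assoc, zz]

theorem dir3 (k : Fin 12) : emb (dir (k + 3)) = I * emb (dir k) := by
  have : k + 3 = k + 2 + 1 := by rw [add_assoc]; rfl
  rw [this, dir_succ, dir2, ← mul_assoc, zo]

theorem dir4 (k : Fin 12) : emb (dir (k + 4)) = (om - 1) * emb (dir k) := by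
  have : k + 4 = k + 3 + 1 := by rw [add_assoc]; rfl
  rw [this, dir_succ, dir3, ← mul_assoc, zI]

theorem dir5 (k : Fin 12) : emb (dir (k + 5)) = (I - zeta) * emb (dir k) := by
  have : k + 5 = k + 4 + 1 := by rw [add_assoc]; rfl
  rw [this, dir_succ, dir4, ← mul_assoc, mul_sub, zo, mul_one]

theorem dir6 (k : Fin 12) : emb (dir (k + 6)) = - emb (dir k) := by
  have : k + 6 = k + 3 + 3 := by rw [add_assoc]; rfl
  rw [this, dir3, dir3, ← mul_assoc, I_mul_I]
  ring

theorem norm_dir (k : Fin 12) : ‖emb (dir k)‖ = 1 := by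
  have h0 : ‖emb (dir 0)‖ = 1 := by simp [emb, dir]
  have hs : ∀ k : Fin 12, ‖emb (dir k)‖ = 1 → ‖emb (dir (k + 1))‖ = 1 := by
    intro k hk
    rw [dir_succ, norm_mul, hk, norm_zeta, one_mul]
  have h1 := hs _ h0
  have h2 := hs _ h1
  have h3 := hs _ h2
  have h4 := hs _ h3
  have h5 := hs _ h4
  have h6 := hs _ h5
  have h7 := hs _ h6
  have h8 := hs _ h7
  have h9 := hs _ h8
  have h10 := hs _ h9
  have h11 := hs _ h10
  fin_cases k
  exacts [h0, h1, h2, h3, h4, h5, h6, h7, h8, h9, h10, h11]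

/-- The triangle with given base vertex and direction belongs to `B`. -/
def TrB (B : Set (Set ℂ)) (w : ℂ) (p : P4) (k : Fin 12) : Prop :=
  tri (w + emb p) (emb (dir k)) ∈ B

/-- The square with given base vertex and direction belongs to `B`. -/
def SqB (B : Set (Set ℂ)) (w : ℂ) (p : P4) (k : Fin 12) : Prop :=
  sq (w + emb p) (emb (dir k)) ∈ B

theorem rules {B : Set (Set ℂ)} (hB : IsPatch B) (hc : Convex ℝ (⋃₀ B)) (w : ℂ) :
    Rules (TrB B w) (SqB B w) where
  rotT := by
    rintro p _ k _ h rfl rfl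
    unfold TrB at *
    rwa [emb_add, ← add_assoc, dir4, ← tri_rot]
  rotS := by
    rintro p _ k _ h rfl rfl
    unfold SqB at *
    rwa [emb_add, ← add_assoc, dir3, ← sq_rot]
  acr := by
    rintro p _ q k _ m l h1 h2 rfl rfl hq hm
    unfold TrB SqB at *
    rw [emb_add, ← add_assoc, dir6] at h1
    have hqB : w + emb q ∈ ⋃₀ B := by
      rcases h2 with h | h
      · exact ⟨_, h, subset_convexHull ℝ _ (by simp)⟩
      · exact ⟨_, h, subset_convexHull ℝ _ (by simp)⟩
    apply across hB.1 hB.2.1 hc (norm_dir k) h1 hqB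
    obtain ⟨c, hc1, hc2⟩ : ∃ c : ℂ, 0 < c.im ∧ emb (dir m) = c * emb (dir k) := by
      have h3 : (0 : ℝ) < √3 := by positivity
      rcases hm with rfl | rfl | rfl | rfl | rfl
      · exact ⟨zeta, by simp [zeta], dir_succ k⟩
      · exact ⟨om, by simp [om], dir2 k⟩
      · exact ⟨I, by simp, dir3 k⟩
      · exact ⟨om - 1, by simp [om], dir4 k⟩
      · exact ⟨I - zeta, by simp [zeta]; norm_num, dir5 k⟩
    rcases hq with rfl | rfl
    · rw [emb_add, ← add_assoc, hc2, side_add _ _ _ (norm_dir k)]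
      exact hc1
    · have : w + emb (p + dir k + dir m) = w + emb p + (1 + c) * emb (dir k) := by
        rw [emb_add, emb_add, hc2]; ring
      rw [this, side_add _ _ _ (norm_dir k)]
      simpa using hc1
  cntT := by
    intro v a b c d ha hb hc' hd hne
    unfold TrB at *
    have hv : ∀ k, IsVertex (tri (w + emb v) (emb (dir k))) (w + emb v) := fun k =>
      (vert_tri (norm_dir k) _).mpr (Or.inl rfl)
    have hinj : Function.Injective fun k => tri (w + emb v) (emb (dir k)) := fun x y h =>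
      dir_inj _ _ (emb_inj (tri_inj (norm_dir x) (norm_dir y) h))
    have hle := (counts_le hB ⟨_, ha, hv a⟩).1
    have hsub : (fun k => tri (w + emb v) (emb (dir k))) '' (({a, b, c, d} : Finset (Fin 12)) : Set _)
        ⊆ {T | T ∈ B ∧ IsTriangle T ∧ IsVertex T (w + emb v)} := by
      rintro _ ⟨k, hk, rfl⟩
      refine ⟨?_, isTriangle_tri (norm_dir k), hv k⟩
      simp only [Finset.coe_insert, Finset.coe_singleton, Set.mem_insert_iff,
        Set.mem_singleton_iff] at hk
      rcases hk with rfl | rfl | rfl | rfl <;> assumption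
    have h1 := (Set.encard_le_encard hsub).trans hle
    rw [hinj.encard_image, Set.encard_coe_eq_coe_finsetCard] at h1
    obtain ⟨n1, n2, n3, n4, n5, n6⟩ := hne
    rw [Finset.card_insert_of_notMem (by simp [n1, n2, n3]),
      Finset.card_insert_of_notMem (by simp [n4, n5]), Finset.card_pair n6] at h1
    norm_num at h1
  cntS := by
    intro v a b c ha hb hc' hne
    unfold SqB at *
    have hv : ∀ k, IsVertex (sq (w + emb v) (emb (dir k))) (w + emb v) := fun k =>
      (vert_sq (norm_dir k) _).mpr (Or.inl rfl)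
    have hinj : Function.Injective fun k => sq (w + emb v) (emb (dir k)) := fun x y h =>
      dir_inj _ _ (emb_inj (sq_inj (norm_dir x) (norm_dir y) h))
    have hle := (counts_le hB ⟨_, ha, hv a⟩).2
    have hsub : (fun k => sq (w + emb v) (emb (dir k))) '' (({a, b, c} : Finset (Fin 12)) : Set _)
        ⊆ {T | T ∈ B ∧ IsSquare T ∧ IsVertex T (w + emb v)} := by
      rintro _ ⟨k, hk, rfl⟩
      refine ⟨?_, isSquare_sq (norm_dir k), hv k⟩
      simp only [Finset.coe_insert, Finset.coe_singleton, Set.mem_insert_iff,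
        Set.mem_singleton_iff] at hk
      rcases hk with rfl | rfl | rfl <;> assumption
    have h1 := (Set.encard_le_encard hsub).trans hle
    rw [hinj.encard_image, Set.encard_coe_eq_coe_finsetCard] at h1
    obtain ⟨n1, n2, n3⟩ := hne
    rw [Finset.card_insert_of_notMem (by simp [n1, n2]), Finset.card_pair n3] at h1
    norm_num at h1

theorem shT {B : Set (Set ℂ)} {w : ℂ} {p p' s : P4} {k : Fin 12} (h : TrB B w p k)
    (e : p = s + p') : TrB B (w + emb s) p' k := by
  unfold TrB at *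
  rwa [e, emb_add, ← add_assoc] at h

theorem shS {B : Set (Set ℂ)} {w : ℂ} {p p' s : P4} {k : Fin 12} (h : SqB B w p k)
    (e : p = s + p') : SqB B (w + emb s) p' k := by
  unfold SqB at *
  rwa [e, emb_add, ← add_assoc] at h

/-- The nine tiles of the zigzag layer based at `w` belong to `B`. -/
def Layer (B : Set (Set ℂ)) (w : ℂ) : Prop :=
  TrB B w (-1, -2, 0, 0) 1 ∧ TrB B w (-1, -1, 0, 0) 3 ∧ TrB B w (-1, -1, 0, 0) 1 ∧
    TrB B w (-1, 0, 0, 0) 3 ∧ SqB B w (-1, 0, 0, 0) 0 ∧ TrB B w (0, 0, 0, 0) 1 ∧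
    TrB B w (0, 1, 0, 0) 3 ∧ SqB B w (0, 1, 0, 0) 0 ∧ SqB B w (1, 1, 0, 0) 0

theorem layer_step {B : Set (Set ℂ)} (hB : IsPatch B) (hc : Convex ℝ (⋃₀ B)) {w : ℂ}
    (h : Layer B w) : Layer B (w + emb (0, 0, 0, 1) + emb (-1, 0, 1, 0)) := by
  obtain ⟨a0, a1, a2, a3, a4, a5, a6, a7, a8⟩ := h
  obtain ⟨b0, b1, b2, b3, b4, b5, b6, b7, b8⟩ := stepB (rules hB hc (w + emb (0, 0, 0, 1)))
    ⟨shT a0 (by decide), shT a1 (by decide), shT a2 (by decide), shT a3 (by decide),
      shS a4 (by decide), shT a5 (by decide), shT a6 (by decide), shS a7 (by decide),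
      shS a8 (by decide)⟩
  exact stepA (rules hB hc (w + emb (0, 0, 0, 1) + emb (-1, 0, 1, 0)))
    ⟨shS b0 (by decide), shS b1 (by decide), shT b2 (by decide), shT b3 (by decide),
      shS b4 (by decide), shT b5 (by decide), shT b6 (by decide), shT b7 (by decide),
      shT b8 (by decide)⟩

theorem no_convex {B : Set (Set ℂ)} (hB : IsPatch B) (hc : Convex ℝ (⋃₀ B)) (w : ℂ) :
    ¬ Layer B w := by
  intro h
  have hall : ∀ n : ℕ, ∃ z : ℂ, w.im + n ≤ z.im ∧ Layer B z := by
    intro n
    induction n with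
    | zero => exact ⟨w, by simp, h⟩
    | succ n ih =>
      obtain ⟨z, hz, hl⟩ := ih
      refine ⟨_, ?_, layer_step hB hc hl⟩
      have h3 : (0 : ℝ) < √3 := by positivity
      simp [emb, om]
      linarith
  have hcomp : IsCompact (⋃₀ B) := hB.1.isCompact_sUnion fun T hT => isCompact_tile (hB.2.1.1 T hT)
  obtain ⟨R, hR⟩ := hcomp.isBounded.exists_norm_le
  obtain ⟨n, hn⟩ := exists_nat_gt (R - w.im)
  obtain ⟨z, hz, hl⟩ := hall n
  have hzB : z ∈ ⋃₀ B := ⟨_, hl.2.2.2.2.2.1, subset_convexHull ℝ _ (by simp [emb])⟩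
  have := hR z hzB
  have h2 := (le_abs_self _).trans (Complex.abs_im_le_norm z)
  linarith

end Pool.Agent.P.MP_331808_co
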