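import Mathlib
import Pool.Agent.P.MP_331808_co.NoConvex
import Pool.Agent.P.MP_331808_co.Grid

/-!
A piecewise linear homeomorphism of the plane that carries the cut grid to a tiling by unit
triangles and squares.
-/

namespace Pool.Agent.P.MP_331808_co

open Complex

/-- Horizontal zigzag. -/
noncomputable def hf (x : ℝ) : ℝ := 1 - |(|x| - 1)|

/-- Vertical zigzag. -/
noncomputable def gf (y : ℝ) : ℝ := ‖((y : ℝ) : AddCircle (2 : ℝ))‖

/-- Horizontal letters. -/
def sg (i : ℤ) : Bool := decide (i ≤ -2 ∨ i = 0)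

/-- Vertical letters. -/
def tg (j : ℤ) : Bool := decide (j % 2 = 0)

/-- Sign attached to a letter. -/
def sgn (s : Bool) : ℝ := if s then 1 else -1

theorem hf_lip (x y : ℝ) : |hf x - hf y| ≤ |x - y| := by
  unfold hf
  have h1 := abs_abs_sub_abs_le_abs_sub (|y| - 1) (|x| - 1)
  have h2 := abs_abs_sub_abs_le_abs_sub y x
  have e1 : 1 - |(|x| - 1)| - (1 - |(|y| - 1)|) = |(|y| - 1)| - |(|x| - 1)| := by ring
  have e2 : |y| - 1 - (|x| - 1) = |y| - |x| := by ring
  rw [e1, abs_sub_comm x y]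
  rw [e2] at h1
  exact h1.trans h2

theorem gf_lip (x y : ℝ) : |gf x - gf y| ≤ |x - y| := by
  unfold gf
  refine (abs_norm_sub_norm_le _ _).trans ?_
  rw [← AddCircle.coe_sub]
  exact QuotientAddGroup.norm_mk_le_norm

theorem hf_cell (i : ℤ) (x : ℝ) (h0 : 0 ≤ x) (h1 : x ≤ 1) :
    hf (i + x) = hf i + sgn (sg i) * x := by
  unfold hf sgn sg
  have hc : i ≤ -2 ∨ i = -1 ∨ i = 0 ∨ 1 ≤ i := by omega
  rcases hc with h | rfl | rfl | h
  · have : (i : ℝ) ≤ -2 := by exact_mod_cast h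
    rw [abs_of_nonpos (by linarith : (i : ℝ) + x ≤ 0), abs_of_nonpos (by linarith : (i : ℝ) ≤ 0),
      abs_of_nonneg (by linarith), abs_of_nonneg (by linarith)]
    simp [h]; ring
  · push_cast
    rw [abs_of_nonpos (by linarith : (-1 : ℝ) + x ≤ 0), abs_of_nonpos (by linarith)]
    simp; ring
  · push_cast
    rw [zero_add, abs_of_nonneg h0, abs_of_nonpos (by linarith)]
    simp
  · have : (1 : ℝ) ≤ i := by exact_mod_cast h
    rw [abs_of_nonneg (by linarith : 0 ≤ (i : ℝ) + x), abs_of_nonneg (by linarith : 0 ≤ (i : ℝ)),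
      abs_of_nonneg (by linarith), abs_of_nonneg (by linarith)]
    have : ¬ (i ≤ -2 ∨ i = 0) := by omega
    simp [this]; ring

theorem gf_eq (n : ℤ) (y t : ℝ) (hy : 0 ≤ y) (hy' : y ≤ 1)
    (ht : t = y + n * 2 ∨ t = -y + n * 2) : gf t = y := by
  unfold gf
  have hn : ((n * 2 : ℝ) : AddCircle (2 : ℝ)) = 0 :=
    (AddCircle.coe_eq_zero_iff (2 : ℝ)).mpr ⟨n, by simp⟩
  have hyy : ‖((y : ℝ) : AddCircle (2 : ℝ))‖ = y := by
    rw [(AddCircle.norm_coe_eq_abs_iff (2 : ℝ) two_ne_zero).mpr (by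
      rw [abs_of_nonneg hy]; simpa using hy'), abs_of_nonneg hy]
  rcases ht with rfl | rfl
  · rw [AddCircle.coe_add, hn, add_zero, hyy]
  · rw [AddCircle.coe_add, hn, add_zero, AddCircle.coe_neg, norm_neg, hyy]

theorem gf_cell (j : ℤ) (y : ℝ) (h0 : 0 ≤ y) (h1 : y ≤ 1) :
    gf (j + y) = gf j + sgn (tg j) * y := by
  unfold sgn tg
  rcases Int.emod_two_eq_zero_or_one j with h | h
  · obtain ⟨m, rfl⟩ : ∃ m, j = 2 * m := ⟨j / 2, by omega⟩
    rw [gf_eq m y _ h0 h1 (Or.inl (by push_cast; ring)),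
      gf_eq m 0 _ le_rfl zero_le_one (Or.inl (by push_cast; ring))]
    simp
  · obtain ⟨m, rfl⟩ : ∃ m, j = 2 * m + 1 := ⟨j / 2, by omega⟩
    rw [gf_eq (m + 1) (1 - y) _ (by linarith) (by linarith) (Or.inr (by push_cast; ring)),
      gf_eq m 1 _ zero_le_one le_rfl (Or.inl (by push_cast; ring))]
    simp; ring

/-- The nonlinear part. -/
noncomputable def nl (z : ℂ) : ℂ := ⟨hf z.re, -gf z.im⟩

theorem nl_lip (z w : ℂ) : ‖nl z - nl w‖ ≤ ‖z - w‖ := by
  rw [Complex.norm_def, Complex.norm_def]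
  apply Real.sqrt_le_sqrt
  simp only [normSq_apply, nl, sub_re, sub_im]
  have h1 := sq_le_sq.mpr (hf_lip z.re w.re)
  have h2 := sq_le_sq.mpr (gf_lip z.im w.im)
  nlinarith

theorem mu_ne : (1 + zeta) / 2 ≠ 0 := by
  intro h
  have := congrArg Complex.im h
  simp [zeta] at this

theorem lam_lt : ‖(zeta - 1) / (1 + zeta)‖ < 1 := by
  have h0 : 1 + zeta ≠ 0 := by
    intro h; apply mu_ne; rw [h]; simp
  rw [norm_div, div_lt_one (norm_pos_iff.mpr h0), Complex.norm_def, Complex.norm_def]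
  apply Real.sqrt_lt_sqrt (normSq_nonneg _)
  have h3 : (0 : ℝ) < √3 := by positivity
  simp [normSq_apply, zeta]
  nlinarith

theorem approx : ApproximatesLinearOn (fun z => z + (zeta - 1) / (1 + zeta) * nl z)
    ((ContinuousLinearEquiv.refl ℂ ℂ : ℂ ≃L[ℂ] ℂ) : ℂ →L[ℂ] ℂ) Set.univ
    ‖(zeta - 1) / (1 + zeta)‖₊ := by
  intro z _ w _
  have : z + (zeta - 1) / (1 + zeta) * nl z - (w + (zeta - 1) / (1 + zeta) * nl w)
      - ((ContinuousLinearEquiv.refl ℂ ℂ : ℂ ≃L[ℂ] ℂ) : ℂ →L[ℂ] ℂ) (z - w)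
      = (zeta - 1) / (1 + zeta) * (nl z - nl w) := by
    simp; ring
  rw [this, norm_mul]
  exact mul_le_mul_of_nonneg_left (nl_lip z w) (norm_nonneg _)

theorem exists_phi : ∃ Φ : ℂ ≃ₜ ℂ, ∀ z, Φ z = (1 + zeta) / 2 * z + (zeta - 1) / 2 * nl z := by
  have hc : Subsingleton ℂ ∨ ‖(zeta - 1) / (1 + zeta)‖₊ <
      ‖((ContinuousLinearEquiv.refl ℂ ℂ : ℂ ≃L[ℂ] ℂ).symm : ℂ →L[ℂ] ℂ)‖₊⁻¹ := by
    right
    have : ‖((ContinuousLinearEquiv.refl ℂ ℂ : ℂ ≃L[ℂ] ℂ).symm : ℂ →L[ℂ] ℂ)‖₊ = 1 := by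
      simp
    rw [this, inv_one]
    exact_mod_cast lam_lt
  refine ⟨(approx.toHomeomorph _ hc).trans (Homeomorph.mulLeft₀ _ mu_ne), fun z => ?_⟩
  have h0 : 1 + zeta ≠ 0 := by
    intro h; apply mu_ne; rw [h]; simp
  show (1 + zeta) / 2 * (z + (zeta - 1) / (1 + zeta) * nl z) = _
  field_simp

/-- The homeomorphism. -/
noncomputable def Phi : ℂ ≃ₜ ℂ := exists_phi.choose

theorem Phi_eq (z : ℂ) : Phi z = (1 + zeta) / 2 * z + (zeta - 1) / 2 * nl z :=
  exists_phi.choose_spec z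

/-- Horizontal edge vector. -/
noncomputable def al (s : Bool) : ℂ := if s then zeta else 1

/-- Vertical edge vector. -/
noncomputable def ga (t : Bool) : ℂ := if t then I else om - 1

/-- Vertices of the tiling. -/
noncomputable def Pt (i j : ℤ) : ℂ := Phi ⟨i, j⟩

theorem Phi_cell (i j : ℤ) (x y : ℝ) (hx0 : 0 ≤ x) (hx1 : x ≤ 1) (hy0 : 0 ≤ y) (hy1 : y ≤ 1) :
    Phi ⟨i + x, j + y⟩ = Pt i j + x * al (sg i) + y * ga (tg j) := by
  unfold Pt
  rw [Phi_eq, Phi_eq]
  have e1 : (⟨i + x, j + y⟩ : ℂ) = ⟨i, j⟩ + x + y * I := by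
    apply Complex.ext <;> simp
  have e2 : nl ⟨i + x, j + y⟩ = nl ⟨i, j⟩ + sgn (sg i) * x - sgn (tg j) * y * I := by
    apply Complex.ext
    · simp [nl, hf_cell i x hx0 hx1]
    · simp [nl, gf_cell j y hy0 hy1]; ring
  rw [e2, e1]
  unfold al ga sgn
  cases sg i <;> cases tg j <;> simp
  · linear_combination (y : ℂ) * zI
  · ring
  · linear_combination (y : ℂ) * zI
  · ring

theorem Pt_zero : Pt 0 0 = 0 := by
  unfold Pt
  rw [Phi_eq]
  have : nl ⟨(0 : ℤ), (0 : ℤ)⟩ = 0 := by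
    apply Complex.ext <;> simp [nl, hf, gf]
  rw [this]
  apply Complex.ext <;> simp

theorem Pt_inj {i j i' j' : ℤ} (h : Pt i j = Pt i' j') : i = i' ∧ j = j' := by
  have := Phi.injective h
  have h1 := congrArg Complex.re this
  have h2 := congrArg Complex.im this
  simp at h1 h2
  exact ⟨h1, h2⟩

theorem Pt_10 (i j : ℤ) : Pt (i + 1) j = Pt i j + al (sg i) := by
  have := Phi_cell i j 1 0 zero_le_one le_rfl le_rfl zero_le_one
  simpa [Pt] using this

theorem Pt_01 (i j : ℤ) : Pt i (j + 1) = Pt i j + ga (tg j) := by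
  have := Phi_cell i j 0 1 le_rfl zero_le_one zero_le_one le_rfl
  simpa [Pt] using this

theorem hull3 (a u v : ℂ) : convexHull ℝ ({a, a + u, a + v} : Set ℂ) =
    {z | ∃ s t : ℝ, 0 ≤ s ∧ 0 ≤ t ∧ s + t ≤ 1 ∧ z = a + s * u + t * v} := by
  apply Set.Subset.antisymm
  · apply convexHull_min
    · intro z hz
      simp only [Set.mem_insert_iff, Set.mem_singleton_iff] at hz
      rcases hz with rfl | rfl | rfl
      · exact ⟨0, 0, by norm_num, by norm_num, by norm_num, by simp⟩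
      · exact ⟨1, 0, by norm_num, by norm_num, by norm_num, by simp⟩
      · exact ⟨0, 1, by norm_num, by norm_num, by norm_num, by simp⟩
    · rintro _ ⟨s, t, hs, ht, hst, rfl⟩ _ ⟨s', t', hs', ht', hst', rfl⟩ p q hp hq hpq
      refine ⟨p * s + q * s', p * t + q * t', by positivity, by positivity, by nlinarith, ?_⟩
      have : q = 1 - p := by linarith
      subst this
      simp only [real_smul]
      push_cast
      ring
  · rintro _ ⟨s, t, hs, ht, hst, rfl⟩
    have := (convex_convexHull ℝ ({a, a + u, a + v} : Set ℂ)).sum_mem (t := Finset.univ)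
      (w := ![1 - s - t, s, t]) (z := ![a, a + u, a + v])
      (by intro i _; fin_cases i <;> simp <;> linarith) (by simp [Fin.sum_univ_three]; ring)
      (by intro i _; apply subset_convexHull; fin_cases i <;> simp)
    convert this using 1
    simp only [Fin.sum_univ_three, real_smul]
    simp
    ring

theorem hull4 (a u v : ℂ) : convexHull ℝ ({a, a + u, a + u + v, a + v} : Set ℂ) =
    {z | ∃ s t : ℝ, 0 ≤ s ∧ s ≤ 1 ∧ 0 ≤ t ∧ t ≤ 1 ∧ z = a + s * u + t * v} := by
  apply Set.Subset.antisymm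
  · apply convexHull_min
    · intro z hz
      simp only [Set.mem_insert_iff, Set.mem_singleton_iff] at hz
      rcases hz with rfl | rfl | rfl | rfl
      · exact ⟨0, 0, by norm_num, by norm_num, by norm_num, by norm_num, by simp⟩
      · exact ⟨1, 0, by norm_num, by norm_num, by norm_num, by norm_num, by simp⟩
      · exact ⟨1, 1, by norm_num, by norm_num, by norm_num, by norm_num, by simp⟩
      · exact ⟨0, 1, by norm_num, by norm_num, by norm_num, by norm_num, by simp⟩
    · rintro _ ⟨s, t, hs, hs1, ht, ht1, rfl⟩ _ ⟨s', t', hs', hs1', ht', ht1', rfl⟩ p q hp hq hpq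
      refine ⟨p * s + q * s', p * t + q * t', by positivity, by nlinarith, by positivity,
        by nlinarith, ?_⟩
      have : q = 1 - p := by linarith
      subst this
      simp only [real_smul]
      push_cast
      ring
  · rintro _ ⟨s, t, hs, hs1, ht, ht1, rfl⟩
    have h1 : 0 ≤ 1 - s := by linarith
    have h2 : 0 ≤ 1 - t := by linarith
    have := (convex_convexHull ℝ ({a, a + u, a + u + v, a + v} : Set ℂ)).sum_mem
      (t := Finset.univ) (w := ![(1 - s) * (1 - t), s * (1 - t), s * t, (1 - s) * t])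
      (z := ![a, a + u, a + u + v, a + v])
      (by intro i _; fin_cases i <;> simp <;> positivity) (by simp [Fin.sum_univ_four]; ring)
      (by intro i _; apply subset_convexHull; fin_cases i <;> simp)
    convert this using 1
    simp only [Fin.sum_univ_four, real_smul]
    simp
    ring

/-- A piece of the grid. -/
def piece (k : Kind) (i j : ℤ) : Set ℂ := {z | rel k (z.re - i) (z.im - j)}

/-- The tile obtained from a piece. -/
noncomputable def tile (k : Kind) (i j : ℤ) : Set ℂ := Phi '' piece k i j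

theorem mem_tile (k : Kind) (i j : ℤ) (z : ℂ) :
    z ∈ tile k i j ↔ ∃ x y : ℝ, rel k x y ∧ z = Pt i j + x * al (sg i) + y * ga (tg j) := by
  constructor
  · rintro ⟨w, hw, rfl⟩
    refine ⟨_, _, hw, ?_⟩
    rw [← Phi_cell i j _ _ hw.1 hw.2.1 hw.2.2.1 hw.2.2.2.1]
    congr 1
    apply Complex.ext <;> simp
  · rintro ⟨x, y, h, rfl⟩
    refine ⟨⟨i + x, j + y⟩, by simpa [piece] using h, ?_⟩
    exact Phi_cell i j _ _ h.1 h.2.1 h.2.2.1 h.2.2.2.1

theorem tile_S (i j : ℤ) (h : valid .S (sg i) (tg j) = true) :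
    tile .S i j = sq (Pt i j) (al (sg i)) ∧ ga (tg j) = I * al (sg i) := by
  have hg : ga (tg j) = I * al (sg i) := by
    revert h
    unfold al ga
    cases sg i <;> cases tg j <;> simp [valid]
    rw [mul_comm, zI]
  refine ⟨?_, hg⟩
  unfold sq
  rw [hull4, ← hg]
  ext z
  rw [mem_tile]
  simp only [rel, cut, le_refl, and_true, Set.mem_ofPred_eq, and_assoc]

theorem oz : om * zeta = I := by rw [mul_comm, zo]

theorem oI : om * I = I - zeta := by
  rw [← zo]; linear_combination zeta * om_sq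

theorem tile_LL (i j : ℤ) (h1 : sg i = true) (h2 : tg j = true) :
    tile .LL i j = tri (Pt i j) zeta := by
  unfold tri
  rw [hull3, oz]
  ext z
  rw [mem_tile, h1, h2]
  simp only [rel, cut, Set.mem_ofPred_eq, al, ga, if_true]
  constructor
  · rintro ⟨x, y, ⟨a1, a2, a3, a4, a5⟩, rfl⟩
    exact ⟨x, y, a1, a3, a5, rfl⟩
  · rintro ⟨x, y, a1, a2, a3, rfl⟩
    exact ⟨x, y, ⟨a1, by linarith, a2, by linarith, a3⟩, rfl⟩

theorem tile_UR (i j : ℤ) (h1 : sg i = true) (h2 : tg j = true) :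
    tile .UR i j = tri (Pt i j + zeta) I := by
  unfold tri
  rw [hull3, oI]
  ext z
  rw [mem_tile, h1, h2]
  simp only [rel, cut, Set.mem_ofPred_eq, al, ga, if_true]
  constructor
  · rintro ⟨x, y, ⟨a1, a2, a3, a4, a5⟩, rfl⟩
    exact ⟨x + y - 1, 1 - x, by linarith, by linarith, by linarith, by push_cast; ring⟩
  · rintro ⟨s, t, a1, a2, a3, rfl⟩
    exact ⟨1 - t, s + t, ⟨by linarith, by linarith, by linarith, by linarith, by linarith⟩,
      by push_cast; ring⟩

theorem tile_LR (i j : ℤ) (h1 : sg i = false) (h2 : tg j = false) :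
    tile .LR i j = tri (Pt i j) 1 := by
  unfold tri
  rw [hull3]
  ext z
  rw [mem_tile, h1, h2]
  simp only [rel, cut, Set.mem_ofPred_eq, al, ga, Bool.false_eq_true, if_false]
  constructor
  · rintro ⟨x, y, ⟨a1, a2, a3, a4, a5⟩, rfl⟩
    exact ⟨x - y, y, by linarith, by linarith, by linarith, by push_cast; ring⟩
  · rintro ⟨s, t, a1, a2, a3, rfl⟩
    exact ⟨s + t, t, ⟨by linarith, by linarith, by linarith, by linarith, by linarith⟩,
      by push_cast; ring⟩

theorem tile_UL (i j : ℤ) (h1 : sg i = false) (h2 : tg j = false) :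
    tile .UL i j = tri (Pt i j) om := by
  unfold tri
  rw [hull3, om_sq]
  ext z
  rw [mem_tile, h1, h2]
  simp only [rel, cut, Set.mem_ofPred_eq, al, ga, Bool.false_eq_true, if_false]
  constructor
  · rintro ⟨x, y, ⟨a1, a2, a3, a4, a5⟩, rfl⟩
    exact ⟨x, y - x, by linarith, by linarith, by linarith, by push_cast; ring⟩
  · rintro ⟨s, t, a1, a2, a3, rfl⟩
    exact ⟨s, s + t, ⟨by linarith, by linarith, by linarith, by linarith, by linarith⟩,
      by push_cast; ring⟩

theorem norm_al (s : Bool) : ‖al s‖ = 1 := by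
  cases s <;> simp [al, norm_zeta]

theorem norm_ga (s : Bool) : ‖ga s‖ = 1 := by
  cases s <;> simp [ga, norm_om_sub]

/-- Shape, vertices and edge lengths of the tiles. -/
theorem tile_facts (k : Kind) (i j : ℤ) (h : valid k (sg i) (tg j) = true) :
    (k = .S → IsSquare (tile k i j)) ∧ (k ≠ .S → IsTriangle (tile k i j)) ∧
    (∀ v, IsVertex (tile k i j) v ↔ ∃ a ∈ verts k, v = Pt (i + a.1) (j + a.2)) ∧
    ∀ e ∈ edges k, dist (Pt (i + e.1.1) (j + e.1.2)) (Pt (i + e.2.1) (j + e.2.2)) = 1 := by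
  have n1 := norm_al (sg i)
  have n2 := norm_ga (tg j)
  have p11 : Pt (i + 1) (j + 1) = Pt i j + al (sg i) + ga (tg j) := by rw [Pt_01, Pt_10]
  have p10 := Pt_10 i j
  have p01 := Pt_01 i j
  have d1 : dist (Pt i j) (Pt (i + 1) j) = 1 := by rw [p10]; simp [n1]
  have d2 : dist (Pt (i + 1) j) (Pt (i + 1) (j + 1)) = 1 := by rw [p11, p10]; simp [n2]
  have d3 : dist (Pt (i + 1) (j + 1)) (Pt i (j + 1)) = 1 := by
    rw [p11, p01, add_right_comm]; simp [n1]
  have d4 : dist (Pt i (j + 1)) (Pt i j) = 1 := by rw [p01]; simp [n2]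
  cases k
  · obtain ⟨e1, e2⟩ := tile_S i j h
    refine ⟨fun _ => e1 ▸ isSquare_sq n1, fun h => absurd rfl h, fun v => ?_, ?_⟩
    · rw [e1, vert_sq n1, ← e2]
      simp [verts, p11, p10, p01]
    · simp [edges, d1, d2, d3, d4]
  · have hs : sg i = true ∧ tg j = true := by simpa [valid] using h
    have e1 := tile_LL i j hs.1 hs.2
    have d5 : dist (Pt (i + 1) j) (Pt i (j + 1)) = 1 := by
      rw [p10, p01, hs.1, hs.2, dist_add_left, dist_comm, dist_eq_norm]
      simp only [al, ga, if_true]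
      rw [← oI, norm_mul, norm_om]; simp
    refine ⟨fun h => (by cases h), fun _ => e1 ▸ isTriangle_tri norm_zeta, fun v => ?_, ?_⟩
    · rw [e1, vert_tri norm_zeta, oz]
      simp [verts, p10, p01, hs.1, hs.2, al, ga]
    · simp [edges, d1, d4, d5]
  · have hs : sg i = true ∧ tg j = true := by simpa [valid] using h
    have e1 := tile_UR i j hs.1 hs.2
    have d5 : dist (Pt i (j + 1)) (Pt (i + 1) j) = 1 := by
      rw [p10, p01, hs.1, hs.2, dist_add_left, dist_eq_norm]
      simp only [al, ga, if_true]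
      rw [← oI, norm_mul, norm_om]; simp
    refine ⟨fun h => (by cases h), fun _ => e1 ▸ isTriangle_tri norm_I, fun v => ?_, ?_⟩
    · rw [e1, vert_tri norm_I, oI]
      simp [verts, p11, p10, p01, hs.1, hs.2, al, ga]
    · simp [edges, d2, d3, d5]
  · have hs : sg i = false ∧ tg j = false := by simpa [valid] using h
    have e1 := tile_LR i j hs.1 hs.2
    have d5 : dist (Pt (i + 1) (j + 1)) (Pt i j) = 1 := by
      rw [p11, hs.1, hs.2, add_assoc]
      simp [al, ga, norm_om]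
    refine ⟨fun h => (by cases h), fun _ => e1 ▸ isTriangle_tri norm_one, fun v => ?_, ?_⟩
    · rw [e1, vert_tri norm_one]
      simp [verts, p11, p10, hs.1, hs.2, al, ga, add_assoc]
    · simp [edges, d1, d2, d5]
  · have hs : sg i = false ∧ tg j = false := by simpa [valid] using h
    have e1 := tile_UL i j hs.1 hs.2
    have d5 : dist (Pt i j) (Pt (i + 1) (j + 1)) = 1 := by
      rw [p11, hs.1, hs.2, add_assoc]
      simp [al, ga, norm_om]
    refine ⟨fun h => (by cases h), fun _ => e1 ▸ isTriangle_tri norm_om, fun v => ?_, ?_⟩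
    · rw [e1, vert_tri norm_om, om_sq]
      simp [verts, p11, p01, hs.1, hs.2, al, ga, add_assoc]
    · simp [edges, d3, d4, d5]

end Pool.Agent.P.MP_331808_co
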