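import Mathlib
import Pool.Agent.P.MP_331808_co.Phi

/-!
The tiling, the patch, and the final statement.
-/

namespace Pool.Agent.P.MP_331808_co

open Complex

/-- The tiling. -/
def TT : Set (Set ℂ) := {T | ∃ k i j, valid k (sg i) (tg j) = true ∧ T = tile k i j}

/-- The patch: six consecutive cells of one row. -/
def AA : Set (Set ℂ) :=
  {T | ∃ k i, -3 ≤ i ∧ i ≤ 2 ∧ valid k (sg i) (tg 0) = true ∧ T = tile k i 0}

theorem AA_sub : AA ⊆ TT := by
  rintro _ ⟨k, i, -, -, h, rfl⟩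
  exact ⟨k, i, 0, h, rfl⟩

theorem vol_segment (v w : ℂ) (h : dist v w = 1) : MeasureTheory.volume (segment ℝ v w) = 0 := by
  have hne : affineSpan ℝ ({v, w} : Set ℂ) ≠ ⊤ := by
    intro htop
    have : v + I * (w - v) ∈ affineSpan ℝ ({v, w} : Set ℂ) := by rw [htop]; trivial
    obtain ⟨r, hr⟩ := mem_affineSpan_pair_iff_exists_lineMap_eq.mp this
    rw [AffineMap.lineMap_apply] at hr
    simp only [vsub_eq_sub, real_smul, vadd_eq_add] at hr
    have h1 : ((r : ℂ) - I) * (w - v) = 0 := by linear_combination hr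
    rcases mul_eq_zero.mp h1 with h2 | h2
    · have := congrArg Complex.im h2
      simp at this
    · have : w = v := by linear_combination h2
      rw [this] at h; simp at h
  refine MeasureTheory.measure_mono_null ?_
    (MeasureTheory.Measure.addHaar_affineSubspace MeasureTheory.volume _ hne)
  rw [← convexHull_pair]
  exact convexHull_subset_affineSpan _

theorem verts_range : ∀ k : Kind, ∀ a ∈ verts k, (a.1 = 0 ∨ a.1 = 1) ∧ (a.2 = 0 ∨ a.2 = 1) := by
  decide

theorem edges_verts : ∀ k : Kind, ∀ e ∈ edges k, e.1 ∈ verts k ∧ e.2 ∈ verts k := by decide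

theorem Pt_cell (i j : ℤ) (k : Kind) (a : ℤ × ℤ) (ha : a ∈ verts k) :
    Pt (i + a.1) (j + a.2) = Pt i j + (a.1 : ℝ) * al (sg i) + (a.2 : ℝ) * ga (tg j) := by
  obtain ⟨h1, h2⟩ := verts_range k a ha
  rw [← Phi_cell i j a.1 a.2 (by rcases h1 with h | h <;> simp [h])
    (by rcases h1 with h | h <;> simp [h]) (by rcases h2 with h | h <;> simp [h])
    (by rcases h2 with h | h <;> simp [h])]
  simp [Pt]

theorem mem_inter (k k' : Kind) (i j i' j' : ℤ) (z : ℂ) :
    z ∈ tile k i j ∩ tile k' i' j' ↔ ∃ x y : ℝ,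
      (rel k x y ∧ rel k' (x - ((i' - i : ℤ) : ℝ)) (y - ((j' - j : ℤ) : ℝ))) ∧
      z = Pt i j + x * al (sg i) + y * ga (tg j) := by
  unfold tile
  rw [← Set.image_inter Phi.injective]
  constructor
  · rintro ⟨w, ⟨hw, hw'⟩, rfl⟩
    refine ⟨_, _, ⟨hw, ?_⟩, ?_⟩
    · have : rel k' (w.re - i') (w.im - j') := hw'
      convert this using 1 <;> push_cast <;> ring
    · rw [← Phi_cell i j _ _ hw.1 hw.2.1 hw.2.2.1 hw.2.2.2.1]
      congr 1
      apply Complex.ext <;> simp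
  · rintro ⟨x, y, ⟨h, h'⟩, rfl⟩
    refine ⟨⟨i + x, j + y⟩, ⟨by simpa [piece] using h, ?_⟩,
      Phi_cell i j _ _ h.1 h.2.1 h.2.2.1 h.2.2.2.1⟩
    show rel k' (i + x - i') (j + y - j')
    convert h' using 1 <;> push_cast <;> ring

theorem tile_meet (k k' : Kind) (i j i' j' : ℤ) (h : valid k (sg i) (tg j) = true)
    (h' : valid k' (sg i') (tg j') = true) (hne : tile k i j ≠ tile k' i' j') :
    MeasureTheory.volume (tile k i j ∩ tile k' i' j') = 0 ∧
      (tile k i j ∩ tile k' i' j' = ∅ ∨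
        (∃ v, IsVertex (tile k i j) v ∧ IsVertex (tile k' i' j') v ∧
          tile k i j ∩ tile k' i' j' = {v}) ∨
        (IsEdge (tile k i j) (tile k i j ∩ tile k' i' j') ∧
          IsEdge (tile k' i' j') (tile k i j ∩ tile k' i' j'))) := by
  obtain ⟨-, -, f3, f4⟩ := tile_facts k i j h
  obtain ⟨-, -, g3, -⟩ := tile_facts k' i' j' h'
  have hv' : ∀ a : ℤ × ℤ, (a.1 - (i' - i), a.2 - (j' - j)) ∈ verts k' →
      IsVertex (tile k' i' j') (Pt (i + a.1) (j + a.2)) := by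
    intro a ha
    refine (g3 _).mpr ⟨_, ha, ?_⟩
    congr 1 <;> ring
  have hm := meets k k' (i' - i) (j' - j) (by
      rintro ⟨rfl, h1, h2⟩
      obtain rfl : i' = i := by omega
      obtain rfl : j' = j := by omega
      exact hne rfl) (by
      intro h1 h2
      obtain rfl : i' = i := by omega
      obtain rfl : j' = j := by omega
      exact ⟨_, _, h, h'⟩)
  rcases hm with hm | ⟨a, ha, ha', hm⟩ | ⟨e, he, he1, he2, hm⟩
  · have : tile k i j ∩ tile k' i' j' = ∅ := by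
      ext z
      rw [mem_inter]
      simp only [Set.mem_empty_iff_false, iff_false]
      rintro ⟨x, y, hxy, -⟩
      exact hm x y hxy
    exact ⟨by rw [this]; simp, Or.inl this⟩
  · have : tile k i j ∩ tile k' i' j' = {Pt (i + a.1) (j + a.2)} := by
      ext z
      rw [mem_inter, Pt_cell i j k a ha]
      simp only [hm, Set.mem_singleton_iff]
      constructor
      · rintro ⟨x, y, ⟨rfl, rfl⟩, rfl⟩; rfl
      · rintro rfl; exact ⟨_, _, ⟨rfl, rfl⟩, rfl⟩
    exact ⟨by rw [this]; simp,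
      Or.inr (Or.inl ⟨_, (f3 _).mpr ⟨a, ha, rfl⟩, hv' a ha', this⟩)⟩
  · obtain ⟨e1, e2⟩ := edges_verts k e he
    have : tile k i j ∩ tile k' i' j' =
        segment ℝ (Pt (i + e.1.1) (j + e.1.2)) (Pt (i + e.2.1) (j + e.2.2)) := by
      ext z
      rw [mem_inter, Pt_cell i j k _ e1, Pt_cell i j k _ e2]
      simp only [hm]
      constructor
      · rintro ⟨x, y, ⟨t, t0, t1, rfl, rfl⟩, rfl⟩
        refine ⟨1 - t, t, by linarith, t0, by ring, ?_⟩
        simp only [real_smul]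
        push_cast
        ring
      · rintro ⟨s, t, s0, t0, hst, rfl⟩
        refine ⟨_, _, ⟨t, t0, by linarith, rfl, rfl⟩, ?_⟩
        have : s = 1 - t := by linarith
        subst this
        simp only [real_smul]
        push_cast
        ring
    have hd := f4 e he
    refine ⟨by rw [this]; exact vol_segment _ _ hd, Or.inr (Or.inr ⟨?_, ?_⟩)⟩
    · exact ⟨_, _, (f3 _).mpr ⟨_, e1, rfl⟩, (f3 _).mpr ⟨_, e2, rfl⟩, hd, this⟩
    · exact ⟨_, _, hv' _ he1, hv' _ he2, hd, this⟩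

theorem TT_edge : EdgeToEdge TT := by
  constructor
  · rintro _ ⟨k, i, j, h, rfl⟩
    obtain ⟨f1, f2, -, -⟩ := tile_facts k i j h
    by_cases hk : k = .S
    · exact Or.inr (f1 hk)
    · exact Or.inl (f2 hk)
  · rintro _ ⟨k, i, j, h, rfl⟩ _ ⟨k', i', j', h', rfl⟩ hne
    exact tile_meet k k' i j i' j' h h' hne

theorem exists_kind (s t : Bool) (x y : ℝ) (hx0 : 0 ≤ x) (hx1 : x ≤ 1) (hy0 : 0 ≤ y)
    (hy1 : y ≤ 1) : ∃ k, valid k s t = true ∧ rel k x y := by
  cases s <;> cases t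
  · rcases le_total x y with h | h
    · exact ⟨.UL, rfl, hx0, hx1, hy0, hy1, h⟩
    · exact ⟨.LR, rfl, hx0, hx1, hy0, hy1, h⟩
  · exact ⟨.S, rfl, hx0, hx1, hy0, hy1, le_rfl⟩
  · exact ⟨.S, rfl, hx0, hx1, hy0, hy1, le_rfl⟩
  · rcases le_total (x + y) 1 with h | h
    · exact ⟨.LL, rfl, hx0, hx1, hy0, hy1, h⟩
    · exact ⟨.UR, rfl, hx0, hx1, hy0, hy1, h⟩

theorem TT_cover : ⋃₀ TT = Set.univ := by
  apply Set.eq_univ_of_forall
  intro z
  obtain ⟨w, rfl⟩ := Phi.surjective z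
  obtain ⟨k, hk, hr⟩ := exists_kind (sg ⌊w.re⌋) (tg ⌊w.im⌋) (w.re - ⌊w.re⌋) (w.im - ⌊w.im⌋)
    (by linarith [Int.floor_le w.re]) (by linarith [Int.lt_floor_add_one w.re])
    (by linarith [Int.floor_le w.im]) (by linarith [Int.lt_floor_add_one w.im])
  exact ⟨_, ⟨k, _, _, hk, rfl⟩, w, hr, rfl⟩

theorem not_tri_sq {T : Set ℂ} (h1 : IsTriangle T) (h2 : IsSquare T) : False := by
  obtain ⟨p, u, hu, hT⟩ := h2
  have hT' : T = sq p u := hT
  have v1 : IsVertex T p := hT' ▸ (vert_sq hu _).mpr (by simp)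
  have v2 : IsVertex T (p + u + I * u) := hT' ▸ (vert_sq hu _).mpr (by simp)
  obtain ⟨a, b, c, hab, hbc, hca, hT2⟩ := h1
  have hle : ∀ v w, IsVertex T v → IsVertex T w → dist v w ≤ 1 := by
    intro v w hv hw
    rw [hT2] at hv hw
    have hv' := extremePoints_convexHull_subset hv
    have hw' := extremePoints_convexHull_subset hw
    simp only [Set.mem_insert_iff, Set.mem_singleton_iff] at hv' hw'
    rcases hv' with rfl | rfl | rfl <;> rcases hw' with rfl | rfl | rfl <;>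
      simp [hab, hbc, hca, dist_comm] <;> rw [dist_comm] <;> simp [hab, hbc, hca]
  have := hle _ _ v2 v1
  rw [dist_eq_norm] at this
  have e : p + u + I * u - p = (1 + I) * u := by ring
  rw [e, norm_mul, hu, mul_one] at this
  have h3 : normSq (1 + I) ≤ 1 := by
    rw [Complex.normSq_eq_norm_sq]
    nlinarith [norm_nonneg (1 + I)]
  simp [normSq_apply] at h3
  linarith

theorem verts_rigid (k k' : Kind) (di dj : ℤ)
    (h1 : ∀ a ∈ verts k, (a.1 - di, a.2 - dj) ∈ verts k')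
    (h2 : ∀ b ∈ verts k', (b.1 + di, b.2 + dj) ∈ verts k) : k = k' ∧ di = 0 ∧ dj = 0 := by
  cases k <;> cases k' <;> simp [verts] at h1 h2 ⊢ <;> omega

theorem tile_inj {k k' : Kind} {i j i' j' : ℤ} (h : valid k (sg i) (tg j) = true)
    (h' : valid k' (sg i') (tg j') = true) (he : tile k i j = tile k' i' j') :
    k = k' ∧ i = i' ∧ j = j' := by
  obtain ⟨-, -, f3, -⟩ := tile_facts k i j h
  obtain ⟨-, -, g3, -⟩ := tile_facts k' i' j' h'
  have := verts_rigid k k' (i' - i) (j' - j) (by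
      intro a ha
      obtain ⟨b, hb, hab⟩ := (g3 _).mp (he ▸ (f3 _).mpr ⟨a, ha, rfl⟩)
      obtain ⟨e1, e2⟩ := Pt_inj hab
      convert hb using 1
      apply Prod.ext <;> simp only <;> omega) (by
      intro a ha
      obtain ⟨b, hb, hab⟩ := (f3 _).mp (he ▸ (g3 _).mpr ⟨a, ha, rfl⟩)
      obtain ⟨e1, e2⟩ := Pt_inj hab
      convert hb using 1
      apply Prod.ext <;> simp only <;> omega)
  refine ⟨this.1, ?_, ?_⟩ <;> omega

/-- Boolean as integer. -/
def bz (b : Bool) : ℤ := if b then 1 else 0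

/-- Pieces at a grid point. -/
def cand (sqr s0 s1 t0 t1 : Bool) : Finset (Kind × Bool × Bool) :=
  Finset.univ.filter fun c => decide (c.1 = .S) = sqr ∧ (bz c.2.1, bz c.2.2) ∈ verts c.1 ∧
    valid c.1 (if c.2.1 then s1 else s0) (if c.2.2 then t1 else t0) = true

theorem cand_card : ∀ s0 s1 t0 : Bool,
    (cand false s0 s1 t0 (!t0)).card = 3 ∧ (cand true s0 s1 t0 (!t0)).card = 2 := by decide

theorem tg_pred (j : ℤ) : tg (j - 1) = !tg j := by
  unfold tg
  rcases Int.emod_two_eq_zero_or_one j with h | h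
  · have : (j - 1) % 2 = 1 := by omega
    simp [h, this]
  · have : (j - 1) % 2 = 0 := by omega
    simp [h, this]

theorem count_at (sqr : Bool) (i j : ℤ) (Q : Set ℂ → Prop)
    (hQ : ∀ k i j, valid k (sg i) (tg j) = true → (Q (tile k i j) ↔ decide (k = .S) = sqr)) :
    {T | T ∈ TT ∧ Q T ∧ IsVertex T (Pt i j)}.encard =
      (cand sqr (sg i) (sg (i - 1)) (tg j) (!tg j)).card := by
  have hval : ∀ c ∈ cand sqr (sg i) (sg (i - 1)) (tg j) (!tg j),
      valid c.1 (sg (i - bz c.2.1)) (tg (j - bz c.2.2)) = true := by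
    rintro ⟨k, b1, b2⟩ hc
    have := (Finset.mem_filter.mp hc).2.2.2
    rw [← tg_pred] at this
    cases b1 <;> cases b2 <;> simpa [bz] using this
  have hset : {T | T ∈ TT ∧ Q T ∧ IsVertex T (Pt i j)} =
      (fun c : Kind × Bool × Bool => tile c.1 (i - bz c.2.1) (j - bz c.2.2)) ''
        (cand sqr (sg i) (sg (i - 1)) (tg j) (!tg j) : Set _) := by
    ext T
    constructor
    · rintro ⟨⟨k, i', j', h, rfl⟩, hq, hv⟩
      obtain ⟨-, -, f3, -⟩ := tile_facts k i' j' h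
      obtain ⟨⟨a1, a2⟩, ha, hp⟩ := (f3 _).mp hv
      obtain ⟨e1, e2⟩ := Pt_inj hp
      simp only at e1 e2
      obtain ⟨r1, r2⟩ := verts_range k _ ha
      simp only at r1 r2
      have hk := (hQ k i' j' h).mp hq
      obtain rfl : i' = i - a1 := by omega
      obtain rfl : j' = j - a2 := by omega
      rw [← tg_pred]
      rcases r1 with rfl | rfl <;> rcases r2 with rfl | rfl
      · exact ⟨(k, false, false), by simpa [cand, bz, hk, ha] using h, by simp [bz]⟩
      · exact ⟨(k, false, true), by simpa [cand, bz, hk, ha] using h, by simp [bz]⟩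
      · exact ⟨(k, true, false), by simpa [cand, bz, hk, ha] using h, by simp [bz]⟩
      · exact ⟨(k, true, true), by simpa [cand, bz, hk, ha] using h, by simp [bz]⟩
    · rintro ⟨c, hc, rfl⟩
      have hv := hval c hc
      have hc' := (Finset.mem_filter.mp hc).2
      obtain ⟨-, -, f3, -⟩ := tile_facts _ _ _ hv
      refine ⟨⟨_, _, _, hv, rfl⟩, (hQ _ _ _ hv).mpr hc'.1, (f3 _).mpr ⟨_, hc'.2.1, ?_⟩⟩
      simp
  rw [hset, Set.InjOn.encard_image, Set.encard_coe_eq_coe_finsetCard]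
  rintro ⟨k, b1, b2⟩ hc ⟨k', b1', b2'⟩ hc' he
  obtain ⟨e1, e2, e3⟩ := tile_inj (hval _ hc) (hval _ hc') he
  simp only at e1 e2 e3
  subst e1
  have e4 : b1 = b1' := by
    cases b1 <;> cases b1' <;> simp [bz] at e2 ⊢ <;> omega
  have e5 : b2 = b2' := by
    cases b2 <;> cases b2' <;> simp [bz] at e3 ⊢ <;> omega
  rw [e4, e5]

theorem TT_count (i j : ℤ) : triAt TT (Pt i j) = 3 ∧ sqAt TT (Pt i j) = 2 := by
  constructor
  · unfold triAt
    rw [count_at false i j IsTriangle, (cand_card _ _ _).1]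
    · rfl
    intro k i j h
    obtain ⟨f1, f2, -, -⟩ := tile_facts k i j h
    simp only [decide_eq_false_iff_not]
    exact ⟨fun ht hk => not_tri_sq ht (f1 hk), f2⟩
  · unfold sqAt
    rw [count_at true i j IsSquare, (cand_card _ _ _).2]
    · rfl
    intro k i j h
    obtain ⟨f1, f2, -, -⟩ := tile_facts k i j h
    simp only [decide_eq_true_eq]
    exact ⟨fun hs => by_contra fun hk => not_tri_sq (f2 hk) hs, f1⟩

theorem TT_tiling : IsTiling TT := by
  refine ⟨TT_edge, TT_cover, ?_⟩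
  rintro v ⟨_, ⟨k, i, j, h, rfl⟩, hv⟩
  obtain ⟨-, -, f3, -⟩ := tile_facts k i j h
  obtain ⟨a, -, rfl⟩ := (f3 _).mp hv
  exact TT_count _ _

theorem AA_union : ⋃₀ AA = Phi '' (Set.Icc (-3) 3 ×ℂ Set.Icc 0 1) := by
  ext z
  constructor
  · rintro ⟨_, ⟨k, i, h1, h2, -, rfl⟩, w, hw, rfl⟩
    refine ⟨w, ?_, rfl⟩
    obtain ⟨a1, a2, a3, a4, -⟩ := hw
    have b1 : (-3 : ℝ) ≤ i := by exact_mod_cast h1
    have b2 : (i : ℝ) ≤ 2 := by exact_mod_cast h2
    simp only [Int.cast_zero, sub_zero] at a3 a4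
    exact ⟨⟨by linarith, by linarith⟩, a3, a4⟩
  · rintro ⟨w, ⟨⟨a1, a2⟩, a3, a4⟩, rfl⟩
    obtain ⟨i, h1, h2, h3, h4⟩ : ∃ i : ℤ, -3 ≤ i ∧ i ≤ 2 ∧ (i : ℝ) ≤ w.re ∧ w.re ≤ i + 1 := by
      rcases le_or_gt 2 w.re with h | h
      · exact ⟨2, by norm_num, le_rfl, by exact_mod_cast h, by push_cast; linarith⟩
      · refine ⟨⌊w.re⌋, Int.le_floor.mpr (by exact_mod_cast a1), ?_, Int.floor_le _,
          (Int.lt_floor_add_one _).le⟩
        have : ⌊w.re⌋ < 2 := Int.floor_lt.mpr (by exact_mod_cast h)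
        omega
    obtain ⟨k, hk, hr⟩ := exists_kind (sg i) (tg 0) (w.re - i) (w.im - (0 : ℤ))
      (by linarith) (by linarith) (by simpa using a3) (by simpa using a4)
    exact ⟨_, ⟨k, i, h1, h2, hk, rfl⟩, w, hr, rfl⟩

theorem AA_patch : IsPatch AA := by
  refine ⟨?_, ⟨fun T hT => TT_edge.1 T (AA_sub hT),
    fun T hT T' hT' => TT_edge.2 T (AA_sub hT) T' (AA_sub hT')⟩, ?_, ?_⟩
  · apply Set.Finite.subset (((Set.finite_univ (α := Kind)).prod (Set.finite_Icc (-3 : ℤ) 2)).image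
      fun c => tile c.1 c.2 0)
    rintro _ ⟨k, i, h1, h2, -, rfl⟩
    exact ⟨(k, i), ⟨trivial, h1, h2⟩, rfl⟩
  · set R : Set ℂ := Set.Icc (-3) 3 ×ℂ Set.Icc 0 1 with hR
    have hconv : Convex ℝ R := by
      have := convexHull_reProdIm (Set.Icc (-3 : ℝ) 3) (Set.Icc (0 : ℝ) 1)
      rw [(convex_Icc _ _).convexHull_eq, (convex_Icc _ _).convexHull_eq] at this
      rw [hR, ← this]
      exact convex_convexHull _ _
    have hcomp : IsCompact R := isCompact_Icc.reProdIm isCompact_Icc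
    have hint : (interior R).Nonempty := by
      rw [hR, interior_reProdIm, interior_Icc, interior_Icc]
      exact ⟨⟨0, 1 / 2⟩, by constructor <;> constructor <;> norm_num⟩
    obtain ⟨e, -, he, -⟩ :=
      exists_homeomorph_image_interior_closure_frontier_eq_unitBall hconv hint hcomp.isBounded
    rw [hcomp.isClosed.closure_eq] at he
    exact ⟨(Homeomorph.setCongr AA_union).trans ((Phi.image R).symm.trans
      ((e.image R).trans (Homeomorph.setCongr he)))⟩
  · rintro v ⟨_, ⟨k, i, -, -, h, rfl⟩, hv⟩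
    obtain ⟨-, -, f3, -⟩ := tile_facts k i 0 h
    obtain ⟨a, ha, rfl⟩ := (f3 _).mp hv
    constructor
    · intro hint
      exfalso
      rw [AA_union, ← Phi.image_interior, interior_reProdIm, interior_Icc, interior_Icc] at hint
      obtain ⟨w, hw, he⟩ := hint
      have := Phi.injective he
      subst this
      have h2 := hw.2
      rcases (verts_range k a ha).2 with h3 | h3 <;> simp [h3] at h2
    · intro _
      have := TT_count (i + a.1) (0 + a.2)
      constructor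
      · rw [← this.1]
        exact Set.encard_le_encard fun T hT => ⟨AA_sub hT.1, hT.2⟩
      · rw [← this.2]
        exact Set.encard_le_encard fun T hT => ⟨AA_sub hT.1, hT.2⟩

theorem AA_layer {B : Set (Set ℂ)} (h : AA ⊆ B) : Layer B 0 := by
  have p0 := Pt_zero
  have p1 : Pt 1 0 = zeta := by simpa [p0, sg, al] using Pt_10 0 0
  have p2 : Pt 2 0 = zeta + 1 := by simpa [p1, sg, al] using Pt_10 1 0
  have m1 : Pt (-1) 0 = -1 := by
    have := Pt_10 (-1) 0
    simp [p0, sg, al] at this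
    linear_combination -this
  have m2 : Pt (-2) 0 = -1 - zeta := by
    have := Pt_10 (-2) 0
    simp [m1, sg, al] at this
    linear_combination -this
  have m3 : Pt (-3) 0 = -1 - 2 * zeta := by
    have := Pt_10 (-3) 0
    simp [m2, sg, al] at this
    linear_combination -this
  have d0 : emb (dir 0) = 1 := by simp [emb, dir]
  have d1 : emb (dir 1) = zeta := by simp [emb, dir]
  have d3 : emb (dir 3) = I := by simp [emb, dir]
  have mem : ∀ k i, -3 ≤ i → i ≤ 2 → valid k (sg i) (tg 0) = true → tile k i 0 ∈ B :=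
    fun k i h1 h2 h3 => h ⟨k, i, h1, h2, h3, rfl⟩
  have LL : ∀ i, -3 ≤ i → i ≤ 2 → sg i = true → ∀ p, Pt i 0 = emb p → TrB B 0 p 1 := by
    intro i h1 h2 h3 p hp
    have := mem .LL i h1 h2 (by rw [h3]; rfl)
    rw [tile_LL i 0 h3 rfl, hp] at this
    unfold TrB
    rwa [d1, zero_add]
  have UR : ∀ i, -3 ≤ i → i ≤ 2 → sg i = true → ∀ p, Pt i 0 + zeta = emb p → TrB B 0 p 3 := by
    intro i h1 h2 h3 p hp
    have := mem .UR i h1 h2 (by rw [h3]; rfl)
    rw [tile_UR i 0 h3 rfl, hp] at this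
    unfold TrB
    rwa [d3, zero_add]
  have SS : ∀ i, -3 ≤ i → i ≤ 2 → sg i = false → ∀ p, Pt i 0 = emb p → SqB B 0 p 0 := by
    intro i h1 h2 h3 p hp
    have hv : valid .S (sg i) (tg 0) = true := by rw [h3]; rfl
    have := mem .S i h1 h2 hv
    rw [(tile_S i 0 hv).1, hp, h3] at this
    unfold SqB
    rwa [d0, zero_add]
  refine ⟨LL (-3) (by norm_num) (by norm_num) rfl _ ?_, UR (-3) (by norm_num) (by norm_num) rfl _ ?_,
    LL (-2) (by norm_num) (by norm_num) rfl _ ?_, UR (-2) (by norm_num) (by norm_num) rfl _ ?_,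
    SS (-1) (by norm_num) (by norm_num) rfl _ ?_, LL 0 (by norm_num) (by norm_num) rfl _ ?_,
    UR 0 (by norm_num) (by norm_num) rfl _ ?_, SS 1 (by norm_num) (by norm_num) rfl _ ?_,
    SS 2 (by norm_num) (by norm_num) rfl _ ?_⟩
  all_goals simp only [p0, p1, p2, m1, m2, m3, emb]; push_cast; ring

theorem main : ∃ A : Set (Set ℂ), IsPatch A ∧ (∃ F, IsTiling F ∧ A ⊆ F) ∧
    ¬ ∃ B, IsPatch B ∧ A ⊆ B ∧ Convex ℝ (⋃₀ B) :=
  ⟨AA, AA_patch, ⟨TT, TT_tiling, AA_sub⟩,
    fun ⟨_, hB, hAB, hc⟩ => no_convex hB hc 0 (AA_layer hAB)⟩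

end Pool.Agent.P.MP_331808_co
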